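import Pool.Agent.Helper282_TM.Defs

/-!
# the product of two chains (proved by helper826)
-/

set_option autoImplicit false

namespace Pool.Agent.Helper282_TM

open Finset

namespace Box

open Classical in
/-- monotone functions `Fin q → [0,p]` -/
noncomputable def Mon (q p : ℕ) : Finset (Fin q → ℕ) :=
  (Fintype.piFinset fun _ : Fin q => range (p + 1)).filter fun f => Monotone f

theorem mem_Mon {q p : ℕ} {f : Fin q → ℕ} : f ∈ Mon q p ↔ (∀ y, f y ≤ p) ∧ Monotone f := by
  unfold Mon
  rw [mem_filter, Fintype.mem_piFinset]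
  simp only [mem_range, Nat.lt_succ_iff]

/-- the signed count -/
noncomputable def A (q p : ℕ) : ℤ := ∑ f ∈ Mon q p, (-1 : ℤ) ^ (∑ y, f y)

open Classical in
/-- self-dual functions -/
noncomputable def SD (q p : ℕ) : Finset (Fin q → ℕ) :=
  (Mon q p).filter fun f => ∀ y, f y + f (Fin.rev y) = p

theorem mem_SD {q p : ℕ} {f : Fin q → ℕ} :
    f ∈ SD q p ↔ Monotone f ∧ ∀ y, f y + f (Fin.rev y) = p := by
  unfold SD
  rw [mem_filter, mem_Mon]
  constructor
  · rintro ⟨⟨_, h⟩, h'⟩
    exact ⟨h, h'⟩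
  · rintro ⟨h, h'⟩
    exact ⟨⟨fun y => by have := h' y; omega, h⟩, h'⟩

theorem A_zero (p : ℕ) : A 0 p = 1 := by
  have : Mon 0 p = {fun y => y.elim0} := by
    ext f
    rw [mem_Mon, mem_singleton]
    constructor
    · intro _
      funext y
      exact y.elim0
    · intro _
      exact ⟨fun y => y.elim0, fun y => y.elim0⟩
  unfold A
  rw [this]
  simp

theorem A_succ (q p : ℕ) : A (q + 1) p = ∑ c ∈ range (p + 1), (-1 : ℤ) ^ c * A q c := by
  unfold A
  simp_rw [mul_sum]
  rw [sum_sigma']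
  refine sum_bij' (fun f _ => ⟨f (Fin.last q), Fin.init f⟩)
    (fun x _ => Fin.snoc (α := fun _ => ℕ) x.2 x.1) ?_ ?_ ?_ ?_ ?_
  · intro f hf
    rw [mem_Mon] at hf
    rw [mem_sigma, mem_range, mem_Mon]
    refine ⟨Nat.lt_succ_of_le (hf.1 _), fun y => hf.2 (Fin.le_last _), ?_⟩
    intro a b hab
    exact hf.2 (Fin.castSucc_le_castSucc_iff.2 hab)
  · rintro ⟨c, g⟩ hx
    rw [mem_sigma, mem_range, mem_Mon] at hx
    simp only at hx
    obtain ⟨hc, hg, hm⟩ := hx
    rw [mem_Mon]
    have hle : ∀ y : Fin (q + 1), Fin.snoc (α := fun _ => ℕ) g c y ≤ c := by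
      intro y
      refine Fin.lastCases ?_ (fun i => ?_) y
      · simp
      · simpa using hg i
    refine ⟨fun y => (hle y).trans (by omega), ?_⟩
    intro a b
    refine Fin.lastCases ?_ (fun j => ?_) b
    · intro _
      simpa using hle a
    · refine Fin.lastCases ?_ (fun i => ?_) a
      · intro h
        exfalso
        exact absurd h (not_le.2 (Fin.castSucc_lt_last j))
      · intro h
        simpa using hm (Fin.castSucc_le_castSucc_iff.1 h)
  · intro f _
    simp
  · rintro ⟨c, g⟩ _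
    simp
  · intro f _
    simp only
    rw [Fin.sum_univ_castSucc, pow_add, mul_comm]
    rfl

theorem A_zero_right (q : ℕ) : A q 0 = 1 := by
  induction q with
  | zero => exact A_zero 0
  | succ q ih => rw [A_succ]; simp [ih]

theorem A_succ_succ (q p : ℕ) : A (q + 1) (p + 1) = A (q + 1) p + (-1) ^ (p + 1) * A q (p + 1) := by
  rw [A_succ q (p + 1), sum_range_succ, ← A_succ q p]

theorem A_rec (q p : ℕ) : A (q + 2) (p + 2) = A (q + 2) p + A q (p + 2) := by
  rw [A_succ_succ (q + 1) (p + 1), A_succ_succ (q + 1) p, A_succ_succ q (p + 1)]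
  have h : ((-1 : ℤ) ^ p) * (-1) ^ p = 1 := by
    rw [← mul_pow]; simp
  have h1 : (-1 : ℤ) ^ (p + 1 + 1) = (-1) ^ p := by ring
  have h2 : (-1 : ℤ) ^ (p + 1) = - (-1) ^ p := by ring
  rw [h1, h2]
  linear_combination (A q (p + 1 + 1)) * h

theorem A_rec_one (q : ℕ) : A (q + 2) 1 = A q 1 := by
  rw [A_succ_succ (q + 1) 0, A_succ_succ q 0, A_zero_right, A_zero_right]
  ring

theorem A_one_zero : A 1 0 = 1 := A_zero_right 1

theorem A_one_one : A 1 1 = 0 := by
  rw [A_succ_succ 0 0, A_zero, A_zero_right]; norm_num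

theorem A_one_rec (p : ℕ) : A 1 (p + 2) = A 1 p := by
  rw [A_succ_succ 0 (p + 1), A_succ_succ 0 p, A_zero, A_zero]
  ring

/-! ### the self-dual ones -/

theorem SD_zero (p : ℕ) : (SD 0 p).card = 1 := by
  rw [card_eq_one]
  refine ⟨fun y => y.elim0, ?_⟩
  ext f
  rw [mem_SD, mem_singleton]
  constructor
  · intro _
    funext y
    exact y.elim0
  · intro _
    exact ⟨fun y => y.elim0, fun y => y.elim0⟩

/-- the ones that start with `0` -/
theorem SD_start_zero (q p : ℕ) :
    ((SD (q + 2) p).filter fun f => f 0 = 0).card = (SD q p).card := by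
  refine card_bij' (fun f _ => fun y => f (y.castSucc.succ))
    (fun g _ => fun y : Fin (q + 2) => if h0 : y.val = 0 then 0 else
      if hl : y.val = q + 1 then p else g ⟨y.val - 1, by omega⟩) ?_ ?_ ?_ ?_
  · intro f hf
    rw [mem_filter, mem_SD] at hf
    obtain ⟨⟨hm, hs⟩, h0⟩ := hf
    rw [mem_SD]
    refine ⟨?_, ?_⟩
    · intro a b hab
      apply hm
      rw [Fin.le_def] at hab ⊢
      simpa using hab
    · intro y
      have h1 := hs y.castSucc.succ
      have h2 : Fin.rev (y.castSucc.succ) = (Fin.rev y).castSucc.succ := by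
        ext
        simp [Fin.val_rev]
        omega
      rw [h2] at h1
      exact h1
  · intro g hg
    rw [mem_SD] at hg
    obtain ⟨hm, hs⟩ := hg
    rw [mem_filter, mem_SD]
    refine ⟨⟨?_, ?_⟩, by simp⟩
    · intro a b hab
      rw [Fin.le_def] at hab
      have ha := a.2
      have hb := b.2
      dsimp only
      split_ifs with h1 h2 h3 h4 h5 h6 h7
      · exact le_rfl
      · omega
      · omega
      · omega
      · exact le_rfl
      · omega
      · omega
      · have := hs ⟨a.val - 1, by omega⟩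
        omega
      · apply hm
        rw [Fin.le_def]
        simp only
        omega
    · intro y
      have hy := y.2
      have hr : (Fin.rev y).val = q + 1 - y.val := by rw [Fin.val_rev]; omega
      split_ifs with h1 h2 h3 h4 h5 h6 h7
      · omega
      · omega
      · omega
      · omega
      · omega
      · omega
      · omega
      · omega
      · have h8 := hs ⟨y.val - 1, by omega⟩
        have h9 : Fin.rev (⟨y.val - 1, by omega⟩ : Fin q) = ⟨(Fin.rev y).val - 1, by omega⟩ := by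
          ext
          rw [Fin.val_rev]
          simp only [hr]
          omega
        rw [h9] at h8
        exact h8
  · intro f hf
    rw [mem_filter, mem_SD] at hf
    obtain ⟨⟨hm, hs⟩, h0⟩ := hf
    funext y
    have hy := y.2
    dsimp only
    split_ifs with h1 h2
    · have : y = 0 := Fin.ext h1
      rw [this, h0]
    · have h3 := hs 0
      have h4 : y = Fin.rev 0 := by
        ext
        rw [Fin.val_rev, h2]
        simp
      rw [← h4, h0] at h3
      omega
    · congr 1
      ext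
      simp
      omega
  · intro g _
    funext y
    have hy := y.2
    dsimp only
    have h1 : (y.castSucc.succ : Fin (q + 2)).val = y.val + 1 := by simp
    split_ifs with h2 h3
    · omega
    · omega
    · congr 1

/-- the ones that do not start with `0` -/
theorem SD_start_pos (q p : ℕ) [NeZero q] :
    ((SD q (p + 2)).filter fun f => ¬ f 0 = 0).card = (SD q p).card := by
  refine card_bij' (fun f _ => fun y => f y - 1) (fun g _ => fun y => g y + 1) ?_ ?_ ?_ ?_
  · intro f hf
    rw [mem_filter, mem_SD] at hf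
    obtain ⟨⟨hm, hs⟩, h0⟩ := hf
    rw [mem_SD]
    have h1 : ∀ y, 1 ≤ f y := fun y => by
      have := hm (Fin.zero_le y)
      omega
    refine ⟨fun a b hab => Nat.sub_le_sub_right (hm hab) 1, fun y => ?_⟩
    have h2 := h1 y
    have h3 := h1 (Fin.rev y)
    have h4 := hs y
    omega
  · intro g hg
    rw [mem_SD] at hg
    obtain ⟨hm, hs⟩ := hg
    rw [mem_filter, mem_SD]
    refine ⟨⟨fun a b hab => Nat.add_le_add_right (hm hab) 1, fun y => ?_⟩, by simp⟩
    have h4 := hs y
    omega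
  · intro f hf
    rw [mem_filter, mem_SD] at hf
    obtain ⟨⟨hm, hs⟩, h0⟩ := hf
    funext y
    have := hm (Fin.zero_le y)
    dsimp only
    omega
  · intro g _
    funext y
    dsimp only
    omega

theorem SD_rec (q p : ℕ) :
    (SD (q + 2) (p + 2)).card = (SD (q + 2) p).card + (SD q (p + 2)).card := by
  have h1 := SD_start_zero q (p + 2)
  have h2 := SD_start_pos (q + 2) p
  have h3 := card_filter_add_card_filter_not (s := SD (q + 2) (p + 2)) (fun f => f 0 = 0)
  omega

theorem SD_small (q p : ℕ) (hp : p ≤ 1) : (SD (q + 2) p).card = (SD q p).card := by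
  rw [← SD_start_zero q p]
  congr 1
  ext f
  rw [mem_filter]
  refine ⟨fun h => ⟨h, ?_⟩, fun h => h.1⟩
  rw [mem_SD] at h
  have h1 := h.2 0
  have h2 := h.1 (Fin.zero_le (Fin.rev (0 : Fin (q + 2))))
  omega

theorem SD_one_rec (p : ℕ) : (SD 1 (p + 2)).card = (SD 1 p).card := by
  rw [← SD_start_pos 1 p]
  congr 1
  ext f
  rw [mem_filter]
  refine ⟨fun h => ⟨h, ?_⟩, fun h => h.1⟩
  rw [mem_SD] at h
  have h1 := h.2 0
  have h3 : Fin.rev (0 : Fin 1) = 0 := rfl
  rw [h3] at h1
  omega

theorem SD_one_zero : (SD 1 0).card = 1 := by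
  rw [card_eq_one]
  refine ⟨fun _ => 0, ?_⟩
  ext f
  rw [mem_SD, mem_singleton]
  constructor
  · rintro ⟨_, h⟩
    funext y
    have := h y
    omega
  · rintro rfl
    exact ⟨fun _ _ _ => le_rfl, fun _ => rfl⟩

theorem SD_one_one : (SD 1 1).card = 0 := by
  rw [card_eq_zero, eq_empty_iff_forall_notMem]
  intro f hf
  rw [mem_SD] at hf
  have h1 := hf.2 0
  have h3 : Fin.rev (0 : Fin 1) = 0 := rfl
  rw [h3] at h1
  omega

theorem A_eq_SD : ∀ q p : ℕ, A q p = ((SD q p).card : ℤ)
  | 0, p => by rw [A_zero, SD_zero]; rfl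
  | 1, 0 => by rw [A_one_zero, SD_one_zero]; rfl
  | 1, 1 => by rw [A_one_one, SD_one_one]; rfl
  | 1, p + 2 => by rw [A_one_rec, SD_one_rec]; exact A_eq_SD 1 p
  | q + 2, 0 => by
    rw [A_zero_right, SD_small q 0 (by omega), ← A_eq_SD q 0, A_zero_right]
  | q + 2, 1 => by
    rw [A_rec_one, SD_small q 1 le_rfl]; exact A_eq_SD q 1
  | q + 2, p + 2 => by
    rw [A_rec, SD_rec, A_eq_SD (q + 2) p, A_eq_SD q (p + 2)]
    push_cast
    ring

/-! ### ideals and functions -/

/-- the function of an ideal -/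
def toF {p q : ℕ} (I : Finset (Fin p × Fin q)) (y : Fin q) : ℕ :=
  (univ.filter fun x : Fin p => (x, y) ∈ I).card

/-- the ideal of a function -/
def toI {p q : ℕ} (f : Fin q → ℕ) : Finset (Fin p × Fin q) :=
  univ.filter fun z => p ≤ z.1.val + f z.2

theorem mem_toI {p q : ℕ} {f : Fin q → ℕ} {z : Fin p × Fin q} :
    z ∈ toI f ↔ p ≤ z.1.val + f z.2 := by
  simp [toI]

open Classical in
theorem mem_ups {p q : ℕ} {I : Finset (Fin p × Fin q)} :
    I ∈ ups (fun x y : Fin p × Fin q => x ≤ y) univ ↔ ∀ x ∈ I, ∀ y, x ≤ y → y ∈ I := by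
  unfold ups
  rw [mem_filter]
  unfold Up
  simp

theorem card_upset {p : ℕ} (U : Finset (Fin p)) (hU : ∀ x ∈ U, ∀ y, x ≤ y → y ∈ U) (x : Fin p) :
    x ∈ U ↔ p ≤ x.val + U.card := by
  constructor
  · intro hx
    have h1 : Finset.Ici x ⊆ U := fun y hy => hU x hx y (Finset.mem_Ici.1 hy)
    have h2 := card_le_card h1
    rw [Fin.card_Ici] at h2
    omega
  · intro hx
    by_contra hcon
    have h1 : U ⊆ Finset.Ioi x := by
      intro y hy
      rw [Finset.mem_Ioi]
      by_contra h
      exact hcon (hU y hy x (not_lt.1 h))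
    have h2 := card_le_card h1
    rw [Fin.card_Ioi] at h2
    have := x.2
    omega

theorem mem_iff_toF {p q : ℕ} {I : Finset (Fin p × Fin q)}
    (hI : ∀ x ∈ I, ∀ y, x ≤ y → y ∈ I) (z : Fin p × Fin q) :
    z ∈ I ↔ p ≤ z.1.val + toF I z.2 := by
  have := card_upset (univ.filter fun x : Fin p => (x, z.2) ∈ I) (by
    intro x hx y hxy
    rw [mem_filter] at hx ⊢
    exact ⟨mem_univ _, hI _ hx.2 _ (Prod.mk_le_mk.2 ⟨hxy, le_rfl⟩)⟩) z.1
  unfold toF
  rw [← this, mem_filter]
  simp

theorem toF_mem {p q : ℕ} {I : Finset (Fin p × Fin q)}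
    (hI : ∀ x ∈ I, ∀ y, x ≤ y → y ∈ I) : toF I ∈ Mon q p := by
  rw [mem_Mon]
  refine ⟨fun y => ?_, fun a b hab => ?_⟩
  · unfold toF
    refine (card_le_univ _).trans ?_
    simp
  · unfold toF
    apply card_le_card
    intro x hx
    rw [mem_filter] at hx ⊢
    exact ⟨mem_univ _, hI _ hx.2 _ (Prod.mk_le_mk.2 ⟨le_rfl, hab⟩)⟩

theorem toI_mem {p q : ℕ} {f : Fin q → ℕ} (hf : Monotone f) :
    ∀ x ∈ (toI f : Finset (Fin p × Fin q)), ∀ y, x ≤ y → y ∈ (toI f : Finset (Fin p × Fin q)) := by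
  intro x hx y hxy
  rw [mem_toI] at hx ⊢
  obtain ⟨h1, h2⟩ := Prod.le_def.1 hxy
  have h3 := hf h2
  rw [Fin.le_def] at h1
  omega

theorem toF_toI {p q : ℕ} {f : Fin q → ℕ} (hf : ∀ y, f y ≤ p) :
    toF (toI f : Finset (Fin p × Fin q)) = f := by
  funext y
  unfold toF
  have h1 : (univ.filter fun x : Fin p => (x, y) ∈ (toI f : Finset (Fin p × Fin q))) =
      univ.filter fun x : Fin p => p - f y ≤ x.val := by
    ext x
    rw [mem_filter, mem_filter, mem_toI]
    simp only [mem_univ, true_and]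
    omega
  rw [h1]
  have h2 : (univ.filter fun x : Fin p => p - f y ≤ x.val).card =
      (Finset.Ico (p - f y) p).card := by
    refine card_bij (fun x _ => x.val) ?_ ?_ ?_
    · intro x hx
      rw [mem_filter] at hx
      rw [Finset.mem_Ico]
      exact ⟨hx.2, x.2⟩
    · intro a _ b _ h
      exact Fin.ext h
    · intro b hb
      rw [Finset.mem_Ico] at hb
      refine ⟨⟨b, hb.2⟩, ?_, rfl⟩
      rw [mem_filter]
      exact ⟨mem_univ _, hb.1⟩
  rw [h2, Nat.card_Ico]
  have := hf y
  omega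

theorem toI_toF {p q : ℕ} {I : Finset (Fin p × Fin q)}
    (hI : ∀ x ∈ I, ∀ y, x ≤ y → y ∈ I) : toI (toF I) = I := by
  ext z
  rw [mem_toI, mem_iff_toF hI]

theorem card_eq_sum {p q : ℕ} (I : Finset (Fin p × Fin q)) : I.card = ∑ y, toF I y := by
  rw [card_eq_sum_card_fiberwise (f := Prod.snd) (t := univ) (by simp)]
  refine sum_congr rfl fun y _ => ?_
  unfold toF
  refine card_bij (fun z _ => z.1) ?_ ?_ ?_
  · intro z hz
    rw [mem_filter] at hz ⊢
    obtain ⟨h1, h2⟩ := hz
    refine ⟨mem_univ _, ?_⟩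
    rw [← h2]
    exact h1
  · intro a ha b hb h
    rw [mem_filter] at ha hb
    exact Prod.ext h (ha.2.trans hb.2.symm)
  · intro x hx
    rw [mem_filter] at hx
    refine ⟨(x, y), ?_, rfl⟩
    rw [mem_filter]
    exact ⟨hx.2, rfl⟩

theorem chi_eq (p q : ℕ) :
    chi (fun x y : Fin p × Fin q => x ≤ y) univ = A q p := by
  unfold chi A
  refine sum_bij' (fun I _ => toF I) (fun f _ => toI f) ?_ ?_ ?_ ?_ ?_
  · intro I hI
    exact toF_mem (mem_ups.1 hI)
  · intro f hf
    exact mem_ups.2 (toI_mem (mem_Mon.1 hf).2)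
  · intro I hI
    exact toI_toF (mem_ups.1 hI)
  · intro f hf
    exact toF_toI (mem_Mon.1 hf).1
  · intro I _
    rw [card_eq_sum]

theorem mem_image_w {p q : ℕ} (I : Finset (Fin p × Fin q)) (z : Fin p × Fin q) :
    z ∈ I.image (fun x => (Fin.rev x.1, Fin.rev x.2)) ↔ (Fin.rev z.1, Fin.rev z.2) ∈ I := by
  rw [mem_image]
  constructor
  · rintro ⟨x, hx, rfl⟩
    simpa using hx
  · intro h
    exact ⟨_, h, by simp⟩

theorem selfdual_iff {p q : ℕ} {I : Finset (Fin p × Fin q)}
    (hI : ∀ x ∈ I, ∀ y, x ≤ y → y ∈ I) :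
    univ \ I.image (fun x => (Fin.rev x.1, Fin.rev x.2)) = I ↔
      ∀ y, toF I y + toF I (Fin.rev y) = p := by
  have h1 : univ \ I.image (fun x => (Fin.rev x.1, Fin.rev x.2)) = I ↔
      ∀ z : Fin p × Fin q, (Fin.rev z.1, Fin.rev z.2) ∉ I ↔ z ∈ I := by
    rw [Finset.ext_iff]
    refine forall_congr' fun z => ?_
    rw [mem_sdiff, mem_image_w]
    simp
  rw [h1]
  have hle : ∀ y, toF I y ≤ p := (mem_Mon.1 (toF_mem hI)).1
  have h2 : (∀ z : Fin p × Fin q, (Fin.rev z.1, Fin.rev z.2) ∉ I ↔ z ∈ I) ↔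
      ∀ (y : Fin q) (x : Fin p), (toF I (Fin.rev y) ≤ x.val ↔ p - toF I y ≤ x.val) := by
    constructor
    · intro h y x
      have h3 := h (x, y)
      rw [mem_iff_toF hI, mem_iff_toF hI] at h3
      simp only [Fin.val_rev] at h3
      have := x.2
      omega
    · rintro h ⟨x, y⟩
      have h3 := h y x
      rw [mem_iff_toF hI, mem_iff_toF hI]
      simp only [Fin.val_rev]
      have := x.2
      omega
  rw [h2]
  refine forall_congr' fun y => ?_
  have ha := hle y
  have hb := hle (Fin.rev y)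
  constructor
  · intro h
    by_contra hcon
    rcases lt_or_gt_of_ne (show toF I (Fin.rev y) ≠ p - toF I y by omega) with h3 | h3
    · have h4 := h ⟨toF I (Fin.rev y), by omega⟩
      simp only at h4
      omega
    · have h4 := h ⟨p - toF I y, by omega⟩
      simp only at h4
      omega
  · intro h x
    omega

theorem sd_eq (p q : ℕ) :
    sd (fun x y : Fin p × Fin q => x ≤ y) univ (fun x => (Fin.rev x.1, Fin.rev x.2)) =
      (SD q p).card := by
  unfold sd
  refine card_bij' (fun I _ => toF I) (fun f _ => toI f) ?_ ?_ ?_ ?_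
  · intro I hI
    rw [mem_filter] at hI
    have h1 := mem_ups.1 hI.1
    rw [mem_SD]
    exact ⟨(mem_Mon.1 (toF_mem h1)).2, (selfdual_iff h1).1 hI.2⟩
  · intro f hf
    rw [mem_SD] at hf
    have h1 : ∀ y, f y ≤ p := fun y => by have := hf.2 y; omega
    rw [mem_filter]
    refine ⟨mem_ups.2 (toI_mem hf.1), ?_⟩
    rw [selfdual_iff (toI_mem hf.1), toF_toI h1]
    exact hf.2
  · intro I hI
    rw [mem_filter] at hI
    exact toI_toF (mem_ups.1 hI.1)
  · intro f hf
    rw [mem_SD] at hf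
    have h1 : ∀ y, f y ≤ p := fun y => by have := hf.2 y; omega
    exact toF_toI h1

end Box

/-- TARGET -/
theorem box (p q : ℕ) :
    Good (fun x y : Fin p × Fin q => x ≤ y) Finset.univ
      (fun x => (Fin.rev x.1, Fin.rev x.2)) := by
  unfold Good
  rw [Box.chi_eq, Box.sd_eq]
  exact Box.A_eq_SD q p

end Pool.Agent.Helper282_TM
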