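import Pool.Agent.Helper282_TM.Defs

/-!
# The signed count of the upper ideals of the staircase (proved by helper886)
-/

set_option autoImplicit false

namespace Pool.Agent.Helper282_TM

open Finset

namespace Stair

variable {n : ℕ}

/-- Every element strictly above `(d, d)` lies in `I` and none strictly below. -/
def Tog (I : Finset (Fin n × Fin n)) (d : Fin n) : Prop :=
  ∀ y : Fin n × Fin n, y.1 ≤ y.2 → (y < (d, d) → y ∉ I) ∧ ((d, d) < y → y ∈ I)

theorem Tog.unique {I : Finset (Fin n × Fin n)} {d e : Fin n} (hd : Tog I d) (he : Tog I e) :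
    d = e := by
  have key : ∀ a b : Fin n, Tog I a → Tog I b → ¬ a < b := by
    intro a b ha hb hab
    have h1 : (a, b) ∈ I := (ha (a, b) hab.le).2 (Prod.mk_lt_mk_iff_right.2 hab)
    exact (hb (a, b) hab.le).1 (Prod.mk_lt_mk_iff_left.2 hab) h1
  exact le_antisymm (not_lt.1 (key e d he hd)) (not_lt.1 (key d e hd he))

theorem exists_tog (hn : 1 ≤ n) {I : Finset (Fin n × Fin n)}
    (hI : Up (fun x y : Fin n × Fin n => x ≤ y) (Finset.univ.filter fun x => x.1 ≤ x.2) I) :
    ∃ d, Tog I d := by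
  classical
  obtain ⟨m, rfl⟩ : ∃ m, n = m + 1 := ⟨n - 1, by omega⟩
  have hup : ∀ x ∈ I, ∀ y : Fin (m + 1) × Fin (m + 1), y.1 ≤ y.2 → x ≤ y → y ∈ I := by
    intro x hx y hy hxy
    exact hI.2 x hx y (by simpa using hy) hxy
  have hP : ∀ x ∈ I, x.1 ≤ x.2 := fun x hx => by simpa using hI.1 hx
  set D : Finset (Fin (m + 1)) := univ.filter fun d =>
    ∀ y : Fin (m + 1) × Fin (m + 1), y.1 ≤ y.2 → (d, d) < y → y ∈ I with hD
  have hDmem : ∀ d, d ∈ D ↔ ∀ y : Fin (m + 1) × Fin (m + 1), y.1 ≤ y.2 → (d, d) < y → y ∈ I := by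
    intro d; simp [hD]
  have hne : D.Nonempty := by
    refine ⟨Fin.last m, (hDmem _).2 fun y _ h => ?_⟩
    exfalso
    exact absurd h (not_lt_of_ge (Prod.mk_le_mk.2 ⟨Fin.le_last _, Fin.le_last _⟩))
  obtain ⟨d, hd, hmin⟩ := Finset.exists_min_image D id hne
  refine ⟨d, fun y hy => ⟨fun hlt hyI => ?_, fun h => (hDmem d).1 hd y hy h⟩⟩
  obtain ⟨a, b⟩ := y
  simp only at hy
  have hle := hlt.le
  rw [Prod.mk_le_mk] at hle
  have had : a < d := by
    rcases lt_or_eq_of_le hle.1 with h | h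
    · exact h
    · exfalso
      have : b = d := le_antisymm hle.2 (h ▸ hy)
      rw [h, this] at hlt
      exact lt_irrefl _ hlt
  -- the predecessor of `d`
  have hd0 : 0 < (d : ℕ) := lt_of_le_of_lt (Nat.zero_le _) (Fin.lt_def.1 had)
  set e : Fin (m + 1) := ⟨(d : ℕ) - 1, by omega⟩ with he
  have hed : e < d := Fin.lt_def.2 (by simp only [he]; omega)
  have hae : a ≤ e := Fin.le_def.2 (by have := Fin.lt_def.1 had; simp only [he]; omega)
  have hedI : (e, d) ∈ I := hup (a, b) hyI (e, d) hed.le (Prod.mk_le_mk.2 ⟨hae, hle.2⟩)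
  have heD : e ∈ D := by
    refine (hDmem e).2 fun z hz hez => ?_
    obtain ⟨a', b'⟩ := z
    simp only at hz
    have hle' := hez.le
    rw [Prod.mk_le_mk] at hle'
    refine hup (e, d) hedI (a', b') hz (Prod.mk_le_mk.2 ⟨hle'.1, ?_⟩)
    by_contra hcon
    rw [not_le] at hcon
    have h1 : b' ≤ e := Fin.le_def.2 (by have := Fin.lt_def.1 hcon; simp only [he]; omega)
    have h2 : b' = e := le_antisymm h1 hle'.2
    have h3 : a' = e := le_antisymm (hz.trans h1) hle'.1
    rw [h2, h3] at hez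
    exact lt_irrefl _ hez
  exact absurd (hmin e heD) (not_le_of_gt hed)

/-- toggle `(d, d)` -/
def tg (I : Finset (Fin n × Fin n)) (d : Fin n) : Finset (Fin n × Fin n) :=
  if (d, d) ∈ I then I.erase (d, d) else insert (d, d) I

theorem mem_tg_of_ne {I : Finset (Fin n × Fin n)} {d : Fin n} {y : Fin n × Fin n}
    (hy : y ≠ (d, d)) : y ∈ tg I d ↔ y ∈ I := by
  unfold tg
  split_ifs <;> simp [hy]

theorem mem_tg_self {I : Finset (Fin n × Fin n)} {d : Fin n} :
    (d, d) ∈ tg I d ↔ (d, d) ∉ I := by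
  unfold tg
  split_ifs with h <;> simp [h]

theorem tg_tg (I : Finset (Fin n × Fin n)) (d : Fin n) : tg (tg I d) d = I := by
  ext y
  by_cases hy : y = (d, d)
  · subst hy
    rw [mem_tg_self, mem_tg_self, not_not]
  · rw [mem_tg_of_ne hy, mem_tg_of_ne hy]

theorem tg_tog {I : Finset (Fin n × Fin n)} {d : Fin n} (h : Tog I d) : Tog (tg I d) d := by
  intro y hy
  refine ⟨fun h1 h2 => ?_, fun h1 => ?_⟩
  · rw [mem_tg_of_ne h1.ne] at h2
    exact (h y hy).1 h1 h2
  · rw [mem_tg_of_ne h1.ne']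
    exact (h y hy).2 h1

theorem tg_up {I : Finset (Fin n × Fin n)} {d : Fin n} (h : Tog I d)
    (hI : Up (fun x y : Fin n × Fin n => x ≤ y) (Finset.univ.filter fun x => x.1 ≤ x.2) I) :
    Up (fun x y : Fin n × Fin n => x ≤ y) (Finset.univ.filter fun x => x.1 ≤ x.2) (tg I d) := by
  refine ⟨fun x hx => ?_, fun x hx y hy hxy => ?_⟩
  · by_cases hxd : x = (d, d)
    · subst hxd; simp
    · exact hI.1 ((mem_tg_of_ne hxd).1 hx)
  · have hy' : y.1 ≤ y.2 := by simpa using hy
    by_cases hyd : y = (d, d)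
    · subst hyd
      by_cases hxd : x = (d, d)
      · rw [← hxd]; exact hx
      · exfalso
        have hxI := (mem_tg_of_ne hxd).1 hx
        have hxP : x.1 ≤ x.2 := by simpa using hI.1 hxI
        exact (h x hxP).1 (lt_of_le_of_ne hxy hxd) hxI
    · rw [mem_tg_of_ne hyd]
      by_cases hxd : x = (d, d)
      · subst hxd
        exact (h y hy').2 (lt_of_le_of_ne hxy (Ne.symm hyd))
      · exact hI.2 x ((mem_tg_of_ne hxd).1 hx) y hy hxy

theorem tg_sign (I : Finset (Fin n × Fin n)) (d : Fin n) :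
    (-1 : ℤ) ^ I.card + (-1 : ℤ) ^ (tg I d).card = 0 := by
  unfold tg
  split_ifs with h
  · have h1 : I.card = (I.erase (d, d)).card + 1 := (Finset.card_erase_add_one h).symm
    rw [h1, pow_succ]
    ring
  · rw [Finset.card_insert_of_notMem h, pow_succ]
    ring

end Stair

/-- TARGET -/
theorem stair (n : ℕ) (hn : 1 ≤ n) :
    chi (fun x y : Fin n × Fin n => x ≤ y) (Finset.univ.filter fun x => x.1 ≤ x.2) = 0 := by
  classical
  unfold chi
  have hmem : ∀ I, I ∈ ups (fun x y : Fin n × Fin n => x ≤ y)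
      (Finset.univ.filter fun x => x.1 ≤ x.2) ↔
      Up (fun x y : Fin n × Fin n => x ≤ y) (Finset.univ.filter fun x => x.1 ≤ x.2) I := by
    intro I
    unfold ups
    rw [Finset.mem_filter, Finset.mem_powerset]
    exact ⟨fun h => h.2, fun h => ⟨h.1, h⟩⟩
  refine Finset.sum_involution
    (fun I hI => Stair.tg I (Stair.exists_tog hn ((hmem I).1 hI)).choose) ?_ ?_ ?_ ?_
  · intro I hI
    exact Stair.tg_sign I _
  · intro I hI _ heq
    have h := Stair.mem_tg_self (I := I) (d := (Stair.exists_tog hn ((hmem I).1 hI)).choose)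
    rw [heq] at h
    tauto
  · intro I hI
    exact (hmem _).2 (Stair.tg_up (Stair.exists_tog hn ((hmem I).1 hI)).choose_spec
      ((hmem I).1 hI))
  · intro I hI
    have hspec := (Stair.exists_tog hn ((hmem I).1 hI)).choose_spec
    set d := (Stair.exists_tog hn ((hmem I).1 hI)).choose with hd
    have hI' : Stair.tg I d ∈ ups (fun x y : Fin n × Fin n => x ≤ y)
        (Finset.univ.filter fun x => x.1 ≤ x.2) :=
      (hmem _).2 (Stair.tg_up hspec ((hmem I).1 hI))
    have hspec' := (Stair.exists_tog hn ((hmem _).1 hI')).choose_spec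
    have he : (Stair.exists_tog hn ((hmem _).1 hI')).choose = d :=
      Stair.Tog.unique hspec' (Stair.tg_tog hspec)
    show Stair.tg (Stair.tg I d) (Stair.exists_tog hn ((hmem _).1 hI')).choose = I
    rw [he, Stair.tg_tg]

end Pool.Agent.Helper282_TM
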