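import Pool.Agent.Helper282_TM.Gen
import Pool.Agent.Helper282_TM.Stair

/-!
# The three kinds of components in the classical types (MP_1283eb_co)
-/

set_option autoImplicit false

namespace Pool.Agent.Helper282_TM

open Finset

/-- A decreasing self-map of an interval is the reflection. -/
theorem rev_of_antitone {a k : ℕ} {π : ℕ → ℕ}
    (h1 : ∀ x, a ≤ x → x ≤ k → a ≤ π x ∧ π x ≤ k)
    (h2 : ∀ x x', a ≤ x → x < x' → x' ≤ k → π x' < π x) {x : ℕ} (hx : a ≤ x) (hx' : x ≤ k) :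
    π x = a + k - x := by
  have c1 : ∀ j, a + j ≤ k → π (a + j) + j ≤ k := by
    intro j
    induction j with
    | zero => intro h; exact (h1 a le_rfl h).2
    | succ j ih =>
      intro h
      have := h2 (a + j) (a + (j + 1)) (by omega) (by omega) h
      have := ih (by omega)
      omega
  have c2 : ∀ j, a + j ≤ k → a + j ≤ π (k - j) := by
    intro j
    induction j with
    | zero => intro h; exact (h1 k h le_rfl).1
    | succ j ih =>
      intro h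
      have := h2 (k - (j + 1)) (k - j) (by omega) (by omega) (by omega)
      have := ih (by omega)
      omega
  have d1 := c1 (x - a) (by omega)
  have d2 := c2 (k - x) (by omega)
  rw [show a + (x - a) = x by omega] at d1
  rw [show k - (k - x) = x by omega] at d2
  omega

section

variable {n : ℕ} {A : Matrix (Fin n) (Fin n) ℤ}

theorem PS_antitone {S : Set (Fin n)} {a : Fin n} {w : (Fin n → ℤ) → (Fin n → ℤ)}
    (hw : Longest A S w) {x y : Fin n → ℤ} (hx : x ∈ PS A S a) (hy : y ∈ PS A S a) (hxy : x ≤ y) :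
    w y ≤ w x := by
  refine hw.antitone hxy fun i hi => ?_
  by_cases hia : i = a
  · rw [hia, hx.2.1, hy.2.1]
  · rw [hx.2.2 i hi hia, hy.2.2 i hi hia]

/-- A product of two chains. -/
theorem boxCase (hbox : ∀ p q : ℕ, Good (fun x y : Fin p × Fin q => x ≤ y) Finset.univ
      (fun x => (Fin.rev x.1, Fin.rev x.2)))
    {S : Set (Fin n)} {a : Fin n} (V : ℕ → ℕ → Fin n → ℤ)
    (xa xb ya yb : ℕ) (hx : xa ≤ xb) (hy : ya ≤ yb)
    (hP : ∀ v, v ∈ PS A S a ↔ ∃ x y, xa ≤ x ∧ x ≤ xb ∧ ya ≤ y ∧ y ≤ yb ∧ v = V x y)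
    (hle : ∀ x y x' y', xa ≤ x → x ≤ xb → ya ≤ y → y ≤ yb → xa ≤ x' → x' ≤ xb → ya ≤ y' →
      y' ≤ yb → (V x y ≤ V x' y' ↔ x' ≤ x ∧ y ≤ y'))
    (hstep : ∀ i ∈ S, ∃ π : ℕ → ℕ, (∀ x, xa ≤ x → x ≤ xb → xa ≤ π x ∧ π x ≤ xb) ∧
      (∀ y, ya ≤ y → y ≤ yb → ya ≤ π y ∧ π y ≤ yb) ∧
      ∀ x y, xa ≤ x → x ≤ xb → ya ≤ y → y ≤ yb → refl A i (V x y) = V (π x) (π y))
    (w : (Fin n → ℤ) → (Fin n → ℤ)) (hw : Longest A S w) (P : Finset (Fin n → ℤ))
    (hPP : ∀ v, v ∈ P ↔ v ∈ PS A S a) (hd : ∀ i, A i i = 2) : Good (fun x y => x ≤ y) P w := by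
  have hinj : ∀ x y x' y', xa ≤ x → x ≤ xb → ya ≤ y → y ≤ yb → xa ≤ x' → x' ≤ xb → ya ≤ y' →
      y' ≤ yb → V x y = V x' y' → x = x' ∧ y = y' := by
    intro x y x' y' h1 h2 h3 h4 h5 h6 h7 h8 h
    have e1 := (hle x y x' y' h1 h2 h3 h4 h5 h6 h7 h8).mp h.le
    have e2 := (hle x' y' x y h5 h6 h7 h8 h1 h2 h3 h4).mp h.ge
    omega
  -- the action of a word
  have hact : ∀ u : List (Fin n), (∀ i ∈ u, i ∈ S) → ∃ π ρ : ℕ → ℕ,
      (∀ x, xa ≤ x → x ≤ xb → xa ≤ π x ∧ π x ≤ xb) ∧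
      (∀ y, ya ≤ y → y ≤ yb → ya ≤ ρ y ∧ ρ y ≤ yb) ∧
      ∀ x y, xa ≤ x → x ≤ xb → ya ≤ y → y ≤ yb → act A u (V x y) = V (π x) (ρ y) := by
    intro u
    induction u with
    | nil =>
      intro _
      exact ⟨id, id, fun x h1 h2 => ⟨h1, h2⟩, fun y h1 h2 => ⟨h1, h2⟩, fun x y _ _ _ _ => rfl⟩
    | cons i u ih =>
      intro hu
      obtain ⟨π, ρ, h1, h2, h3⟩ := ih fun j hj => hu j (List.mem_cons_of_mem _ hj)
      obtain ⟨σ, g1, g2, g3⟩ := hstep i (hu i List.mem_cons_self)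
      refine ⟨σ ∘ π, σ ∘ ρ, fun x hx1 hx2 => ?_, fun y hy1 hy2 => ?_, fun x y hx1 hx2 hy1 hy2 => ?_⟩
      · exact g1 _ (h1 x hx1 hx2).1 (h1 x hx1 hx2).2
      · exact g2 _ (h2 y hy1 hy2).1 (h2 y hy1 hy2).2
      · rw [act_cons, h3 x y hx1 hx2 hy1 hy2]
        exact g3 _ _ (h1 x hx1 hx2).1 (h1 x hx1 hx2).2 (h2 y hy1 hy2).1 (h2 y hy1 hy2).2
  obtain ⟨⟨u, hu, hwu⟩, _⟩ := id hw
  obtain ⟨π, ρ, h1, h2, h3⟩ := hact u hu
  have hV : ∀ x y, xa ≤ x → x ≤ xb → ya ≤ y → y ≤ yb → V x y ∈ PS A S a := fun x y a1 a2 a3 a4 =>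
    (hP _).mpr ⟨x, y, a1, a2, a3, a4, rfl⟩
  have hact' : ∀ x y, xa ≤ x → x ≤ xb → ya ≤ y → y ≤ yb → w (V x y) = V (π x) (ρ y) := by
    intro x y a1 a2 a3 a4
    rw [hwu]; exact h3 x y a1 a2 a3 a4
  have hinjw : Function.Injective w := InW.injective hd hw.1
  have hπ : ∀ x, xa ≤ x → x ≤ xb → π x = xa + xb - x := by
    intro x b1 b2
    refine rev_of_antitone h1 ?_ b1 b2
    intro x x' a1 a2 a3
    have hle1 : V x' ya ≤ V x ya := (hle _ _ _ _ (by omega) a3 le_rfl hy a1 (by omega) le_rfl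
      hy).mpr ⟨by omega, le_rfl⟩
    have hle2 := PS_antitone hw (hV _ _ (by omega) a3 le_rfl hy) (hV _ _ a1 (by omega) le_rfl hy)
      hle1
    rw [hact' _ _ (by omega) a3 le_rfl hy, hact' _ _ a1 (by omega) le_rfl hy] at hle2
    have p1 := h1 x a1 (by omega)
    have p2 := h1 x' (by omega) a3
    have q1 := h2 ya le_rfl hy
    have := (hle _ _ _ _ p1.1 p1.2 q1.1 q1.2 p2.1 p2.2 q1.1 q1.2).mp hle2
    rcases Nat.lt_or_ge (π x') (π x) with h | h
    · exact h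
    · exfalso
      have he : π x = π x' := le_antisymm h this.1
      have : w (V x ya) = w (V x' ya) := by
        rw [hact' _ _ (by omega) a3 le_rfl hy, hact' _ _ a1 (by omega) le_rfl hy, he]
      have := hinj _ _ _ _ a1 (by omega) le_rfl hy (by omega) a3 le_rfl hy (hinjw this)
      omega
  have hρ : ∀ y, ya ≤ y → y ≤ yb → ρ y = ya + yb - y := by
    intro y b1 b2
    refine rev_of_antitone h2 ?_ b1 b2
    intro y y' a1 a2 a3
    have hle1 : V xa y ≤ V xa y' := (hle _ _ _ _ le_rfl hx a1 (by omega) le_rfl hx (by omega)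
      a3).mpr ⟨le_rfl, by omega⟩
    have hle2 := PS_antitone hw (hV _ _ le_rfl hx a1 (by omega)) (hV _ _ le_rfl hx (by omega) a3)
      hle1
    rw [hact' _ _ le_rfl hx a1 (by omega), hact' _ _ le_rfl hx (by omega) a3] at hle2
    have p1 := h2 y a1 (by omega)
    have p2 := h2 y' (by omega) a3
    have q1 := h1 xa le_rfl hx
    have := (hle _ _ _ _ q1.1 q1.2 p2.1 p2.2 q1.1 q1.2 p1.1 p1.2).mp hle2
    rcases Nat.lt_or_ge (ρ y') (ρ y) with h | h
    · exact h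
    · exfalso
      have he : ρ y = ρ y' := le_antisymm h this.2
      have : w (V xa y) = w (V xa y') := by
        rw [hact' _ _ le_rfl hx a1 (by omega), hact' _ _ le_rfl hx (by omega) a3, he]
      have := hinj _ _ _ _ le_rfl hx a1 (by omega) le_rfl hx (by omega) a3 (hinjw this)
      omega
  refine (hbox (xb - xa + 1) (yb - ya + 1)).transfer
    (fun z => V (xb - (z.1 : ℕ)) (ya + (z.2 : ℕ))) ?_ ?_ ?_ ?_ ?_
  · ext v
    rw [hPP, hP, Finset.mem_image]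
    constructor
    · rintro ⟨x, y, a1, a2, a3, a4, rfl⟩
      refine ⟨(⟨xb - x, by omega⟩, ⟨y - ya, by omega⟩), Finset.mem_univ _, ?_⟩
      simp only
      congr 1 <;> omega
    · rintro ⟨⟨i, j⟩, _, rfl⟩
      have hi := i.isLt
      have hj := j.isLt
      exact ⟨xb - i, ya + j, by omega, by omega, by omega, by omega, rfl⟩
  · rintro ⟨i, j⟩ _ ⟨i', j'⟩ _ h
    have hi := i.isLt
    have hj := j.isLt
    have hi' := i'.isLt
    have hj' := j'.isLt
    dsimp only at h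
    have := hinj _ _ _ _ (by omega) (by omega) (by omega) (by omega) (by omega) (by omega)
      (by omega) (by omega) h
    rw [Prod.mk.injEq, Fin.ext_iff, Fin.ext_iff]
    omega
  · rintro ⟨i, j⟩ _ ⟨i', j'⟩ _
    have hi := i.isLt
    have hj := j.isLt
    have hi' := i'.isLt
    have hj' := j'.isLt
    simp only
    rw [hle _ _ _ _ (by omega) (by omega) (by omega) (by omega) (by omega) (by omega)
      (by omega) (by omega), Prod.mk_le_mk, Fin.le_def, Fin.le_def]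
    omega
  · intro _ _
    exact Finset.mem_univ _
  · rintro ⟨i, j⟩ _
    have hi := i.isLt
    have hj := j.isLt
    simp only
    rw [hact' _ _ (by omega) (by omega) (by omega) (by omega), hπ _ (by omega) (by omega),
      hρ _ (by omega) (by omega), Fin.val_rev, Fin.val_rev]
    congr 1 <;> omega

/-- The model staircase is good. -/
theorem stair_good (q : ℕ) (hq : 1 ≤ q) :
    Good (fun x y : Fin q × Fin q => x ≤ y) (Finset.univ.filter fun x => x.1 ≤ x.2)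
      (fun x => (Fin.rev x.2, Fin.rev x.1)) := by
  unfold Good
  rw [stair q hq, sd_eq_zero (x := ((⟨0, by omega⟩, ⟨q - 1, by omega⟩) : Fin q × Fin q))]
  · rfl
  · rw [Finset.mem_filter]
    exact ⟨Finset.mem_univ _, by simp [Fin.le_def]⟩
  · refine Prod.ext (Fin.ext ?_) (Fin.ext ?_)
    · change q - (q - 1 + 1) = 0
      omega
    · change q - (0 + 1) = q - 1
      omega
  · rintro ⟨i, j⟩ _ h
    rw [Prod.mk.injEq, Fin.ext_iff, Fin.ext_iff, Fin.val_rev, Fin.val_rev] at h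
    rw [Prod.mk.injEq, Fin.ext_iff, Fin.ext_iff]
    have hi := i.isLt
    have hj := j.isLt
    simp only at h ⊢
    omega

/-- A staircase, with the diagonal (`δ = 0`) or without it (`δ = 1`). -/
theorem stairCase {S : Set (Fin n)} {a : Fin n} (ha : a ∉ S) (V : ℕ → ℕ → Fin n → ℤ)
    (δ z0 z1 : ℕ) (hδ : δ ≤ 1) (hz : z0 + δ ≤ z1)
    (hP : ∀ v, v ∈ PS A S a ↔ ∃ x y, z0 ≤ x ∧ x + δ ≤ y ∧ y ≤ z1 ∧ v = V x y)
    (hsymm : ∀ x y, z0 ≤ x → x ≤ z1 → z0 ≤ y → y ≤ z1 → V x y = V y x)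
    (hle : ∀ x y x' y', z0 ≤ x → x + δ ≤ y → y ≤ z1 → z0 ≤ x' → x' + δ ≤ y' → y' ≤ z1 →
      (V x y ≤ V x' y' ↔ x' ≤ x ∧ y' ≤ y))
    (hstep : ∀ i ∈ S, ∃ π : ℕ → ℕ, (∀ x, z0 ≤ x → x ≤ z1 → z0 ≤ π x ∧ π x ≤ z1) ∧
      (∀ x y, z0 ≤ x → x < y → y ≤ z1 → π x ≠ π y) ∧
      ∀ x y, z0 ≤ x → x + δ ≤ y → y ≤ z1 → refl A i (V x y) = V (π x) (π y))
    (w : (Fin n → ℤ) → (Fin n → ℤ)) (hw : Longest A S w) (P : Finset (Fin n → ℤ))
    (hPP : ∀ v, v ∈ P ↔ v ∈ PS A S a) : Good (fun x y => x ≤ y) P w := by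
  have hV : ∀ x y, z0 ≤ x → x + δ ≤ y → y ≤ z1 → V x y ∈ PS A S a := fun x y a1 a2 a3 =>
    (hP _).mpr ⟨x, y, a1, a2, a3, rfl⟩
  have hV' : ∀ x y, z0 ≤ x → x ≤ z1 → z0 ≤ y → y ≤ z1 → (δ = 0 ∨ x ≠ y) → V x y ∈ PS A S a := by
    intro x y a1 a2 a3 a4 a5
    rcases Nat.lt_or_ge y x with h | h
    · rw [hsymm x y a1 a2 a3 a4]
      exact hV y x a3 (by omega) a2
    · exact hV x y a1 (by omega) a4
  have hinj : ∀ x y x' y', z0 ≤ x → x + δ ≤ y → y ≤ z1 → z0 ≤ x' → x' + δ ≤ y' → y' ≤ z1 →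
      V x y = V x' y' → x = x' ∧ y = y' := by
    intro x y x' y' h1 h2 h3 h4 h5 h6 h
    have e1 := (hle x y x' y' h1 h2 h3 h4 h5 h6).mp h.le
    have e2 := (hle x' y' x y h4 h5 h6 h1 h2 h3).mp h.ge
    omega
  -- comparison with a common letter
  have hle' : ∀ b c d, z0 ≤ b → b ≤ z1 → z0 ≤ c → c ≤ z1 → z0 ≤ d → d ≤ z1 → (δ = 0 ∨ b ≠ d) →
      (δ = 0 ∨ c ≠ d) → (V b d ≤ V c d ↔ c ≤ b) := by
    intro b c d b1 b2 c1 c2 d1 d2 h1 h2
    rcases Nat.lt_or_ge d b with h3 | h3 <;> rcases Nat.lt_or_ge d c with h4 | h4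
    · rw [hsymm b d b1 b2 d1 d2, hsymm c d c1 c2 d1 d2,
        hle _ _ _ _ d1 (by omega) b2 d1 (by omega) c2]
      omega
    · rw [hsymm b d b1 b2 d1 d2, hle _ _ _ _ d1 (by omega) b2 c1 (by omega) d2]
      omega
    · rw [hsymm c d c1 c2 d1 d2, hle _ _ _ _ b1 (by omega) d2 d1 (by omega) c2]
      omega
    · rw [hle _ _ _ _ b1 (by omega) d2 c1 (by omega) d2]
      omega
  have hact : ∀ u : List (Fin n), (∀ i ∈ u, i ∈ S) → ∃ π : ℕ → ℕ,
      (∀ x, z0 ≤ x → x ≤ z1 → z0 ≤ π x ∧ π x ≤ z1) ∧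
      (∀ x y, z0 ≤ x → x < y → y ≤ z1 → π x ≠ π y) ∧
      ∀ x y, z0 ≤ x → x ≤ z1 → z0 ≤ y → y ≤ z1 → (δ = 0 ∨ x ≠ y) →
        act A u (V x y) = V (π x) (π y) := by
    intro u
    induction u with
    | nil =>
      intro _
      exact ⟨id, fun x h1 h2 => ⟨h1, h2⟩, fun x y _ h _ => h.ne, fun x y _ _ _ _ _ => rfl⟩
    | cons i u ih =>
      intro hu
      obtain ⟨π, h1, h2, h3⟩ := ih fun j hj => hu j (List.mem_cons_of_mem _ hj)
      obtain ⟨σ, g1, g2, g3⟩ := hstep i (hu i List.mem_cons_self)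
      have g3' : ∀ x y, z0 ≤ x → x ≤ z1 → z0 ≤ y → y ≤ z1 → (δ = 0 ∨ x ≠ y) →
          refl A i (V x y) = V (σ x) (σ y) := by
        intro x y a1 a2 a3 a4 a5
        rcases Nat.lt_or_ge y x with h | h
        · rw [hsymm x y a1 a2 a3 a4, g3 y x a3 (by omega) a2,
            hsymm _ _ (g1 y a3 a4).1 (g1 y a3 a4).2 (g1 x a1 a2).1 (g1 x a1 a2).2]
        · exact g3 x y a1 (by omega) a4
      have h2' : ∀ x y, z0 ≤ x → x ≤ z1 → z0 ≤ y → y ≤ z1 → x ≠ y → π x ≠ π y := by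
        intro x y a1 a2 a3 a4 a5
        rcases Nat.lt_or_ge y x with h | h
        · exact (h2 y x a3 h a2).symm
        · exact h2 x y a1 (lt_of_le_of_ne h a5) a4
      have g2' : ∀ x y, z0 ≤ x → x ≤ z1 → z0 ≤ y → y ≤ z1 → x ≠ y → σ x ≠ σ y := by
        intro x y a1 a2 a3 a4 a5
        rcases Nat.lt_or_ge y x with h | h
        · exact (g2 y x a3 h a2).symm
        · exact g2 x y a1 (lt_of_le_of_ne h a5) a4
      refine ⟨σ ∘ π, fun x hx1 hx2 => ?_, fun x y hx1 hxy hy => ?_,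
        fun x y hx1 hx2 hy1 hy2 hxy => ?_⟩
      · exact g1 _ (h1 x hx1 hx2).1 (h1 x hx1 hx2).2
      · exact g2' _ _ (h1 x hx1 (by omega)).1 (h1 x hx1 (by omega)).2 (h1 y (by omega) hy).1
          (h1 y (by omega) hy).2 (h2 x y hx1 hxy hy)
      · rw [act_cons, h3 x y hx1 hx2 hy1 hy2 hxy]
        refine g3' _ _ (h1 x hx1 hx2).1 (h1 x hx1 hx2).2 (h1 y hy1 hy2).1 (h1 y hy1 hy2).2 ?_
        rcases hxy with h | h
        · exact Or.inl h
        · exact Or.inr (h2' x y hx1 hx2 hy1 hy2 h)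
  obtain ⟨⟨u, hu, hwu⟩, _⟩ := id hw
  obtain ⟨π, h1, h2, h3⟩ := hact u hu
  have h2' : ∀ x y, z0 ≤ x → x ≤ z1 → z0 ≤ y → y ≤ z1 → x ≠ y → π x ≠ π y := by
    intro x y a1 a2 a3 a4 a5
    rcases Nat.lt_or_ge y x with h | h
    · exact (h2 y x a3 h a2).symm
    · exact h2 x y a1 (lt_of_le_of_ne h a5) a4
  have hact' : ∀ x y, z0 ≤ x → x ≤ z1 → z0 ≤ y → y ≤ z1 → (δ = 0 ∨ x ≠ y) →
      w (V x y) = V (π x) (π y) := by
    rw [hwu]; exact h3
  have hπ : ¬ (δ = 1 ∧ z1 = z0 + 1) → ∀ x, z0 ≤ x → x ≤ z1 → π x = z0 + z1 - x := by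
    intro hcase x b1 b2
    refine rev_of_antitone h1 ?_ b1 b2
    intro x x' a1 a2 a3
    obtain ⟨d, d1, d2, d3, d4⟩ : ∃ d, z0 ≤ d ∧ d ≤ z1 ∧ (δ = 0 ∨ x ≠ d) ∧ (δ = 0 ∨ x' ≠ d) := by
      by_cases e1 : δ = 0
      · exact ⟨x, a1, by omega, Or.inl e1, Or.inl e1⟩
      · by_cases e2 : x = z0
        · by_cases e3 : x' = z1
          · exact ⟨z0 + 1, by omega, by omega, Or.inr (by omega), Or.inr (by omega)⟩
          · exact ⟨z1, by omega, by omega, Or.inr (by omega), Or.inr (by omega)⟩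
        · exact ⟨z0, by omega, by omega, Or.inr (by omega), Or.inr (by omega)⟩
    have hl1 : V x' d ≤ V x d := (hle' _ _ _ (by omega) a3 a1 (by omega) d1 d2 d4 d3).mpr (by omega)
    have hl2 := PS_antitone hw (hV' _ _ (by omega) a3 d1 d2 d4) (hV' _ _ a1 (by omega) d1 d2 d3) hl1
    rw [hact' _ _ (by omega) a3 d1 d2 d4, hact' _ _ a1 (by omega) d1 d2 d3] at hl2
    have p1 := h1 x a1 (by omega)
    have p2 := h1 x' (by omega) a3
    have q1 := h1 d d1 d2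
    have r1 : δ = 0 ∨ π x ≠ π d := d3.imp id fun h => h2' _ _ a1 (by omega) d1 d2 h
    have r2 : δ = 0 ∨ π x' ≠ π d := d4.imp id fun h => h2' _ _ (by omega) a3 d1 d2 h
    have hl3 := (hle' _ _ _ p1.1 p1.2 p2.1 p2.2 q1.1 q1.2 r1 r2).mp hl2
    have := h2 x x' a1 a2 a3
    omega
  -- the action on the poset
  have hmain : ∀ i j, i + δ + z0 ≤ z1 → j + δ + z0 ≤ z1 → i ≤ j →
      w (V (z1 - δ - j) (z1 - i)) = V (z0 + i) (z0 + δ + j) := by
    intro i j hi hj hij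
    by_cases hcase : δ = 1 ∧ z1 = z0 + 1
    · have hm := InW.mem_PS hw.1 ha (hV (z1 - δ - j) (z1 - i) (by omega) (by omega) (by omega))
      rw [hP] at hm
      obtain ⟨x, y, c1, c2, c3, c4⟩ := hm
      rw [c4]
      congr 1 <;> omega
    · rw [hact' _ _ (by omega) (by omega) (by omega) (by omega) (by omega),
        hπ hcase _ (by omega) (by omega), hπ hcase _ (by omega) (by omega),
        hsymm _ _ (by omega) (by omega) (by omega) (by omega)]
      congr 1 <;> omega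
  refine (stair_good (z1 - z0 - δ + 1) (by omega)).transfer
    (fun z => V (z1 - δ - (z.2 : ℕ)) (z1 - (z.1 : ℕ))) ?_ ?_ ?_ ?_ ?_
  · ext v
    rw [hPP, hP, Finset.mem_image]
    constructor
    · rintro ⟨x, y, a1, a2, a3, rfl⟩
      refine ⟨(⟨z1 - y, by omega⟩, ⟨z1 - δ - x, by omega⟩), ?_, ?_⟩
      · rw [Finset.mem_filter, Fin.le_def]
        refine ⟨Finset.mem_univ _, ?_⟩
        simp only
        omega
      · simp only
        congr 1 <;> omega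
    · rintro ⟨⟨i, j⟩, hij, rfl⟩
      rw [Finset.mem_filter, Fin.le_def] at hij
      have hi := i.isLt
      have hj := j.isLt
      simp only at hij
      exact ⟨z1 - δ - j, z1 - i, by omega, by omega, by omega, rfl⟩
  · rintro ⟨i, j⟩ hij ⟨i', j'⟩ hij' h
    rw [Finset.mem_filter, Fin.le_def] at hij hij'
    have hi := i.isLt
    have hj := j.isLt
    have hi' := i'.isLt
    have hj' := j'.isLt
    dsimp only at h hij hij'
    have := hinj _ _ _ _ (by omega) (by omega) (by omega) (by omega) (by omega) (by omega) h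
    rw [Prod.mk.injEq, Fin.ext_iff, Fin.ext_iff]
    omega
  · rintro ⟨i, j⟩ hij ⟨i', j'⟩ hij'
    rw [Finset.mem_filter, Fin.le_def] at hij hij'
    have hi := i.isLt
    have hj := j.isLt
    have hi' := i'.isLt
    have hj' := j'.isLt
    simp only at hij hij' ⊢
    rw [hle _ _ _ _ (by omega) (by omega) (by omega) (by omega) (by omega) (by omega),
      Prod.mk_le_mk, Fin.le_def, Fin.le_def]
    omega
  · rintro ⟨i, j⟩ hij
    rw [Finset.mem_filter, Fin.le_def] at hij ⊢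
    refine ⟨Finset.mem_univ _, ?_⟩
    simp only [Fin.val_rev] at hij ⊢
    omega
  · rintro ⟨i, j⟩ hij
    rw [Finset.mem_filter, Fin.le_def] at hij
    have hi := i.isLt
    have hj := j.isLt
    simp only [Fin.val_rev] at hij ⊢
    rw [hmain _ _ (by omega) (by omega) hij.2]
    congr 1 <;> omega

end

end Pool.Agent.Helper282_TM
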