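import Pool.Agent.Helper282_TM.Poset

/-!
# Counting upper ideals by a recursion on bit masks (MP_1283eb_co)
-/

set_option autoImplicit false

namespace Pool.Agent.Helper282_TM

open Finset

/-- the number whose binary digits are the elements of `s` -/
def bs (s : Finset ℕ) : ℕ := ∑ i ∈ s, 2 ^ i

theorem testBit_bs (s : Finset ℕ) (j : ℕ) : (bs s).testBit j = true ↔ j ∈ s := by
  have h := Finset.toFinset_bitIndices_sum_two_pow s
  rw [← Nat.mem_bitIndices]
  unfold bs
  constructor
  · intro hj
    rw [← h]
    exact List.mem_toFinset.mpr hj
  · intro hj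
    rw [← h] at hj
    exact List.mem_toFinset.mp hj

theorem bs_inj {s t : Finset ℕ} (h : bs s = bs t) : s = t := by
  ext j
  rw [← testBit_bs, ← testBit_bs, h]

theorem land_bs (s t : Finset ℕ) : Nat.land (bs s) (bs t) = bs s ↔ s ⊆ t := by
  constructor
  · intro h j hj
    rw [← testBit_bs] at hj ⊢
    rw [← h] at hj
    have h1 : (bs s &&& bs t).testBit j = true := hj
    rw [Nat.testBit_and, Bool.and_eq_true] at h1
    exact h1.2
  · intro h
    change bs s &&& bs t = bs s
    apply Nat.eq_of_testBit_eq
    intro j
    rw [Nat.testBit_and]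
    by_cases hj : (bs s).testBit j = true
    · have := (testBit_bs t j).mpr (h ((testBit_bs s j).mp hj))
      rw [hj, this]; rfl
    · rw [Bool.not_eq_true] at hj
      rw [hj]; rfl

/-- The recursion. The entries of the list are (the elements above, the bit, the bit of the
image). -/
noncomputable def T (B full : ℕ) (l : List (ℕ × ℕ × ℕ)) : ℕ → ℕ → Bool → ℕ :=
  List.rec (fun mask dual par => Nat.add (cond par 1 B) (cond (Nat.beq (Nat.add mask dual) full) 1 0))
    (fun hd _ ih mask dual par => Nat.add (ih mask dual par)
      (cond (Nat.beq (Nat.land hd.1 mask) hd.1)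
        (ih (Nat.add mask hd.2.1) (Nat.add dual hd.2.2) (not par)) 0)) l

theorem T_nil (B full mask dual : ℕ) (par : Bool) :
    T B full [] mask dual par = (cond par 1 B) + (cond (Nat.beq (mask + dual) full) 1 0) := rfl

theorem T_cons (B full mask dual : ℕ) (par : Bool) (hd : ℕ × ℕ × ℕ) (l : List (ℕ × ℕ × ℕ)) :
    T B full (hd :: l) mask dual par = T B full l mask dual par +
      (cond (Nat.beq (Nat.land hd.1 mask) hd.1)
        (T B full l (mask + hd.2.1) (dual + hd.2.2) (not par)) 0) := rfl

section

variable (B full m : ℕ) (up : ℕ → Finset ℕ) (σ : ℕ → ℕ)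

/-- the data from the element `k` on -/
def dat (k : ℕ) : List (ℕ × ℕ × ℕ) :=
  (List.range' k (m - k)).map fun j => (bs (up j), 2 ^ j, 2 ^ σ j)

/-- the closed sets -/
def cl : Finset (Finset ℕ) := (range m).powerset.filter fun I => ∀ k ∈ I, up k ⊆ I

/-- the weight of a closed set -/
noncomputable def wgt (I : Finset ℕ) : ℕ :=
  (cond (decide (Odd I.card)) 1 B) + (cond (Nat.beq (bs I + ∑ j ∈ I, 2 ^ σ j) full) 1 0)

theorem mem_cl {I : Finset ℕ} : I ∈ cl m up ↔ I ⊆ range m ∧ ∀ k ∈ I, up k ⊆ I := by
  unfold cl
  rw [Finset.mem_filter, Finset.mem_powerset]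

theorem dat_succ {k : ℕ} (hk : k < m) :
    dat m up σ k = (bs (up k), 2 ^ k, 2 ^ σ k) :: dat m up σ (k + 1) := by
  unfold dat
  obtain ⟨d, hd⟩ : ∃ d, m - k = d + 1 := ⟨m - k - 1, by omega⟩
  have hd' : m - (k + 1) = d := by omega
  rw [hd, hd', List.range'_succ, List.map_cons]

theorem T_eq (hup : ∀ k, k < m → up k ⊆ range k) :
    ∀ d k, k + d = m → ∀ M : Finset ℕ, M ⊆ range k → (∀ j ∈ M, up j ⊆ M) →
      T B full (dat m up σ k) (bs M) (∑ j ∈ M, 2 ^ σ j) (decide (Odd M.card)) =
        ∑ I ∈ (cl m up).filter (fun I => I ∩ range k = M), wgt B full σ I := by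
  intro d
  induction d with
  | zero =>
    intro k hk M hM hcl
    have hk' : k = m := by omega
    subst hk'
    have h1 : (cl k up).filter (fun I => I ∩ range k = M) = {M} := by
      ext I
      rw [Finset.mem_filter, mem_cl, Finset.mem_singleton]
      constructor
      · rintro ⟨⟨h2, _⟩, h3⟩
        rw [← h3, Finset.inter_eq_left.mpr h2]
      · rintro rfl
        exact ⟨⟨hM, hcl⟩, Finset.inter_eq_left.mpr hM⟩
    have h2 : dat k up σ k = [] := by simp [dat]
    rw [h1, h2, Finset.sum_singleton, T_nil]
    rfl
  | succ d ih =>
    intro k hk M hM hcl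
    have hkm : k < m := by omega
    have hkM : k ∉ M := fun h => by
      have := Finset.mem_range.mp (hM h)
      omega
    have hM' : M ⊆ range (k + 1) := hM.trans (Finset.range_subset_range.mpr (by omega))
    rw [dat_succ m up σ hkm, T_cons, ih (k + 1) (by omega) M hM' hcl]
    -- split according to the membership of `k`
    have hsplit : (cl m up).filter (fun I => I ∩ range k = M) =
        (cl m up).filter (fun I => I ∩ range (k + 1) = M) ∪
        (cl m up).filter (fun I => I ∩ range (k + 1) = insert k M) := by
      ext I
      simp only [Finset.mem_union, Finset.mem_filter]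
      rw [← and_or_left]
      refine and_congr_right fun hI => ?_
      rw [Finset.range_add_one]
      by_cases hkI : k ∈ I
      · rw [Finset.inter_insert_of_mem hkI]
        constructor
        · intro h
          right
          rw [h]
        · rintro (h | h)
          · exfalso
            apply hkM
            rw [← h]
            exact Finset.mem_insert_self _ _
          · have h1 : k ∉ I ∩ range k := by simp
            rw [← Finset.erase_insert h1, h, Finset.erase_insert hkM]
      · rw [Finset.inter_insert_of_notMem hkI]
        constructor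
        · intro h; left; exact h
        · rintro (h | h)
          · exact h
          · exfalso
            have : k ∈ I ∩ range k := by rw [h]; exact Finset.mem_insert_self _ _
            exact hkI (Finset.mem_inter.mp this).1
    have hdisj : Disjoint ((cl m up).filter (fun I => I ∩ range (k + 1) = M))
        ((cl m up).filter (fun I => I ∩ range (k + 1) = insert k M)) := by
      rw [Finset.disjoint_left]
      intro I h1 h2
      rw [Finset.mem_filter] at h1 h2
      apply hkM
      rw [← h1.2, h2.2]
      exact Finset.mem_insert_self _ _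
    rw [hsplit, Finset.sum_union hdisj]
    congr 1
    by_cases hsub : up k ⊆ M
    · have e1 : Nat.beq (Nat.land (bs (up k)) (bs M)) (bs (up k)) = true := by
        rw [Nat.beq_eq]
        exact (land_bs _ _).mpr hsub
      have e2 : bs M + 2 ^ k = bs (insert k M) := by
        unfold bs
        rw [Finset.sum_insert hkM, add_comm]
      have e3 : ∑ j ∈ M, 2 ^ σ j + 2 ^ σ k = ∑ j ∈ insert k M, 2 ^ σ j := by
        rw [Finset.sum_insert hkM, add_comm]
      have e4 : (not (decide (Odd M.card))) = decide (Odd (insert k M).card) := by
        rw [Finset.card_insert_of_notMem hkM]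
        by_cases ho : Odd M.card
        · have h1 : ¬ Odd (M.card + 1) := by rw [Nat.odd_add_one]; exact not_not.mpr ho
          simp [ho, h1]
        · have h1 : Odd (M.card + 1) := by rw [Nat.odd_add_one]; exact ho
          simp [ho, h1]
      simp only
      rw [e1, cond_true, e2, e3, e4]
      refine ih (k + 1) (by omega) (insert k M) ?_ ?_
      · intro j hj
        rcases Finset.mem_insert.mp hj with rfl | hj
        · exact Finset.mem_range.mpr (by omega)
        · exact hM' hj
      · intro j hj
        rcases Finset.mem_insert.mp hj with rfl | hj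
        · exact hsub.trans (Finset.subset_insert _ _)
        · exact (hcl j hj).trans (Finset.subset_insert _ _)
    · have e1 : Nat.beq (Nat.land (bs (up k)) (bs M)) (bs (up k)) = false := by
        rw [Bool.eq_false_iff, ne_eq, Nat.beq_eq]
        exact fun h => hsub ((land_bs _ _).mp h)
      have e2 : (cl m up).filter (fun I => I ∩ range (k + 1) = insert k M) = ∅ := by
        rw [Finset.filter_eq_empty_iff]
        intro I hI h
        rw [mem_cl] at hI
        apply hsub
        have hkI : k ∈ I := by
          have : k ∈ I ∩ range (k + 1) := by rw [h]; exact Finset.mem_insert_self _ _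
          exact (Finset.mem_inter.mp this).1
        intro j hj
        have h1 : j ∈ I := hI.2 k hkI hj
        have h2 := Finset.mem_range.mp (hup k hkm hj)
        have h3 : j ∈ insert k M := by
          rw [← h]
          exact Finset.mem_inter.mpr ⟨h1, Finset.mem_range.mpr (by omega)⟩
        rcases Finset.mem_insert.mp h3 with h4 | h4
        · omega
        · exact h4
      rw [e2, Finset.sum_empty]
      simp only
      rw [e1, cond_false]

end

/-- Soundness of the recursion. -/
theorem good_of_T {V : Type*} [DecidableEq V] {r : V → V → Prop} {P : Finset V} {w : V → V}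
    (m B full : ℕ) (f : ℕ → V) (up : ℕ → Finset ℕ) (σ : ℕ → ℕ)
    (hP : P = (range m).image f) (hinj : ∀ i < m, ∀ j < m, f i = f j → i = j)
    (hup : ∀ k < m, up k ⊆ range k)
    (hr : ∀ k < m, ∀ j < m, (r (f k) (f j) ↔ j ∈ up k ∨ j = k))
    (hσ : ∀ k < m, σ k < m) (hw : ∀ k < m, w (f k) = f (σ k))
    (hσinj : ∀ i < m, ∀ j < m, σ i = σ j → i = j)
    (hfull : full = bs (range m)) (hB : 2 ^ (m + 1) < B)
    (h : let t := T B full (dat m up σ 0) 0 0 false; t % B = t / B) : Good r P w := by
  classical
  -- transport to the index set
  have hgood : Good (fun i j => j ∈ up i ∨ j = i) (range m) σ := by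
    have hups : ups (fun i j => j ∈ up i ∨ j = i) (range m) = cl m up := by
      ext I
      rw [mem_ups, mem_cl]
      constructor
      · rintro ⟨h1, h2⟩
        refine ⟨h1, fun k hk j hj => ?_⟩
        have h3 := Finset.mem_range.mp (h1 hk)
        have h4 := Finset.mem_range.mp (hup k h3 hj)
        exact h2 k hk j (Finset.mem_range.mpr (by omega)) (Or.inl hj)
      · rintro ⟨h1, h2⟩
        refine ⟨h1, fun k hk j _ hkj => ?_⟩
        rcases hkj with h3 | rfl
        · exact h2 k hk h3
        · exact hk
    have hT := T_eq B full m up σ hup m 0 (by omega) ∅ (Finset.empty_subset _) (by simp)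
    have hall : (cl m up).filter (fun I => I ∩ range 0 = ∅) = cl m up := by
      rw [Finset.filter_eq_self]
      intro I _
      simp
    rw [hall] at hT
    have hbs0 : bs ∅ = 0 := by simp [bs]
    rw [hbs0, Finset.sum_empty, Finset.card_empty] at hT
    have hdec : decide (Odd 0) = false := by decide
    rw [hdec] at hT
    -- the self-dual sets
    have hsdual : ∀ I ∈ cl m up, (Nat.beq (bs I + ∑ j ∈ I, 2 ^ σ j) full = true ↔
        range m \ I.image σ = I) := by
      intro I hI
      rw [mem_cl] at hI
      have hinjI : Set.InjOn σ (I : Set ℕ) := fun i hi j hj hij =>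
        hσinj i (Finset.mem_range.mp (hI.1 hi)) j (Finset.mem_range.mp (hI.1 hj)) hij
      have e1 : ∑ j ∈ I, 2 ^ σ j = bs (I.image σ) := by
        unfold bs
        rw [Finset.sum_image hinjI]
      have hsub : I.image σ ⊆ range m := by
        intro j hj
        obtain ⟨i, hi, rfl⟩ := Finset.mem_image.mp hj
        exact Finset.mem_range.mpr (hσ i (Finset.mem_range.mp (hI.1 hi)))
      rw [Nat.beq_eq, e1, hfull]
      have e2 : bs (range m) = bs (range m \ I.image σ) + bs (I.image σ) := by
        unfold bs
        rw [Finset.sum_sdiff hsub]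
      rw [e2]
      constructor
      · intro h3
        exact (bs_inj (by omega : bs I = bs (range m \ I.image σ))).symm
      · intro h3
        rw [h3]
    have hsum : T B full (dat m up σ 0) 0 0 false =
        B * ((cl m up).filter fun I => ¬ Odd I.card).card +
        (((cl m up).filter fun I => Odd I.card).card +
          ((cl m up).filter fun I => range m \ I.image σ = I).card) := by
      have g1 : ∑ I ∈ cl m up, (cond (decide (Odd I.card)) 1 B) =
          B * ((cl m up).filter fun I => ¬ Odd I.card).card +
            ((cl m up).filter fun I => Odd I.card).card := by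
        rw [Finset.card_filter, Finset.card_filter, Finset.mul_sum, ← Finset.sum_add_distrib]
        refine Finset.sum_congr rfl fun I _ => ?_
        by_cases ho : Odd I.card
        · simp [ho]
        · simp [ho]
      have g2 : ∑ I ∈ cl m up, (cond (Nat.beq (bs I + ∑ j ∈ I, 2 ^ σ j) full) 1 0) =
          ((cl m up).filter fun I => range m \ I.image σ = I).card := by
        rw [Finset.card_filter]
        refine Finset.sum_congr rfl fun I hI => ?_
        by_cases hs : range m \ I.image σ = I
        · rw [if_pos hs, (hsdual I hI).mpr hs, cond_true]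
        · rw [if_neg hs]
          have : Nat.beq (bs I + ∑ j ∈ I, 2 ^ σ j) full = false := by
            rw [Bool.eq_false_iff]
            exact fun h3 => hs ((hsdual I hI).mp h3)
          rw [this, cond_false]
      rw [hT]
      unfold wgt
      rw [Finset.sum_add_distrib, g1, g2, add_assoc]
    have hcard : (cl m up).card ≤ 2 ^ m := by
      calc (cl m up).card ≤ (range m).powerset.card := Finset.card_filter_le _ _
        _ = 2 ^ m := by rw [Finset.card_powerset, Finset.card_range]
    have hb : (((cl m up).filter fun I => Odd I.card).card +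
          ((cl m up).filter fun I => range m \ I.image σ = I).card) < B := by
      have h1 := Finset.card_filter_le (cl m up) (fun I => Odd I.card)
      have h2 := Finset.card_filter_le (cl m up) (fun I => range m \ I.image σ = I)
      have h3 : 2 ^ (m + 1) = 2 * 2 ^ m := by ring
      omega
    have hkey : ((cl m up).filter fun I => Odd I.card).card +
          ((cl m up).filter fun I => range m \ I.image σ = I).card =
        ((cl m up).filter fun I => ¬ Odd I.card).card := by
      have h1 := h
      simp only at h1
      rw [hsum] at h1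
      rw [Nat.mul_add_mod, Nat.mod_eq_of_lt hb, Nat.mul_add_div (by omega),
        Nat.div_eq_of_lt hb, add_zero] at h1
      exact h1
    unfold Good chi sd
    rw [hups]
    have hchi : ∑ I ∈ cl m up, (-1 : ℤ) ^ I.card =
        (((cl m up).filter fun I => ¬ Odd I.card).card : ℤ) -
          (((cl m up).filter fun I => Odd I.card).card : ℤ) := by
      rw [← Finset.sum_filter_add_sum_filter_not (cl m up) (fun I => Odd I.card)
        (fun I => (-1 : ℤ) ^ I.card)]
      have e1 : ∑ I ∈ (cl m up).filter (fun I => Odd I.card), (-1 : ℤ) ^ I.card =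
          ∑ I ∈ (cl m up).filter (fun I => Odd I.card), (-1 : ℤ) :=
        Finset.sum_congr rfl fun I hI => (Finset.mem_filter.mp hI).2.neg_one_pow
      have e2 : ∑ I ∈ (cl m up).filter (fun I => ¬ Odd I.card), (-1 : ℤ) ^ I.card =
          ∑ I ∈ (cl m up).filter (fun I => ¬ Odd I.card), (1 : ℤ) :=
        Finset.sum_congr rfl fun I hI =>
          (Nat.not_odd_iff_even.mp (Finset.mem_filter.mp hI).2).neg_one_pow
      rw [e1, e2, Finset.sum_const, Finset.sum_const]
      simp only [nsmul_eq_mul]
      ring
    rw [hchi, ← hkey]
    push_cast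
    ring
  refine hgood.transfer f hP (fun i hi j hj => hinj i (Finset.mem_range.mp hi) j
    (Finset.mem_range.mp hj)) (fun i hi j hj => hr i (Finset.mem_range.mp hi) j
    (Finset.mem_range.mp hj)) (fun i hi => Finset.mem_range.mpr (hσ i (Finset.mem_range.mp hi)))
    (fun i hi => hw i (Finset.mem_range.mp hi))

end Pool.Agent.Helper282_TM
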