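import Mathlib

/-!
# The `t = -1` phenomenon for upper ideals of `Δ(1)` (MP_1283eb_co): definitions

*Posets.* `ups r P` is the set of upper ideals of the finite poset `(P, r)`, `chi r P` is
`∑ (-1)^{#I}` over the upper ideals, `sd r P w` is the number of upper ideals `I` with
`P \ w(I) = I`.

*Root systems.* Vectors are written in the basis of simple roots; `A i j = ⟨α_i, α_j^∨⟩` is the
Cartan matrix.
-/

set_option autoImplicit false

namespace Pool.Agent.Helper282_TM

open Finset

/-! ### Posets -/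

section Poset

variable {V : Type*} [DecidableEq V]

/-- `I` is an upper ideal of `(P, r)`. -/
def Up (r : V → V → Prop) (P I : Finset V) : Prop :=
  I ⊆ P ∧ ∀ x ∈ I, ∀ y ∈ P, r x y → y ∈ I

open Classical in
/-- The upper ideals of `(P, r)`. -/
noncomputable def ups (r : V → V → Prop) (P : Finset V) : Finset (Finset V) :=
  P.powerset.filter (Up r P)

/-- `∑_I (-1)^{#I}` over the upper ideals. -/
noncomputable def chi (r : V → V → Prop) (P : Finset V) : ℤ :=
  ∑ I ∈ ups r P, (-1 : ℤ) ^ I.card

/-- The number of self-dual upper ideals: `P \ w(I) = I`. -/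
noncomputable def sd (r : V → V → Prop) (P : Finset V) (w : V → V) : ℕ :=
  ((ups r P).filter fun I => P \ I.image w = I).card

/-- The `t = -1` phenomenon. -/
def Good (r : V → V → Prop) (P : Finset V) (w : V → V) : Prop :=
  chi r P = (sd r P w : ℤ)

end Poset

/-! ### Root systems -/

section Roots

variable {n : ℕ}

/-- The simple reflection `s_i` in the basis of simple roots. -/
def refl (A : Matrix (Fin n) (Fin n) ℤ) (i : Fin n) (v : Fin n → ℤ) : Fin n → ℤ :=
  v - (∑ k, v k * A k i) • (Pi.single i 1 : Fin n → ℤ)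

/-- The roots: the smallest set which contains the simple roots and is stable under the simple
reflections. -/
inductive IsRoot (A : Matrix (Fin n) (Fin n) ℤ) : (Fin n → ℤ) → Prop
  | simple (i : Fin n) : IsRoot A (Pi.single i 1)
  | refl (i : Fin n) (v : Fin n → ℤ) : IsRoot A v → IsRoot A (refl A i v)

/-- The action of a word in the simple reflections: `act A [i, j, k] = s_i s_j s_k`. -/
def act (A : Matrix (Fin n) (Fin n) ℤ) (u : List (Fin n)) (v : Fin n → ℤ) : Fin n → ℤ :=
  u.foldr (refl A) v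

/-- `w` belongs to the parabolic subgroup generated by the `s_i`, `i ∈ S`. -/
def InW (A : Matrix (Fin n) (Fin n) ℤ) (S : Set (Fin n)) (w : (Fin n → ℤ) → (Fin n → ℤ)) : Prop :=
  ∃ u : List (Fin n), (∀ i ∈ u, i ∈ S) ∧ w = act A u

/-- `w` is the longest element of the parabolic subgroup `W_S`: it maps every positive root
supported on `S` to a negative root. -/
def Longest (A : Matrix (Fin n) (Fin n) ℤ) (S : Set (Fin n))
    (w : (Fin n → ℤ) → (Fin n → ℤ)) : Prop :=
  InW A S w ∧ ∀ v, IsRoot A v → 0 ≤ v → (∀ i, i ∉ S → v i = 0) → w v ≤ 0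

/-- The roots with coefficient `1` at `a`, and coefficient `0` outside `S ∪ {a}`. -/
def PS (A : Matrix (Fin n) (Fin n) ℤ) (S : Set (Fin n)) (a : Fin n) : Set (Fin n → ℤ) :=
  {v | IsRoot A v ∧ v a = 1 ∧ ∀ i, i ∉ S → i ≠ a → v i = 0}

/-- What has to be proved for the Cartan matrix `A`. -/
def Holds (A : Matrix (Fin n) (Fin n) ℤ) : Prop :=
  ∀ (S : Set (Fin n)) (a : Fin n), a ∉ S → ∀ w, Longest A S w →
    ∀ P : Finset (Fin n → ℤ), (∀ v, v ∈ P ↔ v ∈ PS A S a) → Good (fun x y => x ≤ y) P w

/-- The roots are finite in number, each is `≥ 0` or `≤ 0`, and `c α_i` is a root only for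
`c = ±1`. -/
structure Fine (A : Matrix (Fin n) (Fin n) ℤ) : Prop where
  diag : ∀ i, A i i = 2
  fin : {v | IsRoot A v}.Finite
  sign : ∀ v, IsRoot A v → 0 ≤ v ∨ v ≤ 0
  mult : ∀ v i, IsRoot A v → (∀ j, j ≠ i → v j = 0) → v i = 1 ∨ v i = -1

end Roots

/-! ### The model posets -/

/-- The order of the poset `K_m` on `{0, …, 2m-1}`: a chain, except that `m - 1` and `m` are
incomparable. -/
def kle (m a b : ℕ) : Prop := a = b ∨ (a < b ∧ ¬ (a + 1 = m ∧ b = m))

/-- The duality of `K_m`. -/
def ksig (m : ℕ) (b : Fin (2 * m)) : Fin (2 * m) :=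
  if Odd m ∧ ((b : ℕ) + 1 = m ∨ (b : ℕ) = m) then b else Fin.rev b

end Pool.Agent.Helper282_TM
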