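import Pool.Agent.Helper282_TM.Poset

/-!
# General lemmas on roots and reflections (MP_1283eb_co)
-/

set_option autoImplicit false

namespace Pool.Agent.Helper282_TM

open Finset

section

variable {n : ℕ} {A : Matrix (Fin n) (Fin n) ℤ}

/-- the coefficient `⟨v, α_i^∨⟩` -/
def pair (A : Matrix (Fin n) (Fin n) ℤ) (i : Fin n) (v : Fin n → ℤ) : ℤ := ∑ k, v k * A k i

theorem refl_eq (i : Fin n) (v : Fin n → ℤ) :
    refl A i v = v - pair A i v • (Pi.single i 1 : Fin n → ℤ) := rfl

theorem pair_add (i : Fin n) (v v' : Fin n → ℤ) : pair A i (v + v') = pair A i v + pair A i v' := by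
  simp [pair, add_mul, Finset.sum_add_distrib]

theorem pair_sub (i : Fin n) (v v' : Fin n → ℤ) : pair A i (v - v') = pair A i v - pair A i v' := by
  simp [pair, sub_mul, Finset.sum_sub_distrib]

theorem pair_smul (i : Fin n) (c : ℤ) (v : Fin n → ℤ) : pair A i (c • v) = c * pair A i v := by
  simp [pair, mul_assoc, Finset.mul_sum]

theorem pair_neg (i : Fin n) (v : Fin n → ℤ) : pair A i (-v) = - pair A i v := by
  simp [pair, Finset.sum_neg_distrib]

theorem pair_single (i j : Fin n) : pair A i (Pi.single j 1) = A j i := by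
  simp [pair, Pi.single_apply]

theorem refl_apply_ne {i j : Fin n} (h : j ≠ i) (v : Fin n → ℤ) : refl A i v j = v j := by
  simp [refl, h]

theorem refl_apply_self (i : Fin n) (v : Fin n → ℤ) : refl A i v i = v i - pair A i v := by
  simp [refl, pair]

theorem refl_add (i : Fin n) (v v' : Fin n → ℤ) : refl A i (v + v') = refl A i v + refl A i v' := by
  rw [refl_eq, refl_eq, refl_eq, pair_add, add_smul]
  abel

theorem refl_sub (i : Fin n) (v v' : Fin n → ℤ) : refl A i (v - v') = refl A i v - refl A i v' := by
  rw [refl_eq, refl_eq, refl_eq, pair_sub, sub_smul]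
  abel

theorem refl_neg (i : Fin n) (v : Fin n → ℤ) : refl A i (-v) = - refl A i v := by
  rw [refl_eq, refl_eq, pair_neg, neg_smul]
  abel

theorem refl_smul (i : Fin n) (c : ℤ) (v : Fin n → ℤ) : refl A i (c • v) = c • refl A i v := by
  rw [refl_eq, refl_eq, pair_smul, smul_sub, mul_smul]

theorem refl_single_self (hd : ∀ i, A i i = 2) (i : Fin n) :
    refl A i (Pi.single i 1) = - Pi.single i 1 := by
  rw [refl_eq, pair_single, hd, two_smul]
  abel

theorem refl_refl (hd : ∀ i, A i i = 2) (i : Fin n) (v : Fin n → ℤ) :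
    refl A i (refl A i v) = v := by
  rw [refl_eq i v, refl_sub, refl_smul, refl_single_self hd, refl_eq]
  module

theorem act_nil (v : Fin n → ℤ) : act A [] v = v := rfl

theorem act_cons (i : Fin n) (u : List (Fin n)) (v : Fin n → ℤ) :
    act A (i :: u) v = refl A i (act A u v) := rfl

theorem act_append (u u' : List (Fin n)) (v : Fin n → ℤ) :
    act A (u ++ u') v = act A u (act A u' v) := by
  unfold act
  rw [List.foldr_append]

theorem act_add (u : List (Fin n)) (v v' : Fin n → ℤ) :
    act A u (v + v') = act A u v + act A u v' := by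
  induction u with
  | nil => rfl
  | cons i u ih => rw [act_cons, act_cons, act_cons, ih, refl_add]

theorem act_sub (u : List (Fin n)) (v v' : Fin n → ℤ) :
    act A u (v - v') = act A u v - act A u v' := by
  induction u with
  | nil => rfl
  | cons i u ih => rw [act_cons, act_cons, act_cons, ih, refl_sub]

theorem act_neg (u : List (Fin n)) (v : Fin n → ℤ) : act A u (-v) = - act A u v := by
  induction u with
  | nil => rfl
  | cons i u ih => rw [act_cons, act_cons, ih, refl_neg]

theorem act_smul (u : List (Fin n)) (c : ℤ) (v : Fin n → ℤ) :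
    act A u (c • v) = c • act A u v := by
  induction u with
  | nil => rfl
  | cons i u ih => rw [act_cons, act_cons, ih, refl_smul]

theorem act_zero (u : List (Fin n)) : act A u 0 = 0 := by
  have := act_smul (A := A) u 0 0
  simpa using this

theorem act_sum (u : List (Fin n)) {ι : Type*} (s : Finset ι) (f : ι → Fin n → ℤ) :
    act A u (∑ x ∈ s, f x) = ∑ x ∈ s, act A u (f x) := by
  classical
  induction s using Finset.induction_on with
  | empty => simp [act_zero]
  | insert a s ha ih => rw [Finset.sum_insert ha, Finset.sum_insert ha, act_add, ih]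

theorem eq_sum_single (v : Fin n → ℤ) : v = ∑ i, v i • (Pi.single i 1 : Fin n → ℤ) := by
  funext j
  simp [Finset.sum_apply, Pi.single_apply]

theorem act_eq_sum (u : List (Fin n)) (v : Fin n → ℤ) :
    act A u v = ∑ i, v i • act A u (Pi.single i 1) := by
  conv_lhs => rw [eq_sum_single v]
  rw [act_sum]
  exact Finset.sum_congr rfl fun i _ => act_smul _ _ _

theorem act_reverse_act (hd : ∀ i, A i i = 2) (u : List (Fin n)) (v : Fin n → ℤ) :
    act A u.reverse (act A u v) = v := by
  induction u generalizing v with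
  | nil => rfl
  | cons i u ih => rw [List.reverse_cons, act_append, act_cons, act_cons, act_nil, refl_refl hd, ih]

theorem act_act_reverse (hd : ∀ i, A i i = 2) (u : List (Fin n)) (v : Fin n → ℤ) :
    act A u (act A u.reverse v) = v := by
  have := act_reverse_act hd u.reverse v
  rwa [List.reverse_reverse] at this

theorem act_injective (hd : ∀ i, A i i = 2) (u : List (Fin n)) {v v' : Fin n → ℤ}
    (h : act A u v = act A u v') : v = v' := by
  rw [← act_reverse_act hd u v, h, act_reverse_act hd]

theorem isRoot_act {v : Fin n → ℤ} (hv : IsRoot A v) (u : List (Fin n)) : IsRoot A (act A u v) := by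
  induction u with
  | nil => exact hv
  | cons i u ih => exact IsRoot.refl i _ ih

theorem isRoot_neg (hd : ∀ i, A i i = 2) {v : Fin n → ℤ} (hv : IsRoot A v) : IsRoot A (-v) := by
  induction hv with
  | simple i => rw [← refl_single_self hd]; exact IsRoot.refl i _ (IsRoot.simple i)
  | refl i v _ ih => rw [← refl_neg]; exact IsRoot.refl i _ ih

theorem act_apply_of_notMem {S : Set (Fin n)} {u : List (Fin n)} (hu : ∀ i ∈ u, i ∈ S) {j : Fin n}
    (hj : j ∉ S) (v : Fin n → ℤ) : act A u v j = v j := by
  induction u with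
  | nil => rfl
  | cons i u ih =>
    have hij : j ≠ i := fun h => hj (h ▸ hu i (List.mem_cons_self))
    rw [act_cons, refl_apply_ne hij, ih fun k hk => hu k (List.mem_cons_of_mem _ hk)]

theorem isRoot_ne_zero (hd : ∀ i, A i i = 2) {v : Fin n → ℤ} (hv : IsRoot A v) : v ≠ 0 := by
  induction hv with
  | simple i =>
    intro h
    have := congrFun h i
    simp at this
  | refl i v _ ih =>
    intro h
    apply ih
    rw [← refl_refl hd i v, h]
    simp [refl]

/-- positive roots supported on `S` -/
def PosS (A : Matrix (Fin n) (Fin n) ℤ) (S : Set (Fin n)) : Set (Fin n → ℤ) :=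
  {v | IsRoot A v ∧ 0 ≤ v ∧ ∀ i, i ∉ S → v i = 0}

theorem single_mem_PosS {S : Set (Fin n)} {i : Fin n} (hi : i ∈ S) :
    (Pi.single i 1 : Fin n → ℤ) ∈ PosS A S := by
  refine ⟨IsRoot.simple i, ?_, ?_⟩
  · intro j
    by_cases h : j = i
    · subst h; simp
    · simp [h]
  · intro j hj
    have : j ≠ i := fun h => hj (h ▸ hi)
    simp [this]

/-- `s_i` permutes the positive roots other than `α_i`. -/
theorem refl_mem_PosS (hA : Fine A) {S : Set (Fin n)} {i : Fin n} (hi : i ∈ S) {v : Fin n → ℤ}
    (hv : v ∈ PosS A S) (hne : v ≠ Pi.single i 1) : refl A i v ∈ PosS A S := by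
  obtain ⟨h1, h2, h3⟩ := hv
  refine ⟨IsRoot.refl i v h1, ?_, ?_⟩
  · rcases hA.sign _ (IsRoot.refl i v h1) with h | h
    · exact h
    · exfalso
      have hz : ∀ j, j ≠ i → v j = 0 := by
        intro j hj
        have e1 : refl A i v j ≤ 0 := h j
        rw [refl_apply_ne hj] at e1
        exact le_antisymm e1 (h2 j)
      have hi1 : v i = 1 := by
        rcases hA.mult v i h1 hz with h4 | h4
        · exact h4
        · have : 0 ≤ v i := h2 i
          rw [h4] at this
          norm_num at this
      apply hne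
      funext j
      by_cases hj : j = i
      · subst hj; simp [hi1]
      · simp [hj, hz j hj]
  · intro j hj
    have hji : j ≠ i := fun h => hj (h ▸ hi)
    rw [refl_apply_ne hji]
    exact h3 j hj

theorem act_le_zero (u : List (Fin n)) {S : Set (Fin n)} (h : ∀ i ∈ S, act A u (Pi.single i 1) ≤ 0)
    {v : Fin n → ℤ} (hv : 0 ≤ v) (hvS : ∀ i, i ∉ S → v i = 0) : act A u v ≤ 0 := by
  rw [act_eq_sum]
  refine Finset.sum_nonpos fun i _ => ?_
  by_cases hi : i ∈ S
  · exact smul_nonpos_of_nonneg_of_nonpos (hv i) (h i hi)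
  · rw [hvS i hi, zero_smul]

open Classical in
/-- The longest element exists. -/
theorem exists_longest (hA : Fine A) (S : Set (Fin n)) : ∃ w, Longest A S w := by
  have hfin : (PosS A S).Finite := hA.fin.subset fun v hv => hv.1
  let R : Finset (Fin n → ℤ) := hfin.toFinset
  have hR : ∀ v, v ∈ R ↔ v ∈ PosS A S := fun v => hfin.mem_toFinset
  let N : List (Fin n) → ℕ := fun u => (R.filter fun v => act A u v ≤ 0).card
  have hN : ∀ u, N u ≤ R.card := fun u => Finset.card_filter_le _ _
  -- choose a word with the largest number of inversions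
  obtain ⟨u, hu, hmax⟩ : ∃ u : List (Fin n), (∀ i ∈ u, i ∈ S) ∧
      ∀ u' : List (Fin n), (∀ i ∈ u', i ∈ S) → N u' ≤ N u := by
    by_contra hcon
    push Not at hcon
    have : ∀ k : ℕ, ∃ u : List (Fin n), (∀ i ∈ u, i ∈ S) ∧ k ≤ N u := by
      intro k
      induction k with
      | zero => exact ⟨[], by simp, Nat.zero_le _⟩
      | succ k ih =>
        obtain ⟨u, hu, hk⟩ := ih
        obtain ⟨u', hu', hlt⟩ := hcon u hu
        exact ⟨u', hu', by omega⟩
    obtain ⟨u, _, hu⟩ := this (R.card + 1)
    have := hN u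
    omega
  have hneg : ∀ i ∈ S, act A u (Pi.single i 1) ≤ 0 := by
    intro i hi
    by_contra hpos
    have hu' : ∀ j ∈ u ++ [i], j ∈ S := by
      intro j hj
      rcases List.mem_append.mp hj with h | h
      · exact hu j h
      · rw [List.mem_singleton.mp h]; exact hi
    have hlt : N u < N (u ++ [i]) := by
      have hsub : insert (Pi.single i 1) ((R.filter fun v => act A u v ≤ 0).image (refl A i)) ⊆
          R.filter fun v => act A (u ++ [i]) v ≤ 0 := by
        intro v hv
        rcases Finset.mem_insert.mp hv with rfl | hv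
        · rw [Finset.mem_filter, hR]
          refine ⟨single_mem_PosS hi, ?_⟩
          rw [act_append, act_cons, act_nil, refl_single_self hA.diag, act_neg]
          rcases hA.sign _ (isRoot_act (IsRoot.simple i) u) with h | h
          · exact neg_nonpos.mpr h
          · exact absurd h hpos
        · obtain ⟨v', hv', rfl⟩ := Finset.mem_image.mp hv
          rw [Finset.mem_filter, hR] at hv' ⊢
          refine ⟨refl_mem_PosS hA hi hv'.1 ?_, ?_⟩
          · rintro rfl
            exact hpos hv'.2
          · rw [act_append, act_cons, act_nil, refl_refl hA.diag]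
            exact hv'.2
      have hcard := Finset.card_le_card hsub
      rw [Finset.card_insert_of_notMem, Finset.card_image_of_injective] at hcard
      · exact hcard
      · intro a b hab
        rw [← refl_refl hA.diag i a, ← refl_refl hA.diag i b]
        exact congrArg (refl A i) hab
      · intro hmem
        obtain ⟨v', hv', hvv⟩ := Finset.mem_image.mp hmem
        rw [Finset.mem_filter, hR] at hv'
        have h1 : v' = - Pi.single i 1 := by
          rw [← refl_refl hA.diag i v', hvv, refl_single_self hA.diag]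
        have h2 : 0 ≤ v' i := hv'.1.2.1 i
        rw [h1] at h2
        simp at h2
    have := hmax _ hu'
    omega
  refine ⟨act A u, ⟨u, hu, rfl⟩, fun v _ h2 h3 => act_le_zero u hneg h2 h3⟩

theorem Longest.neg {S : Set (Fin n)} {w : (Fin n → ℤ) → (Fin n → ℤ)} (hw : Longest A S w)
    {i : Fin n} (hi : i ∈ S) : w (Pi.single i 1) ≤ 0 := by
  have h := single_mem_PosS (A := A) hi
  exact hw.2 _ h.1 h.2.1 h.2.2

/-- `w_0` reverses differences supported on `S`. -/
theorem Longest.antitone {S : Set (Fin n)} {w : (Fin n → ℤ) → (Fin n → ℤ)} (hw : Longest A S w)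
    {x y : Fin n → ℤ} (hxy : x ≤ y) (h : ∀ i, i ∉ S → x i = y i) : w y ≤ w x := by
  obtain ⟨⟨u, hu, rfl⟩, _⟩ := id hw
  have h1 : act A u (y - x) ≤ 0 := by
    refine act_le_zero u (fun i hi => hw.neg hi) (sub_nonneg.mpr hxy) fun i hi => ?_
    rw [Pi.sub_apply, h i hi, sub_self]
  rw [act_sub] at h1
  exact sub_nonpos.mp h1

theorem InW.mem_PS {S : Set (Fin n)} {w : (Fin n → ℤ) → (Fin n → ℤ)} (hw : InW A S w) {a : Fin n}
    (ha : a ∉ S) {v : Fin n → ℤ} (hv : v ∈ PS A S a) : w v ∈ PS A S a := by
  obtain ⟨u, hu, rfl⟩ := hw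
  refine ⟨isRoot_act hv.1 u, ?_, fun i hi hia => ?_⟩
  · rw [act_apply_of_notMem hu ha]; exact hv.2.1
  · rw [act_apply_of_notMem hu hi]; exact hv.2.2 i hi hia

theorem InW.injective (hd : ∀ i, A i i = 2) {S : Set (Fin n)} {w : (Fin n → ℤ) → (Fin n → ℤ)}
    (hw : InW A S w) : Function.Injective w := by
  obtain ⟨u, _, rfl⟩ := hw
  intro a b hab
  exact act_injective hd u hab

/-- The statement of the theorem for one Cartan matrix: the `t = -1` phenomenon for all labellings
`l` of the simple roots. -/
def TMinusOne (A : Matrix (Fin n) (Fin n) ℤ) : Prop :=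
  ∀ l : Fin n → ℕ,
    {v : Fin n → ℤ | IsRoot A v ∧ ∑ i, v i * (l i : ℤ) = 1}.Finite ∧
    (∃ w, Longest A {i | l i = 0} w) ∧
    ∀ w, Longest A {i | l i = 0} w →
      ∀ D : Finset (Fin n → ℤ), (∀ v, v ∈ D ↔ IsRoot A v ∧ ∑ i, v i * (l i : ℤ) = 1) →
        D.image w = D ∧ (∀ x ∈ D, ∀ y ∈ D, x ≤ y → w y ≤ w x) ∧ Good (fun x y => x ≤ y) D w

theorem delta_mem_PS (hA : Fine A) (l : Fin n → ℕ) {v : Fin n → ℤ} (hv : IsRoot A v)
    (h1 : ∑ i, v i * (l i : ℤ) = 1) : 0 ≤ v ∧ ∃ a, l a = 1 ∧ v ∈ PS A {i | l i = 0} a := by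
  have hpos : 0 ≤ v := by
    rcases hA.sign v hv with h | h
    · exact h
    · exfalso
      have : ∑ i, v i * (l i : ℤ) ≤ 0 :=
        Finset.sum_nonpos fun i _ => mul_nonpos_of_nonpos_of_nonneg (h i) (by positivity)
      omega
  refine ⟨hpos, ?_⟩
  have hnn : ∀ i ∈ (Finset.univ : Finset (Fin n)), 0 ≤ v i * (l i : ℤ) := fun i _ =>
    mul_nonneg (hpos i) (by positivity)
  obtain ⟨a, ha⟩ : ∃ a, 0 < v a * (l a : ℤ) := by
    by_contra hcon
    push Not at hcon
    have : ∑ i, v i * (l i : ℤ) ≤ 0 := Finset.sum_nonpos fun i _ => hcon i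
    omega
  have hle : v a * (l a : ℤ) ≤ 1 := by
    rw [← h1]
    exact Finset.single_le_sum hnn (Finset.mem_univ a)
  have heq : v a * (l a : ℤ) = 1 := by omega
  have hva : v a = 1 := by
    rcases Int.mul_eq_one_iff_eq_one_or_neg_one.mp heq with h | h
    · exact h.1
    · have := hpos a
      rw [h.1] at this
      norm_num at this
  have hla : l a = 1 := by
    rw [hva, one_mul] at heq
    exact_mod_cast heq
  refine ⟨a, hla, hv, hva, fun i hi hia => ?_⟩
  by_contra hvi
  have hi' : l i ≠ 0 := hi
  have h2 : 0 < v i * (l i : ℤ) :=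
    mul_pos (lt_of_le_of_ne (hpos i) (Ne.symm hvi)) (by exact_mod_cast Nat.pos_of_ne_zero hi')
  have h3 : v a * (l a : ℤ) + v i * (l i : ℤ) ≤ ∑ i, v i * (l i : ℤ) := by
    have e := Finset.sum_pair (f := fun i => v i * (l i : ℤ)) (Ne.symm hia)
    rw [← e]
    exact Finset.sum_le_sum_of_subset_of_nonneg (Finset.subset_univ _) fun j hj _ => hnn j hj
  omega

/-- Reduction to the components. -/
theorem tMinusOne_of_holds (hA : Fine A) (h : Holds A) : TMinusOne A := by
  classical
  intro l
  refine ⟨hA.fin.subset fun v hv => hv.1, exists_longest hA _, fun w hw D hD => ?_⟩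
  have hWin : InW A {i | l i = 0} w := hw.1
  have hinj := hWin.injective hA.diag
  have hwD : ∀ x ∈ D, w x ∈ D := by
    intro x hx
    rw [hD] at hx ⊢
    obtain ⟨u, hu, rfl⟩ := hWin
    refine ⟨isRoot_act hx.1 u, ?_⟩
    rw [← hx.2]
    refine Finset.sum_congr rfl fun i _ => ?_
    by_cases hi : l i = 0
    · simp [hi]
    · rw [act_apply_of_notMem hu (show i ∉ {i | l i = 0} from hi)]
  have hcoord : ∀ x ∈ D, ∀ y ∈ D, x ≤ y → ∀ i, i ∉ {i | l i = 0} → x i = y i := by
    intro x hx y hy hxy i hi
    rw [hD] at hx hy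
    have h2 : ∑ j, (y j - x j) * (l j : ℤ) = 0 := by
      simp only [sub_mul, Finset.sum_sub_distrib]
      rw [hx.2, hy.2, sub_self]
    have h3 : ∀ j ∈ (Finset.univ : Finset (Fin n)), 0 ≤ (y j - x j) * (l j : ℤ) := fun j _ =>
      mul_nonneg (sub_nonneg.mpr (hxy j)) (by positivity)
    have h4 := (Finset.sum_eq_zero_iff_of_nonneg h3).mp h2 i (Finset.mem_univ i)
    rcases mul_eq_zero.mp h4 with h5 | h5
    · omega
    · exact absurd (by exact_mod_cast h5 : l i = 0) hi
  refine ⟨?_, ?_, ?_⟩
  · exact Finset.eq_of_subset_of_card_le (Finset.image_subset_iff.mpr hwD)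
      (by rw [Finset.card_image_of_injective D hinj])
  · intro x hx y hy hxy
    exact hw.antitone hxy (hcoord x hx y hy hxy)
  · -- the labels
    have hex : ∀ v ∈ D, ∃ a, l a = 1 ∧ v ∈ PS A {i | l i = 0} a := fun v hv =>
      (delta_mem_PS hA l ((hD v).mp hv).1 ((hD v).mp hv).2).2
    let c : (Fin n → ℤ) → Option (Fin n) := fun v =>
      if hv : v ∈ D then some (hex v hv).choose else none
    have hc : ∀ v (hv : v ∈ D) a, c v = some a ↔ (l a = 1 ∧ v ∈ PS A {i | l i = 0} a) := by
      intro v hv a
      have hs := (hex v hv).choose_spec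
      have hcv : c v = some (hex v hv).choose := dif_pos hv
      rw [hcv, Option.some_inj]
      constructor
      · rintro rfl
        exact hs
      · rintro ⟨h1, h2⟩
        by_contra hne
        have h3 := hs.2.2.2 a (by simp [h1]) (Ne.symm hne)
        rw [h2.2.1] at h3
        exact one_ne_zero h3
    have hsome : ∀ v ∈ D, ∃ a, c v = some a := fun v hv => by
      obtain ⟨a, ha⟩ := hex v hv
      exact ⟨a, (hc v hv a).mpr ha⟩
    have hall : D.filter (fun v => c v ∈ (Finset.univ : Finset (Option (Fin n)))) = D := by simp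
    rw [← hall]
    refine Good.labels c D ?_ ?_ Finset.univ ?_
    · intro x hx y hy hxy
      obtain ⟨a, ha⟩ := hsome x hx
      rw [ha]
      symm
      rw [hc y hy]
      have h1 := (hc x hx a).mp ha
      refine ⟨h1.1, ((hD y).mp hy).1, ?_, ?_⟩
      · rw [← hcoord x hx y hy hxy a (by simp [h1.1])]
        exact h1.2.2.1
      · intro i hi hia
        rw [← hcoord x hx y hy hxy i hi]
        exact h1.2.2.2 i hi hia
    · intro x hx
      refine ⟨hwD x hx, ?_⟩
      obtain ⟨a, ha⟩ := hsome x hx
      rw [ha, hc _ (hwD x hx)]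
      have h1 := (hc x hx a).mp ha
      exact ⟨h1.1, hWin.mem_PS (by simp [h1.1]) h1.2⟩
    · intro o _
      cases o with
      | none =>
        have : D.filter (fun x => c x = none) = ∅ := by
          rw [Finset.filter_eq_empty_iff]
          intro x hx h0
          obtain ⟨a, ha⟩ := hsome x hx
          rw [ha] at h0
          exact absurd h0 (by simp)
        rw [this]
        exact Good.empty _ _
      | some a =>
        by_cases hla : l a = 1
        · refine h {i | l i = 0} a (by simp [hla]) w hw _ fun v => ?_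
          rw [Finset.mem_filter]
          constructor
          · rintro ⟨hv, hva⟩
            exact ((hc v hv a).mp hva).2
          · intro hv
            have hvD : v ∈ D := by
              rw [hD]
              refine ⟨hv.1, ?_⟩
              rw [Finset.sum_eq_single a]
              · rw [hv.2.1, hla]; norm_num
              · intro b _ hb
                by_cases hlb : l b = 0
                · simp [hlb]
                · rw [hv.2.2 b hlb hb, zero_mul]
              · intro h0; exact absurd (Finset.mem_univ a) h0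
            exact ⟨hvD, (hc v hvD a).mpr ⟨hla, hv⟩⟩
        · have : D.filter (fun x => c x = some a) = ∅ := by
            rw [Finset.filter_eq_empty_iff]
            intro x hx h0
            exact hla ((hc x hx a).mp h0).1
          rw [this]
          exact Good.empty _ _

end

end Pool.Agent.Helper282_TM
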