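import Pool.Agent.Helper282_TM.Defs

/-!
# the longest element is unique (proved by helper737)
-/

set_option autoImplicit false

namespace Pool.Agent.Helper282_TM

open Finset


namespace Uniq

variable {n : ℕ} {A : Matrix (Fin n) (Fin n) ℤ}

theorem refl_def (i : Fin n) (v : Fin n → ℤ) :
    refl A i v = v - (∑ k, v k * A k i) • (Pi.single i 1 : Fin n → ℤ) := rfl

theorem coef_add (i : Fin n) (x y : Fin n → ℤ) :
    ∑ k, (x + y) k * A k i = ∑ k, x k * A k i + ∑ k, y k * A k i := by
  rw [← Finset.sum_add_distrib]
  apply Finset.sum_congr rfl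
  intro k _
  rw [Pi.add_apply]; ring

theorem coef_smul (i : Fin n) (c : ℤ) (x : Fin n → ℤ) :
    ∑ k, (c • x) k * A k i = c * ∑ k, x k * A k i := by
  rw [Finset.mul_sum]
  apply Finset.sum_congr rfl
  intro k _
  rw [Pi.smul_apply, smul_eq_mul]; ring

theorem coef_single (i j : Fin n) :
    ∑ k, (Pi.single j 1 : Fin n → ℤ) k * A k i = A j i := by
  rw [Finset.sum_eq_single j]
  · simp
  · intro b _ hb
    rw [Pi.single_eq_of_ne hb]; simp
  · intro h; exact absurd (Finset.mem_univ j) h

/-- The reflection as a linear map. -/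
def reflL (A : Matrix (Fin n) (Fin n) ℤ) (i : Fin n) : (Fin n → ℤ) →ₗ[ℤ] (Fin n → ℤ) where
  toFun := refl A i
  map_add' x y := by
    rw [refl_def, refl_def, refl_def, coef_add, add_smul]; abel
  map_smul' c x := by
    rw [refl_def, refl_def, coef_smul, mul_smul, RingHom.id_apply, smul_sub]

theorem reflL_apply (i : Fin n) (x : Fin n → ℤ) : reflL A i x = refl A i x := rfl

/-- The action of a word as a linear map. -/
def actL (A : Matrix (Fin n) (Fin n) ℤ) : List (Fin n) → ((Fin n → ℤ) →ₗ[ℤ] (Fin n → ℤ))
  | [] => LinearMap.id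
  | i :: u => (reflL A i).comp (actL A u)

theorem actL_apply (u : List (Fin n)) (x : Fin n → ℤ) : actL A u x = act A u x := by
  induction u with
  | nil => rfl
  | cons i u ih =>
    show refl A i (actL A u x) = refl A i (act A u x)
    rw [ih]

theorem act_neg (u : List (Fin n)) (x : Fin n → ℤ) : act A u (-x) = -act A u x := by
  rw [← actL_apply, ← actL_apply, map_neg]

theorem act_append (u v : List (Fin n)) (x : Fin n → ℤ) :
    act A (u ++ v) x = act A u (act A v x) := by
  unfold act
  rw [List.foldr_append]

theorem act_cons (i : Fin n) (v : List (Fin n)) (x : Fin n → ℤ) :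
    act A (i :: v) x = refl A i (act A v x) := rfl

theorem act_nil (x : Fin n → ℤ) : act A [] x = x := rfl

theorem act_single (i : Fin n) (x : Fin n → ℤ) : act A [i] x = refl A i x := rfl

theorem refl_apply_ne {i j : Fin n} (h : j ≠ i) (v : Fin n → ℤ) : refl A i v j = v j := by
  rw [refl_def, Pi.sub_apply, Pi.smul_apply, Pi.single_eq_of_ne h]
  simp

theorem refl_self (hA : Fine A) (i : Fin n) :
    refl A i (Pi.single i 1) = -(Pi.single i 1 : Fin n → ℤ) := by
  rw [refl_def, coef_single, hA.diag, two_smul]; abel

theorem refl_refl (hA : Fine A) (i : Fin n) (x : Fin n → ℤ) : refl A i (refl A i x) = x := by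
  have h1 : refl A i x = x - (∑ k, x k * A k i) • (Pi.single i 1 : Fin n → ℤ) := rfl
  have h2 : reflL A i (x - (∑ k, x k * A k i) • (Pi.single i 1 : Fin n → ℤ)) =
      refl A i x - (∑ k, x k * A k i) • refl A i (Pi.single i 1 : Fin n → ℤ) := by
    rw [map_sub, map_smul]; rfl
  rw [h1, ← reflL_apply, h2, refl_self hA, h1, smul_neg]
  abel

theorem act_rev (hA : Fine A) (u : List (Fin n)) (x : Fin n → ℤ) :
    act A u.reverse (act A u x) = x := by
  induction u generalizing x with
  | nil => rfl
  | cons i u ih =>
    rw [List.reverse_cons, act_append, act_single, act_cons, refl_refl hA, ih]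

theorem act_rev' (hA : Fine A) (u : List (Fin n)) (x : Fin n → ℤ) :
    act A u (act A u.reverse x) = x := by
  have := act_rev hA u.reverse x
  rwa [List.reverse_reverse] at this

theorem act_out {S : Set (Fin n)} {u : List (Fin n)} (hu : ∀ i ∈ u, i ∈ S) {j : Fin n}
    (hj : j ∉ S) (x : Fin n → ℤ) : act A u x j = x j := by
  induction u with
  | nil => rfl
  | cons i u ih =>
    rw [act_cons, refl_apply_ne, ih (fun k hk => hu k (List.mem_cons_of_mem _ hk))]
    intro h
    exact hj (h ▸ hu i List.mem_cons_self)

theorem root_act {v : Fin n → ℤ} (hv : IsRoot A v) (u : List (Fin n)) : IsRoot A (act A u v) := by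
  induction u with
  | nil => exact hv
  | cons i u ih => exact IsRoot.refl i _ ih

theorem root_neg (hA : Fine A) {v : Fin n → ℤ} (hv : IsRoot A v) : IsRoot A (-v) := by
  induction hv with
  | simple i => rw [← refl_self hA]; exact IsRoot.refl i _ (IsRoot.simple i)
  | refl i v _ ih =>
    have : -refl A i v = refl A i (-v) := by
      rw [← reflL_apply, ← reflL_apply, map_neg]
    rw [this]
    exact IsRoot.refl i _ ih

theorem root_ne (hA : Fine A) {v : Fin n → ℤ} (hv : IsRoot A v) : v ≠ 0 := by
  have hne : Nonempty (Fin n) := by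
    cases hv with
    | simple i => exact ⟨i⟩
    | refl i _ _ => exact ⟨i⟩
  obtain ⟨i⟩ := hne
  intro h
  have := hA.mult v i hv (fun j _ => by rw [h]; rfl)
  rw [h] at this
  simp at this

theorem not_both (hA : Fine A) {v : Fin n → ℤ} (hv : IsRoot A v) (h1 : 0 ≤ v) (h2 : v ≤ 0) :
    False := root_ne hA hv (le_antisymm h2 h1)

theorem single_nonneg (i : Fin n) : 0 ≤ (Pi.single i 1 : Fin n → ℤ) := by
  rw [Pi.single_nonneg]; exact zero_le_one

/-- The place where the root becomes negative. -/
theorem place (hA : Fine A) (i : Fin n) (v : List (Fin n)) (hv : act A v (Pi.single i 1) ≤ 0) :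
    ∃ a j b, v = a ++ j :: b ∧ 0 ≤ act A b (Pi.single i 1) ∧
      refl A j (act A b (Pi.single i 1)) ≤ 0 := by
  induction v with
  | nil => exact (not_both hA (IsRoot.simple i) (single_nonneg i) hv).elim
  | cons j b ih =>
    rcases hA.sign _ (root_act (IsRoot.simple i) b) with h | h
    · exact ⟨[], j, b, rfl, h, hv⟩
    · obtain ⟨a, j', b', rfl, h1, h2⟩ := ih h
      exact ⟨j :: a, j', b', rfl, h1, h2⟩

theorem eq_single (hA : Fine A) {δ : Fin n → ℤ} (hδ : IsRoot A δ) (h0 : 0 ≤ δ) {j : Fin n}
    (h1 : refl A j δ ≤ 0) : δ = Pi.single j 1 := by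
  have hz : ∀ k, k ≠ j → δ k = 0 := by
    intro k hk
    have e1 := h1 k
    rw [refl_apply_ne hk] at e1
    exact le_antisymm e1 (h0 k)
  have hj : δ j = 1 := by
    rcases hA.mult δ j hδ hz with h | h
    · exact h
    · have := h0 j
      rw [h] at this
      simp at this
  funext k
  by_cases hk : k = j
  · subst hk; rw [hj, Pi.single_eq_same]
  · rw [hz k hk, Pi.single_eq_of_ne hk]

/-- Two reflections with the same root agree. -/
theorem swap (hA : Fine A) {i j : Fin n} {b : List (Fin n)}
    (hb : act A b (Pi.single i 1) = Pi.single j 1) (x : Fin n → ℤ) :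
    refl A j (act A b x) = act A b (refl A i x) := by
  set T : (Fin n → ℤ) →ₗ[ℤ] (Fin n → ℤ) :=
    (actL A b).comp ((reflL A i).comp (actL A b.reverse)) with hT
  have hTx : ∀ x, T x = x - (∑ k, act A b.reverse x k * A k i) •
      (Pi.single j 1 : Fin n → ℤ) := by
    intro x
    have e1 : T x = actL A b (reflL A i (actL A b.reverse x)) := rfl
    rw [e1, actL_apply b.reverse, reflL_apply, refl_def, map_sub, map_smul, actL_apply,
      actL_apply, act_rev' hA, hb]
  have hTj : T (Pi.single j 1) = -(Pi.single j 1 : Fin n → ℤ) := by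
    rw [hTx, ← hb, act_rev hA, coef_single, hA.diag, two_smul]; abel
  have hTroot : ∀ x, IsRoot A x → IsRoot A (T x) := by
    intro x hx
    have e1 : T x = act A b (refl A i (act A b.reverse x)) := by
      have : T x = actL A b (reflL A i (actL A b.reverse x)) := rfl
      rw [this, actL_apply b.reverse, reflL_apply, actL_apply]
    rw [e1]
    exact root_act (IsRoot.refl i _ (root_act hx _)) _
  -- the product
  set l : (Fin n → ℤ) → ℤ := fun x => ∑ k, act A b.reverse x k * A k i - ∑ k, x k * A k j with hl
  have hU : ∀ x, refl A j (T x) = x + l x • (Pi.single j 1 : Fin n → ℤ) := by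
    intro x
    rw [← reflL_apply, hTx, map_sub, map_smul, reflL_apply, reflL_apply, refl_self hA, refl_def,
      hl]
    simp only [sub_smul, smul_neg]
    abel
  have hlj : l (Pi.single j 1) = 0 := by
    have h1 := hU (Pi.single j 1)
    rw [hTj, ← reflL_apply, map_neg, reflL_apply, refl_self hA, neg_neg] at h1
    have h2 := congrFun h1 j
    rw [Pi.add_apply, Pi.smul_apply, Pi.single_eq_same] at h2
    simp at h2
    linarith
  have hladd : ∀ x (c : ℤ), l (x + c • (Pi.single j 1 : Fin n → ℤ)) = l x := by
    intro x c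
    have e1 : act A b.reverse (x + c • (Pi.single j 1 : Fin n → ℤ)) =
        act A b.reverse x + c • act A b.reverse (Pi.single j 1) := by
      rw [← actL_apply, map_add, map_smul, actL_apply, actL_apply]
    have e2 : l (x + c • (Pi.single j 1 : Fin n → ℤ)) = l x + c * l (Pi.single j 1) := by
      simp only [hl]
      rw [e1, coef_add, coef_add, coef_smul, coef_smul]
      ring
    rw [e2, hlj, mul_zero, add_zero]
  have hroot : ∀ x, IsRoot A x → ∀ k : ℕ,
      IsRoot A (x + ((k : ℤ) * l x) • (Pi.single j 1 : Fin n → ℤ)) := by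
    intro x hx k
    induction k with
    | zero => simpa using hx
    | succ k ih =>
      have h1 := IsRoot.refl j _ (hTroot _ ih)
      rw [hU, hladd, add_assoc, ← add_smul] at h1
      have e : ((k : ℤ) * l x + l x) = (((k + 1 : ℕ) : ℤ) * l x) := by push_cast; ring
      rwa [e] at h1
  have hl0 : ∀ x, IsRoot A x → l x = 0 := by
    intro x hx
    by_contra hne
    have hinj : Function.Injective
        (fun k : ℕ => x + ((k : ℤ) * l x) • (Pi.single j 1 : Fin n → ℤ)) := by
      intro k k' hk
      have h1 := congrFun hk j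
      simp only [Pi.add_apply, Pi.smul_apply, Pi.single_eq_same, smul_eq_mul, mul_one,
        add_right_inj] at h1
      exact_mod_cast mul_right_cancel₀ hne h1
    exact Set.infinite_of_injective_forall_mem hinj (hroot x hx) hA.fin
  have hTl : T = reflL A j := by
    apply LinearMap.pi_ext'
    intro m
    apply LinearMap.ext_ring
    show T (Pi.single m 1) = refl A j (Pi.single m 1)
    have h1 := hU (Pi.single m 1)
    rw [hl0 _ (IsRoot.simple m), zero_smul, add_zero] at h1
    have h2 := refl_refl hA j (T (Pi.single m 1))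
    rw [h1] at h2
    exact h2.symm
  have e1 : T (act A b x) = act A b (refl A i x) := by
    have : T (act A b x) = actL A b (reflL A i (actL A b.reverse (act A b x))) := rfl
    rw [this, actL_apply b.reverse, act_rev hA, reflL_apply, actL_apply]
  rw [← e1, hTl, reflL_apply]

/-- A word with all simple roots of `S` mapped to nonnegative roots acts trivially. -/
theorem triv (hA : Fine A) (S : Set (Fin n)) : ∀ (m : ℕ) (v : List (Fin n)), v.length = m →
    (∀ i ∈ v, i ∈ S) → (∀ i ∈ S, 0 ≤ act A v (Pi.single i 1)) → ∀ x, act A v x = x := by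
  intro m
  induction m using Nat.strong_induction_on with
  | _ m IH =>
    intro v hm hvS hpos x
    rcases List.eq_nil_or_concat v with h | ⟨v₁, i, h⟩
    · rw [h]; rfl
    · rw [List.concat_eq_append] at h
      subst h
      have hiS : i ∈ S := hvS i (by simp)
      have h1 := hpos i hiS
      rw [act_append, act_single, refl_self hA, act_neg] at h1
      have h2 : act A v₁ (Pi.single i 1) ≤ 0 := by
        have := neg_nonneg.mp h1
        exact this
      obtain ⟨a, j, b, rfl, hb0, hb1⟩ := place hA i v₁ h2
      have hδ := eq_single hA (root_act (IsRoot.simple i) b) hb0 hb1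
      have hact : ∀ y, act A (a ++ j :: b ++ [i]) y = act A (a ++ b) y := by
        intro y
        rw [act_append, act_append, act_single, act_cons, swap hA hδ, refl_refl hA, act_append]
      rw [hact]
      apply IH (a ++ b).length _ (a ++ b) rfl
      · intro k hk
        apply hvS
        simp only [List.mem_append, List.mem_cons] at hk ⊢
        tauto
      · intro k hk
        rw [← hact]
        exact hpos k hk
      · rw [← hm]
        simp only [List.length_append, List.length_cons, List.length_nil]
        omega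

end Uniq

/-- TARGET -/
theorem uniq {n : ℕ} (A : Matrix (Fin n) (Fin n) ℤ) (hA : Fine A) (S : Set (Fin n))
    (w w' : (Fin n → ℤ) → (Fin n → ℤ)) (hw : Longest A S w) (hw' : Longest A S w') :
    w = w' := by
  obtain ⟨⟨u, huS, rfl⟩, hw⟩ := hw
  obtain ⟨⟨u', huS', rfl⟩, hw'⟩ := hw'
  have hrev : ∀ i ∈ u.reverse, i ∈ S := fun i hi => huS i (List.mem_reverse.mp hi)
  have htriv := Uniq.triv hA S _ (u.reverse ++ u') rfl (by
    intro i hi
    rcases List.mem_append.mp hi with h | h
    · exact hrev i h
    · exact huS' i h) (by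
    intro i hi
    rw [Uniq.act_append]
    set γ := act A u' (Pi.single i 1) with hγ
    have hγr : IsRoot A γ := Uniq.root_act (IsRoot.simple i) u'
    have hγS : ∀ k, k ∉ S → γ k = 0 := by
      intro k hk
      rw [hγ, Uniq.act_out huS' hk, Pi.single_eq_of_ne]
      intro h; exact hk (h ▸ hi)
    have hγ0 : γ ≤ 0 := hw' _ (IsRoot.simple i) (Uniq.single_nonneg i) (by
      intro k hk
      rw [Pi.single_eq_of_ne]
      intro h; exact hk (h ▸ hi))
    rcases hA.sign _ (Uniq.root_act hγr u.reverse) with h | h
    · exact h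
    · exfalso
      have h1 := hw (-act A u.reverse γ) (Uniq.root_neg hA (Uniq.root_act hγr u.reverse))
        (neg_nonneg.mpr h) (by
          intro k hk
          rw [Pi.neg_apply, Uniq.act_out hrev hk, hγS k hk, neg_zero])
      rw [Uniq.act_neg, Uniq.act_rev' hA] at h1
      exact Uniq.not_both hA hγr (neg_nonpos.mp h1) hγ0)
  funext x
  have h1 := htriv x
  rw [Uniq.act_append] at h1
  have h2 := Uniq.act_rev' hA u (act A u' x)
  rw [h1] at h2
  exact h2

end Pool.Agent.Helper282_TM
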