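import Pool.Agent.Helper282_TM.Count
import Pool.Agent.Helper282_TM.Uniq
import Pool.Agent.Helper282_TM.Gen

/-!
# A verified algorithm for a given Cartan matrix (MP_1283eb_co)

A vector is a list of integers, its code is the integer with the digits `v_i` in base 16.
-/

set_option autoImplicit false

namespace Pool.Agent.Helper282_TM

open Finset

/-! ### The algorithm -/

/-- `v ≤ w` for lists -/
def leV : List ℤ → List ℤ → Bool
  | [], [] => true
  | a :: as, b :: bs => decide (a ≤ b) && leV as bs
  | _, _ => false

/-- `v = w` for lists -/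
def eqV : List ℤ → List ℤ → Bool
  | [], [] => true
  | a :: as, b :: bs => decide (a = b) && eqV as bs
  | _, _ => false

/-- the code of a vector -/
def phi : List ℤ → ℤ
  | [] => 0
  | a :: as => a + 16 * phi as

/-- the mask of the elements above `v` -/
def upm (v : List ℤ) : List (List ℤ) → ℕ → ℕ
  | [], _ => 0
  | u :: us, b => (bif leV v u then b else 0) + upm v us (2 * b)

/-- the bit of `x` -/
def bitIdx (x : ℤ) : List ℤ → ℕ → ℕ
  | [], _ => 0
  | u :: us, b => bif decide (x = u) then b else bitIdx x us (2 * b)

def dot : List ℤ → List ℤ → ℤ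
  | a :: as, b :: bs => a * b + dot as bs
  | _, _ => 0

def trip (all : List (List ℤ)) (codes : List ℤ) (M : List ℤ) :
    List (List ℤ) → ℕ → List (ℕ × ℕ × ℕ)
  | [], _ => []
  | v :: rest, b => (upm v all 1 - b, b, bitIdx (dot v M) codes 1) :: trip all codes M rest (2 * b)

/-- the codes of the images of the simple roots under `w s_i`, from those under `w` -/
def step (cols : List (List ℤ)) (i : ℕ) (M : List ℤ) : List ℤ :=
  List.zipWith (fun x c => x - c * M.getD i 0) M (cols.getD i [])

/-- the codes of the images of the simple roots under the longest element -/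
def grow (cols : List (List ℤ)) (S : List ℕ) : ℕ → List ℤ → List ℤ
  | 0, M => M
  | f + 1, M => match S.find? (fun i => decide (0 < M.getD i 0)) with
    | none => M
    | some i => grow cols S f (step cols i M)

/-- the simple root as a list -/
def sim (n i : ℕ) : List ℤ := (List.range n).map fun j => if i = j then 1 else 0

/-- the codes of the simple roots -/
def idM (n : ℕ) : List ℤ := (List.range n).map fun i => 16 ^ i

def isNeg (M : List ℤ) (S : List ℕ) : Bool :=
  S.all fun i => decide (M.getD i 0 ≤ 0)

def reflL (cols : List (List ℤ)) (i : ℕ) (l : List ℤ) : List ℤ :=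
  l.set i (l.getD i 0 - dot l (cols.getD i []))

def memL (x : List ℤ) (L : List (List ℤ)) : Bool := L.any (eqV x)

def isSim (n : ℕ) (v : List ℤ) : Bool := (List.range n).any fun i => eqV v (sim n i)

def reach (n : ℕ) (cols : List (List ℤ)) : List (List ℤ) → List (List ℤ) → Bool
  | _, [] => true
  | done, v :: rest => (isSim n v || (List.range n).any fun i =>
      decide (0 < dot v (cols.getD i [])) && memL (reflL cols i v) done) &&
      reach n cols (v :: done) rest

def nodupZ : List ℤ → Bool
  | [] => true
  | v :: rest => !(rest.any fun x => decide (v = x)) && nodupZ rest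

/-- the support as a mask -/
def supL : List ℤ → ℕ → ℕ
  | [], _ => 0
  | a :: as, b => (bif decide (a = 0) then 0 else b) + supL as (2 * b)

/-- the elements of `PS` -/
def psl (R : List (ℕ × ℤ × List ℤ)) (c a : ℕ) : List (ℕ × ℤ × List ℤ) :=
  R.filter fun p => Nat.beq (Nat.land p.1 c) p.1 && decide (p.2.2.getD a 0 = 1)

noncomputable def chkCA (R : List (ℕ × ℤ × List ℤ)) (M : List ℤ) (c a : ℕ) : Bool :=
  let Q := psl R (c + 2 ^ a) a
  let L := Q.map fun p => p.2.2
  let D := trip L (Q.map fun p => p.2.1) M L 1
  (D.all fun t => Nat.blt t.1 t.2.1 && !(Nat.beq t.2.2 0)) &&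
  (let t := T (2 ^ (L.length + 2)) (2 ^ L.length - 1) D 0 0 false
   Nat.beq (Nat.mod t (2 ^ (L.length + 2))) (Nat.div t (2 ^ (L.length + 2))))

noncomputable def chkC (n : ℕ) (cols : List (List ℤ)) (R : List (ℕ × ℤ × List ℤ)) (c : ℕ) : Bool :=
  let Sl := (List.range n).filter (Nat.testBit c)
  let M := grow cols Sl 64 (idM n)
  (List.range n).all fun a => Nat.testBit c a || (isNeg M Sl && chkCA R M c a)

/-- the checks on the list of positive roots -/
def chkR (n : ℕ) (cols : List (List ℤ)) (R : List (ℕ × ℤ × List ℤ)) : Bool :=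
  (R.all fun p => Nat.beq p.2.2.length n && Nat.beq (supL p.2.2 1) p.1 &&
    decide (phi p.2.2 = p.2.1) && (p.2.2.all fun x => decide (0 ≤ x)) &&
    (List.range n).all fun i => (decide (dot p.2.2 (cols.getD i []) = 0) ||
        memL (reflL cols i p.2.2) (R.map fun p => p.2.2) || eqV p.2.2 (sim n i)) &&
      (!(Nat.beq p.1 (2 ^ i)) || decide (p.2.2.getD i 0 = 1))) &&
  ((List.range n).all fun i => memL (sim n i) (R.map fun p => p.2.2)) &&
  reach n cols [] (R.map fun p => p.2.2).reverse && nodupZ (R.map fun p => p.2.1)

end Pool.Agent.Helper282_TM
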