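import Pool.Agent.Helper282_TM.Exc

/-!
# Soundness of the algorithm (MP_1283eb_co)
-/

set_option autoImplicit false

namespace Pool.Agent.Helper282_TM

open Finset

/-- the vector of a list -/
def vec (n : ℕ) (l : List ℤ) : Fin n → ℤ := fun i => l.getD i 0

theorem eqV_iff (l l' : List ℤ) : eqV l l' = true ↔ l = l' := by
  induction l generalizing l' with
  | nil => cases l' <;> simp [eqV]
  | cons a l ih => cases l' <;> simp [eqV, ih]

theorem vec_inj {n : ℕ} {l l' : List ℤ} (h : l.length = n) (h' : l'.length = n)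
    (he : vec n l = vec n l') : l = l' := by
  apply List.ext_getElem (by omega)
  intro i h1 h2
  have := congrFun he ⟨i, by omega⟩
  simp only [vec] at this
  rwa [List.getD_eq_getElem _ _ h1, List.getD_eq_getElem _ _ h2] at this

theorem leV_iff (l l' : List ℤ) (h : l.length = l'.length) :
    leV l l' = true ↔ ∀ i < l.length, l.getD i 0 ≤ l'.getD i 0 := by
  induction l generalizing l' with
  | nil =>
    cases l' with
    | nil => simp [leV]
    | cons b l' => simp at h
  | cons a l ih =>
    cases l' with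
    | nil => simp at h
    | cons b l' =>
      simp only [leV, Bool.and_eq_true, decide_eq_true_eq, List.length_cons]
      rw [ih l' (by simpa using h)]
      constructor
      · rintro ⟨h1, h2⟩ i hi
        cases i with
        | zero => simpa using h1
        | succ i => simpa using h2 i (by omega)
      · intro h1
        refine ⟨by simpa using h1 0 (by omega), fun i hi => ?_⟩
        simpa using h1 (i + 1) (by omega)

theorem leV_vec {n : ℕ} {l l' : List ℤ} (h : l.length = n) (h' : l'.length = n) :
    leV l l' = true ↔ vec n l ≤ vec n l' := by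
  rw [leV_iff l l' (by omega), h]
  constructor
  · intro h1 i
    exact h1 i i.isLt
  · intro h1 i hi
    exact h1 ⟨i, hi⟩

theorem dot_eq (n : ℕ) (l c : List ℤ) (h : l.length = n) (h' : c.length = n) :
    dot l c = ∑ k : Fin n, vec n l k * vec n c k := by
  induction n generalizing l c with
  | zero =>
    have : l = [] := List.length_eq_zero_iff.mp h
    subst this
    simp [dot]
  | succ n ih =>
    cases l with
    | nil => simp at h
    | cons a l =>
      cases c with
      | nil => simp at h'
      | cons b c =>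
        rw [Fin.sum_univ_succ]
        simp only [dot, vec]
        rw [ih l c (by simpa using h) (by simpa using h')]
        simp [vec]

/-- the data of the Cartan matrix -/
structure ColsOK (n : ℕ) (A : Matrix (Fin n) (Fin n) ℤ) (cols : List (List ℤ)) : Prop where
  len : cols.length = n
  len' : ∀ i < n, (cols.getD i []).length = n
  ent : ∀ i k : Fin n, (cols.getD i []).getD k 0 = A k i

variable {n : ℕ} {A : Matrix (Fin n) (Fin n) ℤ} {cols : List (List ℤ)}

theorem length_reflL (i : ℕ) (l : List ℤ) : (reflL cols i l).length = l.length := by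
  simp [reflL]

theorem vec_reflL (hc : ColsOK n A cols) {l : List ℤ} (h : l.length = n) (i : Fin n) :
    vec n (reflL cols i l) = refl A i (vec n l) := by
  have hp : dot l (cols.getD i []) = pair A i (vec n l) := by
    rw [dot_eq n l _ h (hc.len' i i.isLt)]
    unfold pair
    refine Finset.sum_congr rfl fun k _ => ?_
    simp only [vec]
    rw [hc.ent i k]
  funext j
  by_cases hj : j = i
  · subst hj
    rw [refl_apply_self]
    simp only [vec, reflL]
    rw [List.getD_eq_getElem _ _ (by simp [h]), List.getElem_set_self, hp]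
  · rw [refl_apply_ne hj]
    have hj' : (i : ℕ) ≠ j := fun h => hj (Fin.ext h.symm)
    simp only [vec, reflL]
    rw [List.getD_eq_getElem _ _ (by simp [h]), List.getElem_set_ne hj']
    exact (List.getD_eq_getElem _ _ _).symm

theorem length_sim (n i : ℕ) : (sim n i).length = n := by simp [sim]

theorem vec_sim (i : Fin n) : vec n (sim n i) = Pi.single i 1 := by
  funext j
  simp only [vec, sim]
  rw [List.getD_eq_getElem _ _ (by simp)]
  simp only [List.getElem_map, List.getElem_range]
  by_cases h : j = i
  · subst h; simp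
  · have : (i : ℕ) ≠ j := fun h' => h (Fin.ext h'.symm)
    simp [h, this]

/-! ### Codes -/

/-- the code of a vector -/
def phiv (v : Fin n → ℤ) : ℤ := ∑ i : Fin n, v i * 16 ^ (i : ℕ)

theorem phiv_sub (v w : Fin n → ℤ) : phiv (v - w) = phiv v - phiv w := by
  simp [phiv, sub_mul, Finset.sum_sub_distrib]

theorem phiv_smul (c : ℤ) (v : Fin n → ℤ) : phiv (c • v) = c * phiv v := by
  simp [phiv, mul_assoc, Finset.mul_sum]

theorem phiv_sum {ι : Type*} (s : Finset ι) (f : ι → Fin n → ℤ) :
    phiv (∑ x ∈ s, f x) = ∑ x ∈ s, phiv (f x) := by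
  unfold phiv
  rw [Finset.sum_comm]
  refine Finset.sum_congr rfl fun i _ => ?_
  rw [Finset.sum_apply, Finset.sum_mul]

theorem phiv_single (i : Fin n) : phiv (Pi.single i 1 : Fin n → ℤ) = 16 ^ (i : ℕ) := by
  simp [phiv, Pi.single_apply]

theorem phiv_pos {v : Fin n → ℤ} (h : 0 ≤ v) (hv : v ≠ 0) : 0 < phiv v := by
  have h1 : ∀ i ∈ (Finset.univ : Finset (Fin n)), 0 ≤ v i * 16 ^ (i : ℕ) := fun i _ =>
    mul_nonneg (h i) (by positivity)
  obtain ⟨i, hi⟩ : ∃ i, v i ≠ 0 := by
    by_contra hcon
    push Not at hcon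
    exact hv (funext hcon)
  have h2 : 0 < v i * 16 ^ (i : ℕ) :=
    mul_pos (lt_of_le_of_ne (h i) (Ne.symm hi)) (by positivity)
  exact lt_of_lt_of_le h2 (Finset.single_le_sum h1 (Finset.mem_univ i))

theorem phi_eq (n : ℕ) (l : List ℤ) (h : l.length = n) : phi l = phiv (vec n l) := by
  induction n generalizing l with
  | zero =>
    have : l = [] := List.length_eq_zero_iff.mp h
    subst this
    simp [phi, phiv]
  | succ n ih =>
    cases l with
    | nil => simp at h
    | cons a l =>
      unfold phiv
      rw [Fin.sum_univ_succ]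
      simp only [phi]
      rw [ih l (by simpa using h)]
      unfold phiv
      rw [Finset.mul_sum]
      congr 1
      · simp [vec]
      · refine Finset.sum_congr rfl fun i _ => ?_
        simp only [vec, Fin.val_succ, List.getD_cons_succ, pow_succ]
        ring

/-! ### The growth -/

/-- `M` lists the codes of the images of the simple roots -/
def Rep (A : Matrix (Fin n) (Fin n) ℤ) (u : List (Fin n)) (M : List ℤ) : Prop :=
  M.length = n ∧ ∀ j : Fin n, M.getD j 0 = phiv (act A u (Pi.single j 1))

theorem rep_idM : Rep A [] (idM n) := by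
  refine ⟨by simp [idM], ?_⟩
  intro j
  unfold idM
  rw [List.getD_eq_getElem _ _ (by simp)]
  simp only [List.getElem_map, List.getElem_range]
  rw [act_nil, phiv_single]

theorem rep_step (hc : ColsOK n A cols) {u : List (Fin n)} {M : List ℤ} (h : Rep A u M)
    (i : Fin n) : Rep A (u ++ [i]) (step cols i M) := by
  obtain ⟨h1, h3⟩ := h
  have hci := hc.len' i i.isLt
  refine ⟨?_, ?_⟩
  · unfold step
    rw [List.length_zipWith, h1, hci, min_self]
  · intro j
    have hj := j.isLt
    unfold step
    rw [List.getD_eq_getElem _ _ (by rw [List.length_zipWith]; omega), List.getElem_zipWith,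
      ← List.getD_eq_getElem M 0 (by omega : (j : ℕ) < M.length),
      ← List.getD_eq_getElem (cols.getD i []) 0 (by omega : (j : ℕ) < (cols.getD i []).length),
      h3 j, h3 i, hc.ent i j, act_append, act_cons, act_nil, refl_eq, pair_single, act_sub,
      act_smul, phiv_sub, phiv_smul]

theorem rep_grow (hc : ColsOK n A cols) (S : Set (Fin n)) (Sl : List ℕ)
    (hS : ∀ i ∈ Sl, ∃ h : i < n, (⟨i, h⟩ : Fin n) ∈ S) (f : ℕ) :
    ∀ (u : List (Fin n)) (M : List ℤ), Rep A u M → (∀ i ∈ u, i ∈ S) →
      ∃ u' : List (Fin n), (∀ i ∈ u', i ∈ S) ∧ Rep A u' (grow cols Sl f M) := by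
  induction f with
  | zero => intro u M h hu; exact ⟨u, hu, h⟩
  | succ f ih =>
    intro u M h hu
    rw [grow]
    cases hfind : Sl.find? (fun i => decide (0 < M.getD i 0)) with
    | none => exact ⟨u, hu, h⟩
    | some i =>
      obtain ⟨hi, hiS⟩ := hS i (List.mem_of_find?_eq_some hfind)
      refine ih (u ++ [⟨i, hi⟩]) _ (rep_step hc h ⟨i, hi⟩) ?_
      intro j hj
      rcases List.mem_append.mp hj with h1 | h1
      · exact hu j h1
      · rw [List.mem_singleton.mp h1]; exact hiS

theorem act_code {u : List (Fin n)} {M : List ℤ} (h : Rep A u M) {l : List ℤ}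
    (hl : l.length = n) : phiv (act A u (vec n l)) = dot l M := by
  obtain ⟨h1, h3⟩ := h
  rw [dot_eq n l M hl h1, act_eq_sum, phiv_sum]
  refine Finset.sum_congr rfl fun j _ => ?_
  rw [phiv_smul, ← h3 j]
  rfl

/-! ### Masks -/

theorem bitIdx_spec (x : ℤ) (L : List ℤ) (s : ℕ) (h : bitIdx x L (2 ^ s) ≠ 0) :
    ∃ i, i < L.length ∧ L.getD i 0 = x ∧ bitIdx x L (2 ^ s) = 2 ^ (s + i) := by
  induction L generalizing s with
  | nil => simp [bitIdx] at h
  | cons u L ih =>
    by_cases he : x = u
    · refine ⟨0, by simp, ?_, ?_⟩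
      · simpa using he.symm
      · simp only [bitIdx]
        rw [decide_eq_true he]; simp
    · have e1 : bitIdx x (u :: L) (2 ^ s) = bitIdx x L (2 ^ (s + 1)) := by
        simp only [bitIdx]
        rw [decide_eq_false he, cond_false, pow_succ, mul_comm]
      rw [e1] at h ⊢
      obtain ⟨i, h1, h2, h3⟩ := ih (s + 1) h
      refine ⟨i + 1, by simp [h1], by simpa using h2, ?_⟩
      rw [h3]
      congr 1
      omega

theorem upm_eq (v : List ℤ) (L : List (List ℤ)) (s : ℕ) :
    upm v L (2 ^ s) = ∑ j ∈ (range L.length).filter (fun j => leV v (L.getD j []) = true),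
      2 ^ (s + j) := by
  induction L generalizing s with
  | nil => simp [upm]
  | cons u L ih =>
    have e1 : upm v (u :: L) (2 ^ s) = (bif leV v u then 2 ^ s else 0) + upm v L (2 ^ (s + 1)) := by
      simp only [upm]
      rw [pow_succ, mul_comm 2 (2 ^ s)]
    rw [e1, ih, Finset.sum_filter, Finset.sum_filter, List.length_cons, Finset.sum_range_succ']
    rw [add_comm]
    congr 1
    · refine Finset.sum_congr rfl fun j _ => ?_
      simp only [List.getD_cons_succ]
      split_ifs
      · congr 1; omega
      · rfl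
    · simp only [List.getD_cons_zero]
      by_cases h : leV v u = true
      · rw [h]; simp
      · rw [Bool.not_eq_true] at h
        rw [h]; simp

theorem memL_iff (x : List ℤ) (L : List (List ℤ)) : memL x L = true ↔ x ∈ L := by
  unfold memL
  rw [List.any_eq_true]
  constructor
  · rintro ⟨y, hy, h⟩
    rw [(eqV_iff x y).mp h]; exact hy
  · intro h
    exact ⟨x, h, (eqV_iff x x).mpr rfl⟩

theorem nodupZ_iff (L : List ℤ) : nodupZ L = true ↔ L.Nodup := by
  induction L with
  | nil => simp [nodupZ]
  | cons v L ih =>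
    rw [nodupZ, Bool.and_eq_true, ih, List.nodup_cons, Bool.not_eq_true', ← Bool.not_eq_true,
      List.any_eq_true]
    refine and_congr_left fun _ => not_congr ⟨?_, fun h => ⟨v, h, by simp⟩⟩
    rintro ⟨x, hx, h⟩
    rw [of_decide_eq_true h]
    exact hx

theorem reach_sound (hc : ColsOK n A cols) (hd : ∀ i, A i i = 2) (rest : List (List ℤ)) :
    ∀ done : List (List ℤ), (∀ v ∈ done, IsRoot A (vec n v)) → (∀ v ∈ rest, v.length = n) →
      reach n cols done rest = true → ∀ v ∈ rest, IsRoot A (vec n v) := by
  induction rest with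
  | nil => intro _ _ _ _ v hv; simp at hv
  | cons v rest ih =>
    intro done hdone hlen h
    rw [reach, Bool.and_eq_true, Bool.or_eq_true] at h
    have hv : IsRoot A (vec n v) := by
      rcases h.1 with h1 | h1
      · unfold isSim at h1
        rw [List.any_eq_true] at h1
        obtain ⟨i, hi, h2⟩ := h1
        rw [List.mem_range] at hi
        rw [(eqV_iff _ _).mp h2]
        have := vec_sim (⟨i, hi⟩ : Fin n)
        simp only at this
        rw [this]
        exact IsRoot.simple _
      · rw [List.any_eq_true] at h1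
        obtain ⟨i, hi, h2⟩ := h1
        rw [List.mem_range] at hi
        rw [Bool.and_eq_true] at h2
        have h3 := hdone _ ((memL_iff _ _).mp h2.2)
        have h4 := vec_reflL hc (hlen v List.mem_cons_self) ⟨i, hi⟩
        simp only at h4
        rw [h4] at h3
        have := IsRoot.refl (⟨i, hi⟩ : Fin n) _ h3
        rwa [refl_refl hd] at this
    intro w hw
    rcases List.mem_cons.mp hw with rfl | hw
    · exact hv
    · refine ih (v :: done) ?_ (fun x hx => hlen x (List.mem_cons_of_mem _ hx)) h.2 w hw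
      intro x hx
      rcases List.mem_cons.mp hx with rfl | hx
      · exact hv
      · exact hdone x hx

theorem supL_spec (l : List ℤ) (s : ℕ) :
    supL l (2 ^ s) = ∑ i ∈ (range l.length).filter (fun i => l.getD i 0 ≠ 0), 2 ^ (s + i) := by
  induction l generalizing s with
  | nil => simp [supL]
  | cons a l ih =>
    have e1 : supL (a :: l) (2 ^ s) = (bif decide (a = 0) then 0 else 2 ^ s) +
        supL l (2 ^ (s + 1)) := by
      simp only [supL]
      rw [pow_succ, mul_comm 2 (2 ^ s)]
    rw [e1, ih, Finset.sum_filter, Finset.sum_filter, List.length_cons, Finset.sum_range_succ',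
      add_comm]
    congr 1
    · refine Finset.sum_congr rfl fun j _ => ?_
      simp only [List.getD_cons_succ]
      split_ifs
      · congr 1; omega
      · rfl
    · simp only [List.getD_cons_zero]
      by_cases h : a = 0
      · simp [h]
      · simp [h]

theorem supL_bs (l : List ℤ) :
    supL l 1 = bs ((range l.length).filter (fun i => l.getD i 0 ≠ 0)) := by
  have := supL_spec l 0
  simpa [bs] using this

/-- the consequences of the check of the list of positive roots -/
structure ROK (n : ℕ) (A : Matrix (Fin n) (Fin n) ℤ) (R : List (ℕ × ℤ × List ℤ)) : Prop where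
  len : ∀ p ∈ R, p.2.2.length = n
  sup : ∀ p ∈ R, p.1 = bs ((range n).filter (fun i => p.2.2.getD i 0 ≠ 0))
  code : ∀ p ∈ R, phi p.2.2 = p.2.1
  nonneg : ∀ p ∈ R, 0 ≤ vec n p.2.2
  root : ∀ p ∈ R, IsRoot A (vec n p.2.2)
  all : ∀ v, IsRoot A v → ∃ p ∈ R, v = vec n p.2.2 ∨ v = - vec n p.2.2
  one : ∀ p ∈ R, ∀ i : Fin n, (∀ j, j ≠ i → vec n p.2.2 j = 0) → vec n p.2.2 i = 1
  nodup : (R.map fun p => p.2.1).Nodup

theorem rok_of_chkR (hc : ColsOK n A cols) (hd : ∀ i, A i i = 2) {R : List (ℕ × ℤ × List ℤ)}
    (h : chkR n cols R = true) : ROK n A R := by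
  unfold chkR at h
  simp only [Bool.and_eq_true, List.all_eq_true, Bool.or_eq_true, List.mem_range] at h
  obtain ⟨⟨⟨h1, h2⟩, h3⟩, h4⟩ := h
  have hlen : ∀ p ∈ R, p.2.2.length = n := fun p hp => Nat.beq_eq.mp (h1 p hp).1.1.1.1
  have hcode : ∀ p ∈ R, phi p.2.2 = p.2.1 := fun p hp => of_decide_eq_true (h1 p hp).1.1.2
  have hnn : ∀ p ∈ R, 0 ≤ vec n p.2.2 := by
    intro p hp i
    have h5 := (h1 p hp).1.2
    simp only [vec, Pi.zero_apply]
    rw [List.getD_eq_getElem _ _ (by rw [hlen p hp]; exact i.isLt)]
    exact of_decide_eq_true (h5 _ (List.getElem_mem _))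
  have hsup : ∀ p ∈ R, p.1 = bs ((range n).filter (fun i => p.2.2.getD i 0 ≠ 0)) := by
    intro p hp
    have h5 := Nat.beq_eq.mp (h1 p hp).1.1.1.2
    rw [← h5, supL_bs, hlen p hp]
  have hroot : ∀ p ∈ R, IsRoot A (vec n p.2.2) := by
    intro p hp
    refine reach_sound hc hd _ [] (by simp) ?_ h3 p.2.2 ?_
    · intro v hv
      rw [List.mem_reverse, List.mem_map] at hv
      obtain ⟨q, hq, rfl⟩ := hv
      exact hlen q hq
    · rw [List.mem_reverse]
      exact List.mem_map_of_mem (f := fun p : ℕ × ℤ × List ℤ => p.2.2) hp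
  refine ⟨hlen, hsup, hcode, hnn, hroot, ?_, ?_, (nodupZ_iff _).mp h4⟩
  · intro v hv
    induction hv with
    | simple i =>
      have h5 := (memL_iff _ _).mp (h2 i i.isLt)
      rw [List.mem_map] at h5
      obtain ⟨q, hq, h6⟩ := h5
      exact ⟨q, hq, Or.inl (by rw [h6, vec_sim])⟩
    | refl i v _ ih =>
      obtain ⟨p, hp, h5⟩ := ih
      have h6 : (∃ q ∈ R, refl A i (vec n p.2.2) = vec n q.2.2 ∨
          refl A i (vec n p.2.2) = - vec n q.2.2) := by
        rcases ((h1 p hp).2 i i.isLt).1 with (h7 | h7) | h7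
        · have h8 := of_decide_eq_true h7
          refine ⟨p, hp, Or.inl ?_⟩
          have hpz : pair A i (vec n p.2.2) = 0 := by
            rw [dot_eq n _ _ (hlen p hp) (hc.len' i i.isLt)] at h8
            rw [← h8]
            unfold pair
            refine Finset.sum_congr rfl fun k _ => ?_
            simp only [vec]
            rw [hc.ent i k]
          rw [refl_eq, hpz, zero_smul, sub_zero]
        · have h8 := (memL_iff _ _).mp h7
          rw [List.mem_map] at h8
          obtain ⟨q, hq, h9⟩ := h8
          refine ⟨q, hq, Or.inl ?_⟩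
          rw [h9, vec_reflL hc (hlen p hp)]
        · have h8 := (eqV_iff _ _).mp h7
          refine ⟨p, hp, Or.inr ?_⟩
          rw [h8, vec_sim, refl_single_self hd]
      obtain ⟨q, hq, h7⟩ := h6
      refine ⟨q, hq, ?_⟩
      rcases h5 with h5 | h5 <;> rcases h7 with h7 | h7
      · left; rw [h5, h7]
      · right; rw [h5, h7]
      · right; rw [h5, refl_neg, h7]
      · left; rw [h5, refl_neg, h7, neg_neg]
  · intro p hp i hi
    have h5 := ((h1 p hp).2 i i.isLt).2
    rcases h5 with h5 | h5
    · exfalso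
      rw [Bool.not_eq_true', ← Bool.not_eq_true, Nat.beq_eq] at h5
      -- the support is contained in `{i}`; it is not empty since a root is not `0`
      have hne : vec n p.2.2 i ≠ 0 := by
        intro h0
        apply isRoot_ne_zero hd (hroot p hp)
        funext j
        by_cases hj : j = i
        · rw [hj, h0]; rfl
        · rw [hi j hj]; rfl
      apply h5
      rw [hsup p hp]
      have : (range n).filter (fun i => p.2.2.getD i 0 ≠ 0) = {(i : ℕ)} := by
        ext j
        rw [Finset.mem_filter, Finset.mem_range, Finset.mem_singleton]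
        constructor
        · rintro ⟨hj, hj0⟩
          by_contra hji
          exact hj0 (hi ⟨j, hj⟩ fun h => hji (by rw [← h]))
        · rintro rfl
          exact ⟨i.isLt, hne⟩
      rw [this]
      simp [bs]
    · exact of_decide_eq_true h5

theorem fine_of_rok (hd : ∀ i, A i i = 2) {R : List (ℕ × ℤ × List ℤ)} (hR : ROK n A R) :
    Fine A where
  diag := hd
  fin := by
    refine (((R.map fun p => vec n p.2.2) ++ (R.map fun p => - vec n p.2.2)).toFinset.finite_toSet).subset
      ?_
    intro v hv
    obtain ⟨p, hp, h⟩ := hR.all v hv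
    rw [Finset.mem_coe, List.mem_toFinset, List.mem_append, List.mem_map, List.mem_map]
    rcases h with h | h
    · exact Or.inl ⟨p, hp, h.symm⟩
    · exact Or.inr ⟨p, hp, h.symm⟩
  sign := by
    intro v hv
    obtain ⟨p, hp, h⟩ := hR.all v hv
    rcases h with h | h
    · left; rw [h]; exact hR.nonneg p hp
    · right; rw [h]; exact neg_nonpos.mpr (hR.nonneg p hp)
  mult := by
    intro v i hv h0
    obtain ⟨p, hp, h⟩ := hR.all v hv
    rcases h with h | h
    · left
      rw [h]
      refine hR.one p hp i fun j hj => ?_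
      rw [← h]; exact h0 j hj
    · right
      rw [h, Pi.neg_apply, hR.one p hp i fun j hj => ?_]
      have := h0 j hj
      rw [h, Pi.neg_apply] at this
      omega

theorem mem_psl {R : List (ℕ × ℤ × List ℤ)}
    (hsup : ∀ p ∈ R, p.1 = bs ((range n).filter (fun i => p.2.2.getD i 0 ≠ 0)))
    (S : Set (Fin n)) (C : Finset ℕ) (hC : ∀ i : Fin n, (i : ℕ) ∈ C ↔ i ∈ S) (a : Fin n)
    (ha : a ∉ S) (p : ℕ × ℤ × List ℤ) :
    p ∈ psl R (bs C + 2 ^ (a : ℕ)) a ↔ p ∈ R ∧ vec n p.2.2 a = 1 ∧
      ∀ i, i ∉ S → i ≠ a → vec n p.2.2 i = 0 := by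
  have haC : (a : ℕ) ∉ C := fun h => ha ((hC a).mp h)
  have hmask : bs C + 2 ^ (a : ℕ) = bs (insert (a : ℕ) C) := by
    unfold bs
    rw [Finset.sum_insert haC, add_comm]
  unfold psl
  rw [List.mem_filter, Bool.and_eq_true, decide_eq_true_eq]
  refine and_congr_right fun hp => ?_
  rw [and_comm]
  refine and_congr_right fun _ => ?_
  rw [Nat.beq_eq, hmask, hsup p hp, land_bs]
  constructor
  · intro h i hi hia
    by_contra h0
    have h1 : (i : ℕ) ∈ insert (a : ℕ) C :=
      h (Finset.mem_filter.mpr ⟨Finset.mem_range.mpr i.isLt, h0⟩)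
    rcases Finset.mem_insert.mp h1 with h2 | h2
    · exact hia (Fin.ext h2)
    · exact hi ((hC i).mp h2)
  · intro h i hi
    rw [Finset.mem_filter, Finset.mem_range] at hi
    rw [Finset.mem_insert]
    by_contra hcon
    push Not at hcon
    apply hi.2
    refine h ⟨i, hi.1⟩ (fun h1 => hcon.2 ((hC ⟨i, hi.1⟩).mpr h1)) fun h1 => hcon.1 ?_
    rw [← h1]

theorem trip_eq (all : List (List ℤ)) (codes M : List ℤ) (up : ℕ → Finset ℕ)
    (σ : ℕ → ℕ)
    (hup : ∀ k < all.length, upm (all.getD k []) all 1 - 2 ^ k = bs (up k))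
    (hσ : ∀ k < all.length, bitIdx (dot (all.getD k []) M) codes 1 = 2 ^ σ k) :
    ∀ (d k : ℕ), k + d = all.length →
      trip all codes M (all.drop k) (2 ^ k) = dat all.length up σ k := by
  intro d
  induction d with
  | zero =>
    intro k hk
    rw [List.drop_of_length_le (by omega)]
    simp [trip, dat, show all.length - k = 0 by omega]
  | succ d ih =>
    intro k hk
    have hk' : k < all.length := by omega
    rw [List.drop_eq_getElem_cons hk', dat_succ _ _ _ hk']
    simp only [trip]
    have e1 : all[k] = all.getD k [] := (List.getD_eq_getElem _ _ hk').symm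
    have e2 : 2 * 2 ^ k = 2 ^ (k + 1) := by rw [pow_succ, mul_comm]
    rw [e1, hup k hk', hσ k hk', e2, ih (k + 1) (by omega)]

theorem good_of_chkCA {R : List (ℕ × ℤ × List ℤ)} (hR : ROK n A R) (hd : ∀ i, A i i = 2)
    (S : Set (Fin n)) (C : Finset ℕ) (hC : ∀ i : Fin n, (i : ℕ) ∈ C ↔ i ∈ S) (a : Fin n)
    (ha : a ∉ S) {u : List (Fin n)} (hu : ∀ i ∈ u, i ∈ S) {M : List ℤ} (hM : Rep A u M)
    (h : chkCA R M (bs C) a = true) (P : Finset (Fin n → ℤ))
    (hP : ∀ v, v ∈ P ↔ v ∈ PS A S a) : Good (fun x y => x ≤ y) P (act A u) := by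
  classical
  unfold chkCA at h
  set Q := psl R (bs C + 2 ^ (a : ℕ)) a with hQ
  set L := Q.map (fun p => p.2.2) with hL
  set K := Q.map (fun p => p.2.1) with hK
  simp only [Bool.and_eq_true, List.all_eq_true] at h
  obtain ⟨h1, h2⟩ := h
  have hmem := mem_psl hR.sup S C hC a ha
  have hQR : ∀ p ∈ Q, p ∈ R := fun p hp => ((hmem p).mp hp).1
  have hlenL : ∀ l ∈ L, l.length = n := by
    intro l hl
    obtain ⟨p, hp, rfl⟩ := List.mem_map.mp hl
    exact hR.len p (hQR p hp)
  have hlenK : K.length = L.length := by simp [hL, hK]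
  have hnodup : K.Nodup := by
    rw [hK, hQ]
    unfold psl
    exact hR.nodup.sublist (List.Sublist.map _ List.filter_sublist)
  have hget : ∀ k < L.length, L.getD k [] ∈ L := by
    intro k hk
    rw [List.getD_eq_getElem _ _ hk]
    exact List.getElem_mem hk
  have hcodeK : ∀ k < L.length, K.getD k 0 = phiv (vec n (L.getD k [])) := by
    intro k hk
    have hk' : k < Q.length := by simpa [hL] using hk
    rw [List.getD_eq_getElem _ _ (by rw [hlenK]; exact hk), List.getD_eq_getElem _ _ hk]
    simp only [hK, hL, List.getElem_map]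
    rw [← phi_eq n _ (hR.len _ (hQR _ (List.getElem_mem hk')))]
    exact (hR.code _ (hQR _ (List.getElem_mem hk'))).symm
  have hidx : ∀ i < L.length, ∀ j < L.length, K.getD i 0 = K.getD j 0 → i = j := by
    intro i hi j hj hij
    rw [List.getD_eq_getElem _ _ (by omega), List.getD_eq_getElem _ _ (by omega)] at hij
    exact (hnodup.getElem_inj_iff).mp hij
  have hidx' : ∀ i < L.length, ∀ j < L.length,
      vec n (L.getD i []) = vec n (L.getD j []) → i = j := by
    intro i hi j hj hij
    refine hidx i hi j hj ?_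
    rw [hcodeK i hi, hcodeK j hj, hij]
  have hPS' : ∀ v, v ∈ PS A S a ↔ ∃ k < L.length, v = vec n (L.getD k []) := by
    intro v
    constructor
    · rintro ⟨h3, h4, h5⟩
      obtain ⟨p, hp, h6⟩ := hR.all v h3
      rcases h6 with rfl | rfl
      · have hpQ : p ∈ Q := (hmem p).mpr ⟨hp, h4, h5⟩
        obtain ⟨k, hk, rfl⟩ := List.getElem_of_mem hpQ
        refine ⟨k, by simpa [hL] using hk, ?_⟩
        rw [List.getD_eq_getElem _ _ (by simpa [hL] using hk)]
        simp [hL]
      · exfalso
        have := hR.nonneg p hp a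
        rw [Pi.neg_apply] at h4
        simp only [Pi.zero_apply] at this
        omega
    · rintro ⟨k, hk, rfl⟩
      obtain ⟨p, hp, h3⟩ := List.mem_map.mp (hget k hk)
      obtain ⟨h4, h5, h6⟩ := (hmem p).mp hp
      rw [← h3]
      exact ⟨hR.root p h4, h5, h6⟩
  let up : ℕ → Finset ℕ := fun k =>
    ((range L.length).filter fun j => leV (L.getD k []) (L.getD j []) = true).erase k
  have hle : ∀ k < L.length, ∀ j < L.length,
      (leV (L.getD k []) (L.getD j []) = true ↔ vec n (L.getD k []) ≤ vec n (L.getD j [])) :=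
    fun k hk j hj => leV_vec (hlenL _ (hget k hk)) (hlenL _ (hget j hj))
  have hupm : ∀ k < L.length, upm (L.getD k []) L 1 - 2 ^ k = bs (up k) := by
    intro k hk
    have e1 : upm (L.getD k []) L 1 =
        bs ((range L.length).filter fun j => leV (L.getD k []) (L.getD j []) = true) := by
      have := upm_eq (L.getD k []) L 0
      simpa [bs] using this
    have hkmem : k ∈ (range L.length).filter fun j => leV (L.getD k []) (L.getD j []) = true := by
      rw [Finset.mem_filter, Finset.mem_range]
      exact ⟨hk, (hle k hk k hk).mpr le_rfl⟩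
    rw [e1]
    unfold bs
    rw [← Finset.add_sum_erase _ _ hkmem, Nat.add_sub_cancel_left]
  -- the index of the image
  have hentry : ∀ k < L.length,
      (upm (L.getD k []) L 1 - 2 ^ k, 2 ^ k, bitIdx (dot (L.getD k []) M) K 1) ∈
        trip L K M L 1 := by
    have gen : ∀ (rest : List (List ℤ)) (s k : ℕ), k < rest.length →
        (upm (rest.getD k []) L 1 - 2 ^ (s + k), 2 ^ (s + k),
          bitIdx (dot (rest.getD k []) M) K 1) ∈ trip L K M rest (2 ^ s) := by
      intro rest
      induction rest with
      | nil => intro s k hk; simp at hk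
      | cons v rest ih =>
        intro s k hk
        simp only [trip, List.mem_cons]
        cases k with
        | zero => left; simp
        | succ k =>
          right
          have := ih (s + 1) k (by simpa using hk)
          have e2 : 2 * 2 ^ s = 2 ^ (s + 1) := by rw [pow_succ, mul_comm]
          rw [e2]
          have e3 : s + 1 + k = s + (k + 1) := by omega
          rw [e3] at this
          simpa using this
    intro k hk
    have := gen L 0 k hk
    simpa using this
  have hσex : ∀ k < L.length, ∃ i < L.length,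
      K.getD i 0 = dot (L.getD k []) M ∧
      bitIdx (dot (L.getD k []) M) K 1 = 2 ^ i := by
    intro k hk
    have h3 := h1 _ (hentry k hk)
    have h4 : bitIdx (dot (L.getD k []) M) K (2 ^ 0) ≠ 0 := by
      have h5 := h3.2
      rw [Bool.not_eq_true', ← Bool.not_eq_true, Nat.beq_eq] at h5
      simpa using h5
    obtain ⟨i, hi1, hi2, hi3⟩ := bitIdx_spec _ _ _ h4
    exact ⟨i, by omega, hi2, by simpa using hi3⟩
  let σ : ℕ → ℕ := fun k => if hk : k < L.length then (hσex k hk).choose else 0
  have hσ : ∀ k < L.length, σ k < L.length ∧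
      K.getD (σ k) 0 = dot (L.getD k []) M ∧
      bitIdx (dot (L.getD k []) M) K 1 = 2 ^ σ k := by
    intro k hk
    have : σ k = (hσex k hk).choose := dif_pos hk
    rw [this]
    exact (hσex k hk).choose_spec
  have hdat : trip L K M L 1 = dat L.length up σ 0 := by
    have := trip_eq L K M up σ hupm (fun k hk => (hσ k hk).2.2) L.length 0
      (by omega)
    simpa using this
  have hact : ∀ k < L.length, act A u (vec n (L.getD k [])) = vec n (L.getD (σ k) []) := by
    intro k hk
    have hv : vec n (L.getD k []) ∈ PS A S a := (hPS' _).mpr ⟨k, hk, rfl⟩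
    have hwv : act A u (vec n (L.getD k [])) ∈ PS A S a :=
      InW.mem_PS ⟨u, hu, rfl⟩ ha hv
    obtain ⟨j, hj, h3⟩ := (hPS' _).mp hwv
    have h4 : K.getD j 0 = K.getD (σ k) 0 := by
      rw [hcodeK j hj, ← h3, act_code hM (hlenL _ (hget k hk)), (hσ k hk).2.1]
    rw [h3, hidx j hj (σ k) (hσ k hk).1 h4]
  refine good_of_T L.length (2 ^ (L.length + 2)) (2 ^ L.length - 1) (fun k => vec n (L.getD k []))
    up σ ?_ ?_ ?_ ?_ (fun k hk => (hσ k hk).1) hact ?_ ?_ ?_ ?_
  · ext v
    rw [hP, hPS', Finset.mem_image]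
    constructor
    · rintro ⟨k, hk, rfl⟩
      exact ⟨k, Finset.mem_range.mpr hk, rfl⟩
    · rintro ⟨k, hk, rfl⟩
      exact ⟨k, Finset.mem_range.mp hk, rfl⟩
  · intro i hi j hj hij
    exact hidx' i hi j hj hij
  · intro k hk j hj
    have h3 := (h1 _ (hentry k hk)).1
    rw [Nat.blt_eq] at h3
    rw [hupm k hk] at h3
    rw [Finset.mem_range]
    by_contra hcon
    have h4 : 2 ^ j ≤ bs (up k) := by
      unfold bs
      exact Finset.single_le_sum (f := fun i => 2 ^ i) (fun i _ => Nat.zero_le _) hj
    have h5 : 2 ^ k ≤ 2 ^ j := Nat.pow_le_pow_right (by norm_num) (by omega)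
    simp only at h3
    omega
  · intro k hk j hj
    rw [← hle k hk j hj]
    simp only [up, Finset.mem_erase, Finset.mem_filter, Finset.mem_range]
    constructor
    · intro h3
      by_cases hjk : j = k
      · exact Or.inr hjk
      · exact Or.inl ⟨hjk, hj, h3⟩
    · rintro (h3 | rfl)
      · exact h3.2.2
      · exact (hle j hj j hj).mpr le_rfl
  · intro i hi j hj hij
    have h3 := hact i hi
    rw [hij, ← hact j hj] at h3
    exact hidx' i hi j hj (act_injective hd u h3)
  · unfold bs
    rw [Nat.geomSum_eq (by norm_num)]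
    norm_num
  · exact Nat.pow_lt_pow_right (by norm_num) (by omega)
  · rw [← hdat]
    exact Nat.beq_eq.mp h2

/-- Soundness. -/
theorem holds_of_chk (hc : ColsOK n A cols) (hd : ∀ i, A i i = 2) {R : List (ℕ × ℤ × List ℤ)}
    (h1 : chkR n cols R = true) (h2 : ∀ c < 2 ^ n, chkC n cols R c = true) :
    Fine A ∧ Holds A := by
  classical
  have hR := rok_of_chkR hc hd h1
  have hF := fine_of_rok hd hR
  refine ⟨hF, ?_⟩
  intro S a ha w hw P hP
  let C : Finset ℕ := ((Finset.univ : Finset (Fin n)).filter fun i => i ∈ S).image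
    (fun i : Fin n => (i : ℕ))
  have hC : ∀ i : Fin n, (i : ℕ) ∈ C ↔ i ∈ S := by
    intro i
    simp only [C, Finset.mem_image, Finset.mem_filter, Finset.mem_univ, true_and]
    constructor
    · rintro ⟨j, hj, hij⟩
      rwa [← Fin.ext hij]
    · intro hi
      exact ⟨i, hi, rfl⟩
  have hCr : C ⊆ range n := by
    intro i hi
    simp only [C, Finset.mem_image] at hi
    obtain ⟨j, _, rfl⟩ := hi
    exact Finset.mem_range.mpr j.isLt
  have hlt : bs C < 2 ^ n := by
    have h3 : bs C ≤ bs (range n) := by
      unfold bs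
      exact Finset.sum_le_sum_of_subset hCr
    have h4 : bs (range n) = 2 ^ n - 1 := by
      unfold bs
      rw [Nat.geomSum_eq (by norm_num)]
      norm_num
    have h5 : 0 < 2 ^ n := by positivity
    omega
  have h3 := h2 (bs C) hlt
  unfold chkC at h3
  have htb : ∀ i : Fin n, (bs C).testBit i = true ↔ i ∈ S := fun i => by
    rw [testBit_bs, hC]
  simp only [Bool.and_eq_true, List.all_eq_true (l := List.range n), Bool.or_eq_true,
    List.mem_range] at h3
  have h3a := h3 a a.isLt
  rcases h3a with h6 | ⟨h4, h6⟩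
  · exact absurd ((htb a).mp h6) ha
  have hSl : ∀ i ∈ (List.range n).filter (Nat.testBit (bs C)), ∃ h : i < n, (⟨i, h⟩ : Fin n) ∈ S := by
    intro i hi
    rw [List.mem_filter, List.mem_range] at hi
    exact ⟨hi.1, (htb ⟨i, hi.1⟩).mp hi.2⟩
  obtain ⟨u, hu, hM⟩ := rep_grow hc S _ hSl 64 [] (idM n) rep_idM
    (fun i hi => absurd hi (List.not_mem_nil))
  have hlong : Longest A S (act A u) := by
    refine ⟨⟨u, hu, rfl⟩, fun v _ hv hvS => act_le_zero u (S := S) ?_ hv hvS⟩
    intro i hi
    unfold isNeg at h4
    rw [List.all_eq_true] at h4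
    have h7 := of_decide_eq_true (h4 i (by
      rw [List.mem_filter, List.mem_range]
      exact ⟨i.isLt, (htb i).mpr hi⟩))
    rw [hM.2 i] at h7
    have hroot : IsRoot A (act A u (Pi.single i 1)) := isRoot_act (IsRoot.simple i) u
    rcases hF.sign _ hroot with h8 | h8
    · exfalso
      have := phiv_pos h8 (isRoot_ne_zero hd hroot)
      omega
    · exact h8
  rw [uniq A hF S w (act A u) hw hlong]
  exact good_of_chkCA hR hd S C hC a ha hu hM h6 P hP

end Pool.Agent.Helper282_TM
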