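import Pool.Agent.Helper282_TM.Defs

/-!
# chain times the weight poset of type D (proved by helper591)
-/

set_option autoImplicit false

namespace Pool.Agent.Helper282_TM

open Finset

namespace KBox

/-! operators -/

/-- `T g p = ∑_{c ≤ p} (-1)^c g c` -/
def T (g : ℕ → ℤ) : ℕ → ℤ
  | 0 => g 0
  | p + 1 => T g p + (-1) ^ (p + 1) * g (p + 1)

/-- `N g p = ∑_{c ≤ p} (-1)^(p - c) g c` -/
def N (g : ℕ → ℤ) (p : ℕ) : ℤ := (-1) ^ p * T g p

/-- `U g p = ∑_{2 j ≤ p} g (p - 2 j)` -/
def U (g : ℕ → ℤ) : ℕ → ℤ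
  | 0 => g 0
  | 1 => g 1
  | p + 2 => U g p + g (p + 2)

lemma T_eq_sum (g : ℕ → ℤ) (p : ℕ) : T g p = ∑ c ∈ range (p + 1), (-1) ^ c * g c := by
  induction p with
  | zero => simp [T]
  | succ p ih => rw [T, ih, Finset.sum_range_succ _ (p + 1)]

lemma sq_one (p : ℕ) : ((-1 : ℤ) ^ p) * (-1) ^ p = 1 := by
  rw [← mul_pow]; simp

lemma N_zero (g : ℕ → ℤ) : N g 0 = g 0 := by simp [N, T]

lemma N_succ (g : ℕ → ℤ) (p : ℕ) : N g (p + 1) = g (p + 1) - N g p := by
  have h := sq_one (p + 1)
  simp only [N, T]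
  rw [mul_add, ← mul_assoc, h, pow_succ]
  ring

lemma N_eq_sum (g : ℕ → ℤ) (p : ℕ) :
    N g p = ∑ a ∈ range (p + 1), ∑ b ∈ range (p + 1), (-1) ^ (a + b) * g (min a b) := by
  induction p with
  | zero => simp [N, T]
  | succ p ih =>
    have h1 : ∀ a ∈ range (p + 1), ∑ b ∈ range (p + 1 + 1), (-1 : ℤ) ^ (a + b) * g (min a b) =
        ∑ b ∈ range (p + 1), (-1 : ℤ) ^ (a + b) * g (min a b) + (-1) ^ (p + 1) * ((-1) ^ a * g a) := by
      intro a ha
      rw [Finset.sum_range_succ]
      have : min a (p + 1) = a := by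
        have := Finset.mem_range.1 ha
        omega
      rw [this]
      ring
    have h2 : ∑ b ∈ range (p + 1 + 1), (-1 : ℤ) ^ (p + 1 + b) * g (min (p + 1) b) =
        (-1) ^ (p + 1) * T g p + g (p + 1) := by
      rw [Finset.sum_range_succ, T_eq_sum, Finset.mul_sum]
      congr 1
      · refine Finset.sum_congr rfl fun b hb => ?_
        have : min (p + 1) b = b := by
          have := Finset.mem_range.1 hb
          omega
        rw [this]
        ring
      · rw [min_self, pow_add, sq_one, one_mul]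
    rw [Finset.sum_range_succ, Finset.sum_congr rfl h1, Finset.sum_add_distrib, ← ih, h2,
      ← Finset.mul_sum, ← T_eq_sum, N_succ, N]
    ring

lemma U_eq_sum (g : ℕ → ℤ) (p : ℕ) : U g p = ∑ j ∈ range (p / 2 + 1), g (p - 2 * j) := by
  induction p using Nat.twoStepInduction with
  | zero => simp [U]
  | one => simp [U]
  | more p ih _ =>
    have h : (p + 2) / 2 + 1 = (p / 2 + 1) + 1 := by omega
    rw [U, ih, h, Finset.sum_range_succ' _ (p / 2 + 1)]
    congr 1
    refine Finset.sum_congr rfl fun j _ => ?_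
    congr 1
    omega

lemma T_T (g : ℕ → ℤ) : T (T g) = U g := by
  funext p
  induction p using Nat.twoStepInduction with
  | zero => simp [U, T]
  | one => simp [U, T]
  | more p ih _ =>
    rw [U, ← ih]
    have h := sq_one p
    simp only [T]
    have e1 : (-1 : ℤ) ^ (p + 1) = - (-1) ^ p := by ring
    have e2 : (-1 : ℤ) ^ (p + 2) = (-1) ^ p := by ring
    rw [show p + 1 + 1 = p + 2 from rfl, e2, e1]
    have : (-1 : ℤ) ^ p * ((-1) ^ p * g (p + 2)) = g (p + 2) := by
      rw [← mul_assoc, h, one_mul]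
    linear_combination this

lemma U_step (g : ℕ → ℤ) (p : ℕ) : U g (p + 1) - U g p = N g (p + 1) := by
  induction p with
  | zero =>
    rw [N_succ, N_zero]
    simp [U]
  | succ p ih =>
    rw [N_succ, ← ih]
    simp only [U]
    ring

lemma N_U (g : ℕ → ℤ) : N (U g) = U (N g) := by
  funext p
  induction p using Nat.twoStepInduction with
  | zero => simp [U, N, T]
  | one =>
    rw [N_succ, N_zero, U_step]
    rfl
  | more p ih _ =>
    have e1 : U (N g) (p + 2) = U (N g) p + N g (p + 2) := rfl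
    rw [N_succ, N_succ, ih, e1]
    have := U_step g (p + 1)
    linarith

lemma T_U (g : ℕ → ℤ) : T (U g) = U (T g) := by
  rw [← T_T, ← T_T]

/-- the constant function -/
def one : ℕ → ℤ := fun _ => 1

/-- the indicator function of the even numbers -/
def ev : ℕ → ℤ := fun p => if Even p then 1 else 0

lemma N_one : N one = ev := by
  funext p
  induction p with
  | zero => simp [N_zero, one, ev]
  | succ p ih =>
    rw [N_succ, ih]
    unfold one ev
    by_cases h : Even p
    · simp [h, Nat.even_add_one]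
    · simp [h, Nat.even_add_one]

lemma T_one : T one = ev := by
  funext p
  induction p with
  | zero => simp [T, one, ev]
  | succ p ih =>
    rw [T, ih]
    unfold one ev
    by_cases h : Even p
    · simp [h, Nat.even_add_one, pow_succ, Even.neg_one_pow h]
    · have h' := Nat.not_even_iff_odd.1 h
      simp [h, Nat.even_add_one, pow_succ, Odd.neg_one_pow h']

lemma N_ev (p : ℕ) : N ev p = (-1) ^ p * ((p / 2 : ℕ) + 1 : ℤ) := by
  induction p with
  | zero => simp [N_zero, ev]
  | succ p ih =>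
    rw [N_succ, ih]
    unfold ev
    by_cases h : Even p
    · obtain ⟨k, rfl⟩ := h
      have h1 : (k + k + 1) / 2 = k := by omega
      have h2 : (k + k) / 2 = k := by omega
      have h3 : ¬ Even (k + k + 1) := by
        rw [Nat.even_add_one]
        simp
      rw [h1, h2, if_neg h3, pow_succ]
      have h4 : (-1 : ℤ) ^ (k + k) = 1 := by rw [pow_add, sq_one]
      rw [h4]
      ring
    · obtain ⟨k, rfl⟩ := Nat.not_even_iff_odd.1 h
      have h1 : (2 * k + 1 + 1) / 2 = k + 1 := by omega
      have h2 : (2 * k + 1) / 2 = k := by omega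
      have h3 : Even (2 * k + 1 + 1) := ⟨k + 1, by ring⟩
      have h4 : (-1 : ℤ) ^ (2 * k) = 1 := by
        rw [pow_mul]
        simp
      have h5 : (-1 : ℤ) ^ (2 * k + 1) = -1 := by rw [pow_succ, h4]; ring
      have h6 : (-1 : ℤ) ^ (2 * k + 1 + 1) = 1 := by rw [pow_succ, h5]; ring
      rw [h1, h2, if_pos h3, h5, h6]
      push_cast
      ring

lemma T_N_ev : T (N ev) = U (fun p => (p : ℤ) + 1) := by
  funext p
  have hh : ∀ c : ℕ, (-1 : ℤ) ^ c * N ev c = ((c / 2 : ℕ) + 1 : ℤ) := by
    intro c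
    rw [N_ev, ← mul_assoc, sq_one, one_mul]
  induction p using Nat.twoStepInduction with
  | zero =>
    have := hh 0
    simp [T, U, N_ev]
  | one =>
    have := hh 1
    simp [T, U, N_ev]
  | more p ih _ =>
    rw [U, ← ih]
    simp only [T]
    rw [hh, hh]
    have : ((p + 1 + 1) / 2 : ℕ) + (p + 1) / 2 = p + 1 := by omega
    have h' : (((p + 1 + 1) / 2 : ℕ) : ℤ) + ((p + 1) / 2 : ℕ) = (p : ℤ) + 1 := by exact_mod_cast this
    push_cast at h' ⊢
    linarith

lemma iter_T_even (k : ℕ) (g : ℕ → ℤ) : T^[2 * k] g = U^[k] g := by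
  induction k generalizing g with
  | zero => rfl
  | succ k ih =>
    rw [show 2 * (k + 1) = 2 * k + 1 + 1 by ring, Function.iterate_succ_apply,
      Function.iterate_succ_apply, Function.iterate_succ_apply, T_T, ih]

lemma iter_U_comm (f : (ℕ → ℤ) → ℕ → ℤ) (hf : ∀ g, f (U g) = U (f g)) (k : ℕ) (g : ℕ → ℤ) :
    f (U^[k] g) = U^[k] (f g) := by
  induction k with
  | zero => rfl
  | succ k ih => rw [Function.iterate_succ_apply', Function.iterate_succ_apply', hf, ih]

lemma final_odd (k : ℕ) : T^[2 * k] (N (T^[2 * k] one)) = U^[2 * k] ev := by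
  rw [iter_T_even, iter_T_even, iter_U_comm N N_U, ← Function.iterate_add_apply, N_one]
  congr 1
  ring_nf

lemma final_even (k : ℕ) :
    T^[2 * k + 1] (N (T^[2 * k + 1] one)) = U^[2 * k + 1] (fun p => (p : ℤ) + 1) := by
  rw [Function.iterate_succ_apply, Function.iterate_succ_apply, T_one, iter_T_even, iter_T_even,
    iter_U_comm N N_U, iter_U_comm T T_U, T_N_ev, ← Function.iterate_add_apply,
    ← Function.iterate_succ_apply]
  congr 2
  ring

/-! monotone functions -/

open Classical in
/-- monotone functions for `kle m` on `n` elements with values at most `p` -/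
noncomputable def Mf (n m p : ℕ) : Finset (Fin n → ℕ) :=
  (Fintype.piFinset fun _ => Finset.range (p + 1)).filter fun f =>
    ∀ i j : Fin n, kle m i j → f i ≤ f j

lemma mem_Mf {n m p : ℕ} {f : Fin n → ℕ} :
    f ∈ Mf n m p ↔ (∀ i, f i ≤ p) ∧ ∀ i j : Fin n, kle m i j → f i ≤ f j := by
  simp [Mf, Fintype.mem_piFinset]

lemma snoc_sum (n m p : ℕ) (h : n ≠ m) (F : (Fin (n + 1) → ℕ) → ℤ) :
    ∑ f ∈ Mf (n + 1) m p, F f =
      ∑ c ∈ range (p + 1), ∑ g ∈ Mf n m c, F (Fin.snoc (α := fun _ => ℕ) g c) := by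
  rw [Finset.sum_sigma']
  refine Finset.sum_bij' (fun f _ => ⟨f (Fin.last n), fun i => f i.castSucc⟩)
    (fun x _ => Fin.snoc (α := fun _ => ℕ) x.2 x.1) ?_ ?_ ?_ ?_ ?_
  · intro f hf
    rw [mem_Mf] at hf
    rw [Finset.mem_sigma, Finset.mem_range, mem_Mf]
    refine ⟨Nat.lt_succ_of_le (hf.1 _), fun i => hf.2 _ _ (Or.inr ⟨?_, ?_⟩), fun i j hij => ?_⟩
    · simp
    · simp [h]
    · exact hf.2 _ _ hij
  · rintro ⟨c, g⟩ hx
    rw [Finset.mem_sigma, Finset.mem_range, mem_Mf] at hx
    simp only at hx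
    obtain ⟨hc, hg1, hg2⟩ := hx
    rw [mem_Mf]
    constructor
    · intro i
      refine Fin.lastCases ?_ (fun i => ?_) i
      · rw [Fin.snoc_last]
        show c ≤ p
        omega
      · rw [Fin.snoc_castSucc]
        have := hg1 i
        show g i ≤ p
        omega
    · intro i j
      refine Fin.lastCases ?_ (fun j => ?_) j
      · intro _
        refine Fin.lastCases ?_ (fun i => ?_) i
        · exact le_rfl
        · rw [Fin.snoc_castSucc, Fin.snoc_last]
          exact hg1 i
      · refine Fin.lastCases ?_ (fun i => ?_) i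
        · intro hk
          exfalso
          have hj := j.2
          rcases hk with hk | hk
          · simp at hk; omega
          · simp at hk; omega
        · intro hk
          rw [Fin.snoc_castSucc, Fin.snoc_castSucc]
          exact hg2 i j hk
  · intro f hf
    funext i
    refine Fin.lastCases ?_ (fun i => ?_) i
    · simp
    · simp
  · rintro ⟨c, g⟩ hx
    simp
  · intro f hf
    congr 1
    funext i
    refine Fin.lastCases ?_ (fun i => ?_) i
    · simp
    · simp

lemma mid_sum (m p : ℕ) (F : (Fin (m + 2) → ℕ) → ℤ) :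
    ∑ f ∈ Mf (m + 2) (m + 1) p, F f =
      ∑ a ∈ range (p + 1), ∑ b ∈ range (p + 1), ∑ g ∈ Mf m (m + 1) (min a b),
        F (Fin.snoc (α := fun _ => ℕ) (Fin.snoc (α := fun _ => ℕ) g a) b) := by
  rw [← Finset.sum_product', Finset.sum_sigma']
  refine Finset.sum_bij' (fun f _ => ⟨(f (Fin.last m).castSucc, f (Fin.last (m + 1))),
    fun i => f i.castSucc.castSucc⟩)
    (fun x _ => Fin.snoc (α := fun _ => ℕ) (Fin.snoc (α := fun _ => ℕ) x.2 x.1.1) x.1.2)
    ?_ ?_ ?_ ?_ ?_
  · intro f hf
    rw [mem_Mf] at hf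
    rw [Finset.mem_sigma, Finset.mem_product, Finset.mem_range, Finset.mem_range, mem_Mf]
    refine ⟨⟨Nat.lt_succ_of_le (hf.1 _), Nat.lt_succ_of_le (hf.1 _)⟩,
      fun i => le_min (hf.2 _ _ (Or.inr ⟨?_, ?_⟩)) (hf.2 _ _ (Or.inr ⟨?_, ?_⟩)), fun i j hij => ?_⟩
    · simp
    · simp
    · simp
    · simp; omega
    · exact hf.2 _ _ hij
  · rintro ⟨⟨a, b⟩, g⟩ hx
    rw [Finset.mem_sigma, Finset.mem_product, Finset.mem_range, Finset.mem_range, mem_Mf] at hx
    simp only at hx
    obtain ⟨⟨ha, hb⟩, hg1, hg2⟩ := hx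
    rw [mem_Mf]
    constructor
    · intro i
      refine Fin.lastCases ?_ (fun i => ?_) i
      · rw [Fin.snoc_last]
        show b ≤ p
        omega
      · rw [Fin.snoc_castSucc]
        refine Fin.lastCases ?_ (fun i => ?_) i
        · rw [Fin.snoc_last]
          show a ≤ p
          omega
        · rw [Fin.snoc_castSucc]
          have := hg1 i
          show g i ≤ p
          omega
    · intro i j
      refine Fin.lastCases ?_ (fun j => ?_) j
      · refine Fin.lastCases ?_ (fun i => ?_) i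
        · exact fun _ => le_rfl
        · refine Fin.lastCases ?_ (fun i => ?_) i
          · intro hk
            exfalso
            rcases hk with hk | hk
            · simp at hk
            · simp at hk
          · intro _
            rw [Fin.snoc_castSucc, Fin.snoc_last, Fin.snoc_castSucc]
            exact (hg1 i).trans (min_le_right _ _)
      · refine Fin.lastCases ?_ (fun i => ?_) i
        · intro hk
          exfalso
          have hj := j.2
          rcases hk with hk | hk
          · simp at hk; omega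
          · simp at hk; omega
        · rw [Fin.snoc_castSucc, Fin.snoc_castSucc]
          refine Fin.lastCases ?_ (fun j => ?_) j
          · refine Fin.lastCases ?_ (fun i => ?_) i
            · exact fun _ => le_rfl
            · intro _
              rw [Fin.snoc_castSucc, Fin.snoc_last]
              exact (hg1 i).trans (min_le_left _ _)
          · refine Fin.lastCases ?_ (fun i => ?_) i
            · intro hk
              exfalso
              have hj := j.2
              rcases hk with hk | hk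
              · simp at hk; omega
              · simp at hk; omega
            · intro hk
              rw [Fin.snoc_castSucc, Fin.snoc_castSucc]
              exact hg2 i j hk
  · intro f hf
    funext i
    refine Fin.lastCases ?_ (fun i => ?_) i
    · simp
    · refine Fin.lastCases ?_ (fun i => ?_) i
      · simp
      · simp
  · rintro ⟨⟨a, b⟩, g⟩ hx
    simp
  · intro f hf
    congr 1
    funext i
    refine Fin.lastCases ?_ (fun i => ?_) i
    · simp
    · refine Fin.lastCases ?_ (fun i => ?_) i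
      · simp
      · simp

/-- signed sum -/
noncomputable def S (n m : ℕ) (p : ℕ) : ℤ := ∑ f ∈ Mf n m p, (-1) ^ (∑ i, f i)

lemma S_succ (n m : ℕ) (h : n ≠ m) : S (n + 1) m = T (S n m) := by
  funext p
  rw [S, snoc_sum n m p h, T_eq_sum]
  refine Finset.sum_congr rfl fun c _ => ?_
  rw [S, Finset.mul_sum]
  refine Finset.sum_congr rfl fun g _ => ?_
  rw [Fin.sum_univ_castSucc]
  simp [pow_add, mul_comm]

lemma S_mid (m : ℕ) : S (m + 2) (m + 1) = N (S m (m + 1)) := by
  funext p
  rw [S, mid_sum, N_eq_sum]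
  refine Finset.sum_congr rfl fun a _ => Finset.sum_congr rfl fun b _ => ?_
  rw [S, Finset.mul_sum]
  refine Finset.sum_congr rfl fun g _ => ?_
  rw [Fin.sum_univ_castSucc, Fin.sum_univ_castSucc]
  simp [pow_add]
  ring

lemma S_zero (m : ℕ) : S 0 m = one := by
  funext p
  have h : Mf 0 m p = {Fin.elim0} := by
    ext f
    rw [mem_Mf, Finset.mem_singleton]
    constructor
    · intro _
      funext i
      exact i.elim0
    · intro _
      exact ⟨fun i => i.elim0, fun i => i.elim0⟩
  rw [S, h]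
  simp [one]

lemma S_low (m k : ℕ) (h : k ≤ m) : S k m = T^[k] one := by
  induction k with
  | zero => exact S_zero m
  | succ k ih => rw [S_succ k m (by omega), ih (by omega), Function.iterate_succ_apply']

lemma S_high (m k : ℕ) : S (m + 2 + k) (m + 1) = T^[k] (N (T^[m] one)) := by
  induction k with
  | zero =>
    rw [Function.iterate_zero_apply, add_zero, S_mid, S_low (m + 1) m (by omega)]
  | succ k ih =>
    rw [← add_assoc, S_succ _ _ (by omega), ih, Function.iterate_succ_apply']

/-! self-dual functions -/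

open Classical in
/-- duality -/
noncomputable def ks (e : Prop) (n m : ℕ) (b : Fin n) : Fin n :=
  if e ∧ ((b : ℕ) + 1 = m ∨ (b : ℕ) = m) then b else Fin.rev b

open Classical in
/-- self-dual functions -/
noncomputable def Df (e : Prop) (n m p : ℕ) : Finset (Fin n → ℕ) :=
  (Mf n m p).filter fun f => ∀ y, f y + f (ks e n m y) = p

/-- their number -/
noncomputable def D (e : Prop) (n m p : ℕ) : ℤ := (Df e n m p).card

lemma mem_Df {e : Prop} {n m p : ℕ} {f : Fin n → ℕ} :
    f ∈ Df e n m p ↔ ((∀ i, f i ≤ p) ∧ ∀ i j : Fin n, kle m i j → f i ≤ f j) ∧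
      ∀ y, f y + f (ks e n m y) = p := by
  rw [Df, Finset.mem_filter, mem_Mf]

lemma kle_le {m a b : ℕ} (h : kle m a b) : a ≤ b := by
  rcases h with h | h
  · exact h.le
  · exact h.1.le

lemma kle_succ {m a b : ℕ} : kle (m + 1) (a + 1) (b + 1) ↔ kle m a b := by
  unfold kle
  omega

lemma fin_cases {n : ℕ} (i : Fin (n + 2)) :
    i = 0 ∨ i = Fin.last (n + 1) ∨ ∃ k : Fin n, i = k.succ.castSucc := by
  rcases i with ⟨i, hi⟩
  by_cases h0 : i = 0
  · left; ext; simpa using h0
  · by_cases h1 : i = n + 1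
    · right; left; ext; simpa using h1
    · right; right
      refine ⟨⟨i - 1, by omega⟩, ?_⟩
      ext
      simp
      omega

lemma ks_zero (e : Prop) {n m : ℕ} (hm : 1 ≤ m) :
    ks e (n + 2) (m + 1) 0 = Fin.last (n + 1) := by
  unfold ks
  rw [if_neg]
  · simp
  · rintro ⟨_, h | h⟩
    · simp at h; omega
    · simp at h

lemma ks_last (e : Prop) {n m : ℕ} (h : m < n) :
    ks e (n + 2) (m + 1) (Fin.last (n + 1)) = 0 := by
  unfold ks
  rw [if_neg]
  · simp
  · rintro ⟨_, h | h⟩
    · simp at h; omega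
    · simp at h; omega

lemma ks_mid (e : Prop) {n m : ℕ} (i : Fin n) :
    ks e (n + 2) (m + 1) i.succ.castSucc = (ks e n m i).succ.castSucc := by
  unfold ks
  by_cases h : e ∧ ((i : ℕ) + 1 = m ∨ (i : ℕ) = m)
  · rw [if_pos h, if_pos]
    refine ⟨h.1, ?_⟩
    simpa using h.2
  · rw [if_neg h, if_neg]
    · ext
      simp [Fin.val_rev]
      omega
    · rintro ⟨h1, h2⟩
      exact h ⟨h1, by simpa using h2⟩

/-- the extension of a function by the bottom and the top value -/
def ext {n : ℕ} (p j : ℕ) (g : Fin n → ℕ) : Fin (n + 2) → ℕ :=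
  Fin.cons (α := fun _ => ℕ) j (Fin.snoc (α := fun _ => ℕ) (fun i => g i + j) (p - j))

lemma ext_zero {n : ℕ} (p j : ℕ) (g : Fin n → ℕ) : ext p j g 0 = j := by
  simp [ext]

lemma ext_last {n : ℕ} (p j : ℕ) (g : Fin n → ℕ) : ext p j g (Fin.last (n + 1)) = p - j := by
  rw [ext, ← Fin.succ_last, Fin.cons_succ, Fin.snoc_last]

lemma ext_mid {n : ℕ} (p j : ℕ) (g : Fin n → ℕ) (i : Fin n) :
    ext p j g i.succ.castSucc = g i + j := by
  rw [ext, ← Fin.succ_castSucc, Fin.cons_succ, Fin.snoc_castSucc]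

lemma Df_card (e : Prop) {n m : ℕ} (p : ℕ) (hm : 1 ≤ m) (hn : m < n) :
    (Df e (n + 2) (m + 1) p).card = ∑ j ∈ range (p / 2 + 1), (Df e n m (p - 2 * j)).card := by
  rw [← Finset.card_sigma]
  have key : ∀ f ∈ Df e (n + 2) (m + 1) p, f 0 + f (Fin.last (n + 1)) = p ∧
      ∀ i : Fin n, f 0 ≤ f i.succ.castSucc ∧ f i.succ.castSucc ≤ f (Fin.last (n + 1)) := by
    intro f hf
    rw [mem_Df] at hf
    refine ⟨?_, fun i => ⟨hf.1.2 _ _ (Or.inr ⟨?_, ?_⟩), hf.1.2 _ _ (Or.inr ⟨?_, ?_⟩)⟩⟩
    · have := hf.2 0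
      rwa [ks_zero e hm] at this
    · simp
    · simp; omega
    · simp
    · simp; omega
  have key2 : ∀ f ∈ Df e (n + 2) (m + 1) p, f 0 ≤ f (Fin.last (n + 1)) := by
    intro f hf
    have h1 := (key f hf).2 ⟨0, by omega⟩
    omega
  refine Finset.card_bij' (fun f _ => (⟨f 0, fun i => f i.succ.castSucc - f 0⟩ :
    (_ : ℕ) × (Fin n → ℕ))) (fun x _ => ext p x.1 x.2) ?_ ?_ ?_ ?_
  · intro f hf
    obtain ⟨h1, h2⟩ := key f hf
    have h3 := key2 f hf
    rw [mem_Df] at hf
    rw [Finset.mem_sigma, Finset.mem_range, mem_Df]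
    refine ⟨by simp only; omega, ⟨fun i => ?_, fun i i' hii => ?_⟩, fun y => ?_⟩
    · have := h2 i
      simp only
      omega
    · exact Nat.sub_le_sub_right (hf.1.2 _ _ (by simpa using kle_succ.2 hii)) _
    · have h4 := hf.2 y.succ.castSucc
      rw [ks_mid] at h4
      have h5 := h2 y
      have h6 := h2 (ks e n m y)
      simp only
      omega
  · rintro ⟨j, g⟩ hx
    rw [Finset.mem_sigma, Finset.mem_range, mem_Df] at hx
    simp only at hx
    obtain ⟨hj, ⟨hg1, hg2⟩, hg3⟩ := hx
    show ext p j g ∈ _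
    rw [mem_Df]
    refine ⟨⟨fun i => ?_, fun i i' hii => ?_⟩, fun y => ?_⟩
    · rcases fin_cases i with rfl | rfl | ⟨k, rfl⟩
      · rw [ext_zero]; omega
      · rw [ext_last]; omega
      · rw [ext_mid]
        have := hg1 k
        omega
    · rcases fin_cases i with rfl | rfl | ⟨k, rfl⟩
      · rw [ext_zero]
        rcases fin_cases i' with rfl | rfl | ⟨k', rfl⟩
        · rw [ext_zero]
        · rw [ext_last]; omega
        · rw [ext_mid]; omega
      · rw [ext_last]
        rcases fin_cases i' with rfl | rfl | ⟨k', rfl⟩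
        · exfalso
          have := kle_le hii
          simp at this
        · rw [ext_last]
        · exfalso
          have := kle_le hii
          have hk := k'.2
          simp at this
          omega
      · rw [ext_mid]
        rcases fin_cases i' with rfl | rfl | ⟨k', rfl⟩
        · exfalso
          have := kle_le hii
          simp at this
        · rw [ext_last]
          have := hg1 k
          omega
        · rw [ext_mid]
          have h7 : kle m k k' := kle_succ.1 (by simpa using hii)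
          have := hg2 k k' h7
          omega
    · rcases fin_cases y with rfl | rfl | ⟨k, rfl⟩
      · rw [ks_zero e hm, ext_zero, ext_last]; omega
      · rw [ks_last e hn, ext_zero, ext_last]; omega
      · rw [ks_mid, ext_mid, ext_mid]
        have h1 := hg3 k
        omega
  · intro f hf
    obtain ⟨h1, h2⟩ := key f hf
    funext i
    show ext p (f 0) _ i = f i
    rcases fin_cases i with rfl | rfl | ⟨k, rfl⟩
    · rw [ext_zero]
    · rw [ext_last]; omega
    · rw [ext_mid]
      have := h2 k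
      simp only
      omega
  · rintro ⟨j, g⟩ hx
    show (⟨ext p j g 0, fun i => ext p j g i.succ.castSucc - ext p j g 0⟩ :
      (_ : ℕ) × (Fin n → ℕ)) = ⟨j, g⟩
    rw [ext_zero]
    congr 1
    funext i
    rw [ext_mid]
    omega

lemma D_step (e : Prop) {n m : ℕ} (hm : 1 ≤ m) (hn : m < n) :
    D e (n + 2) (m + 1) = U (D e n m) := by
  funext p
  rw [D, Df_card e p hm hn, U_eq_sum]
  push_cast
  rfl

lemma D_iter (e : Prop) (k : ℕ) : D e (2 * (k + 1)) (k + 1) = U^[k] (D e 2 1) := by
  induction k with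
  | zero => rfl
  | succ k ih =>
    rw [Function.iterate_succ_apply', ← ih, ← D_step e (by omega) (by omega)]
    rfl

lemma kle_one {i j : Fin 2} (h : kle 1 i j) : i = j := by
  rcases h with h | h
  · ext; exact h
  · exfalso
    have := i.2
    have := j.2
    omega

lemma D_true (e : Prop) (he : e) : D e 2 1 = ev := by
  funext p
  have hk : ∀ b : Fin 2, ks e 2 1 b = b := by
    intro b
    unfold ks
    rw [if_pos]
    refine ⟨he, ?_⟩
    have := b.2
    omega
  rw [D, ev]
  split_ifs with h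
  · obtain ⟨c, rfl⟩ := h
    have : Df e 2 1 (c + c) = {fun _ => c} := by
      ext f
      rw [mem_Df, Finset.mem_singleton]
      constructor
      · rintro ⟨_, h3⟩
        funext y
        have := h3 y
        rw [hk] at this
        omega
      · rintro rfl
        exact ⟨⟨fun _ => Nat.le_add_left c c, fun _ _ _ => le_rfl⟩, fun _ => rfl⟩
    rw [this]
    simp
  · have : Df e 2 1 p = ∅ := by
      rw [Finset.eq_empty_iff_forall_notMem]
      intro f hf
      rw [mem_Df] at hf
      have := hf.2 0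
      rw [hk] at this
      exact h ⟨f 0, this.symm⟩
    rw [this]
    simp

lemma D_false (e : Prop) (he : ¬ e) : D e 2 1 = fun p : ℕ => (p : ℤ) + 1 := by
  funext p
  have hk : ∀ b : Fin 2, ks e 2 1 b = Fin.rev b := by
    intro b
    unfold ks
    rw [if_neg]
    exact fun h => he h.1
  have : (Df e 2 1 p).card = (range (p + 1)).card := by
    refine Finset.card_bij' (fun f _ => f 0) (fun a _ => ![a, p - a]) ?_ ?_ ?_ ?_
    · intro f hf
      rw [mem_Df] at hf
      have := hf.1.1 0
      rw [Finset.mem_range]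
      omega
    · intro a ha
      rw [Finset.mem_range] at ha
      rw [mem_Df]
      refine ⟨⟨fun i => ?_, fun i j hij => ?_⟩, fun y => ?_⟩
      · fin_cases i
        · simp; omega
        · simp
      · rw [kle_one hij]
      · rw [hk]
        fin_cases y
        · simp [Fin.rev]; omega
        · simp [Fin.rev]; omega
    · intro f hf
      rw [mem_Df] at hf
      have := hf.2 0
      rw [hk] at this
      have h1 : Fin.rev (0 : Fin 2) = 1 := rfl
      rw [h1] at this
      funext i
      fin_cases i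
      · simp
      · simp; omega
    · intro a ha
      simp
  rw [D, this]
  simp

/-! upper ideals -/

lemma card_thr {p k : ℕ} (h : k ≤ p) :
    ((Finset.univ : Finset (Fin p)).filter fun x : Fin p => p ≤ (x : ℕ) + k).card = k := by
  conv_rhs => rw [← Finset.card_range k]
  refine Finset.card_bij' (fun x _ => (x : ℕ) - (p - k)) (fun c hc => ⟨c + (p - k), ?_⟩) ?_ ?_ ?_ ?_
  · rw [Finset.mem_range] at hc
    omega
  · intro x hx
    rw [Finset.mem_filter] at hx
    rw [Finset.mem_range]
    have := x.2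
    omega
  · intro c hc
    rw [Finset.mem_range] at hc
    rw [Finset.mem_filter]
    refine ⟨Finset.mem_univ _, ?_⟩
    simp only
    omega
  · intro x hx
    rw [Finset.mem_filter] at hx
    ext
    simp only
    omega
  · intro c hc
    simp

lemma up_thr {p : ℕ} (A : Finset (Fin p)) (hA : ∀ x ∈ A, ∀ y, x ≤ y → y ∈ A) (x : Fin p) :
    x ∈ A ↔ p ≤ (x : ℕ) + A.card := by
  constructor
  · intro hx
    have h1 : Finset.Ici x ⊆ A := fun y hy => hA x hx y (Finset.mem_Ici.1 hy)
    have h2 := Finset.card_le_card h1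
    rw [Fin.card_Ici] at h2
    omega
  · intro h
    by_contra hx
    have h1 : A ⊆ Finset.Ioi x := by
      intro y hy
      rw [Finset.mem_Ioi]
      by_contra h'
      exact hx (hA y hy x (not_lt.1 h'))
    have h2 := Finset.card_le_card h1
    rw [Fin.card_Ioi] at h2
    have := x.2
    omega

/-- the order -/
abbrev rr (p n m : ℕ) (x y : Fin p × Fin n) : Prop := x.1 ≤ y.1 ∧ kle m x.2 y.2

/-- the ideal of a function -/
def toI (p n : ℕ) (f : Fin n → ℕ) : Finset (Fin p × Fin n) :=
  Finset.univ.filter fun x => p ≤ (x.1 : ℕ) + f x.2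

/-- the fibre of an ideal -/
def fb {p n : ℕ} (I : Finset (Fin p × Fin n)) (y : Fin n) : Finset (Fin p) :=
  Finset.univ.filter fun x => (x, y) ∈ I

/-- the function of an ideal -/
def toF {p n : ℕ} (I : Finset (Fin p × Fin n)) (y : Fin n) : ℕ := (fb I y).card

lemma mem_fb {p n : ℕ} (I : Finset (Fin p × Fin n)) (y : Fin n) (x : Fin p) :
    x ∈ fb I y ↔ (x, y) ∈ I := by simp [fb]

lemma mem_toI {p n : ℕ} (f : Fin n → ℕ) (x : Fin p × Fin n) :
    x ∈ toI p n f ↔ p ≤ (x.1 : ℕ) + f x.2 := by simp [toI]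

lemma mem_ups {p n m : ℕ} (I : Finset (Fin p × Fin n)) :
    I ∈ ups (rr p n m) Finset.univ ↔ ∀ x ∈ I, ∀ y, rr p n m x y → y ∈ I := by
  classical
  rw [ups, Finset.mem_filter, Up]
  simp

lemma toI_toF {p n m : ℕ} (I : Finset (Fin p × Fin n)) (hI : I ∈ ups (rr p n m) Finset.univ) :
    toI p n (toF I) = I := by
  ext ⟨x, y⟩
  rw [mem_toI, ← mem_fb]
  rw [mem_ups] at hI
  exact (up_thr (fb I y) (fun x hx x' h => (mem_fb _ _ _).2
    (hI _ ((mem_fb _ _ _).1 hx) _ ⟨h, Or.inl rfl⟩)) x).symm

lemma toF_toI {p n : ℕ} (f : Fin n → ℕ) (hf : ∀ i, f i ≤ p) : toF (toI p n f) = f := by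
  funext y
  rw [toF, fb]
  simp_rw [mem_toI]
  exact card_thr (hf y)

lemma toF_mem {p n m : ℕ} (I : Finset (Fin p × Fin n)) (hI : I ∈ ups (rr p n m) Finset.univ) :
    toF I ∈ Mf n m p := by
  rw [mem_Mf]
  rw [mem_ups] at hI
  constructor
  · intro i
    have := Finset.card_le_univ (fb I i)
    rwa [Fintype.card_fin] at this
  · intro i j hij
    refine Finset.card_le_card fun x hx => ?_
    rw [mem_fb] at hx ⊢
    exact hI _ hx _ ⟨le_rfl, hij⟩

lemma toI_mem {p n m : ℕ} (f : Fin n → ℕ) (hf : f ∈ Mf n m p) :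
    toI p n f ∈ ups (rr p n m) Finset.univ := by
  rw [mem_ups]
  rw [mem_Mf] at hf
  rintro ⟨x, y⟩ hx ⟨x', y'⟩ ⟨h1, h2⟩
  rw [mem_toI] at hx ⊢
  have h3 := hf.2 _ _ h2
  have h4 : (x : ℕ) ≤ x' := h1
  simp only at *
  omega

lemma card_eq {p n : ℕ} (I : Finset (Fin p × Fin n)) : I.card = ∑ y, toF I y := by
  have h : I.card = ∑ x : Fin p × Fin n, if x ∈ I then 1 else 0 := by simp
  rw [h, Fintype.sum_prod_type_right]
  refine Finset.sum_congr rfl fun y _ => ?_
  rw [toF, fb, Finset.card_filter]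

lemma chi_eq (p n m : ℕ) : chi (rr p n m) Finset.univ = S n m p := by
  rw [chi, S]
  refine Finset.sum_bij' (fun I _ => toF I) (fun f _ => toI p n f) ?_ ?_ ?_ ?_ ?_
  · exact fun I hI => toF_mem I hI
  · exact fun f hf => toI_mem f hf
  · exact fun I hI => toI_toF I hI
  · exact fun f hf => toF_toI f (mem_Mf.1 hf).1
  · intro I _
    rw [card_eq]

lemma ksig_invol (m : ℕ) (b : Fin (2 * m)) : ksig m (ksig m b) = b := by
  have hb := b.2
  unfold ksig
  by_cases h : Odd m ∧ ((b : ℕ) + 1 = m ∨ (b : ℕ) = m)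
  · rw [if_pos h, if_pos h]
  · rw [if_neg h, if_neg, Fin.rev_rev]
    rintro ⟨h1, h2⟩
    refine h ⟨h1, ?_⟩
    rw [Fin.val_rev] at h2
    omega

lemma ks_eq (m : ℕ) (b : Fin (2 * m)) : ks (Odd m) (2 * m) m b = ksig m b := by
  unfold ks ksig
  by_cases h : Odd m ∧ ((b : ℕ) + 1 = m ∨ (b : ℕ) = m)
  · rw [if_pos h, if_pos h]
  · rw [if_neg h, if_neg h]

lemma dual_iff (p m : ℕ) (f : Fin (2 * m) → ℕ) (hf : ∀ i, f i ≤ p) :
    (Finset.univ \ (toI p (2 * m) f).image (fun x => (Fin.rev x.1, ksig m x.2)) =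
      toI p (2 * m) f) ↔ ∀ y, f y + f (ksig m y) = p := by
  have h1 : ∀ x : Fin p × Fin (2 * m),
      x ∈ (toI p (2 * m) f).image (fun x => (Fin.rev x.1, ksig m x.2)) ↔
        p ≤ (Fin.rev x.1 : ℕ) + f (ksig m x.2) := by
    intro x
    rw [Finset.mem_image]
    constructor
    · rintro ⟨y, hy, rfl⟩
      rw [mem_toI] at hy
      simpa [ksig_invol] using hy
    · intro h
      refine ⟨(Fin.rev x.1, ksig m x.2), ?_, ?_⟩
      · rw [mem_toI]
        exact h
      · simp [ksig_invol]
  rw [Finset.ext_iff]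
  simp only [Finset.mem_sdiff, Finset.mem_univ, true_and, h1, mem_toI]
  constructor
  · intro h y
    have ha := hf y
    have hb := hf (ksig m y)
    by_contra hne
    rcases Nat.lt_or_gt_of_ne hne with hlt | hgt
    · have h2 := h (⟨f (ksig m y), by omega⟩, y)
      simp only [Fin.val_rev] at h2
      omega
    · have h2 := h (⟨p - f y, by omega⟩, y)
      simp only [Fin.val_rev] at h2
      omega
  · rintro h ⟨x, y⟩
    have h2 := h y
    have h3 := x.2
    simp only [Fin.val_rev]
    omega

lemma sd_eq (p m : ℕ) : (sd (rr p (2 * m) m) Finset.univ (fun x => (Fin.rev x.1, ksig m x.2)) : ℤ) =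
    D (Odd m) (2 * m) m p := by
  rw [sd, D]
  congr 1
  refine Finset.card_bij' (fun I _ => toF I) (fun f _ => toI p (2 * m) f) ?_ ?_ ?_ ?_
  · intro I hI
    rw [Finset.mem_filter] at hI
    have h1 := toF_mem I hI.1
    rw [Df, Finset.mem_filter]
    refine ⟨h1, ?_⟩
    have h2 := (dual_iff p m (toF I) (mem_Mf.1 h1).1).1
    rw [toI_toF I hI.1] at h2
    intro y
    rw [ks_eq]
    exact h2 hI.2 y
  · intro f hf
    rw [Df, Finset.mem_filter] at hf
    rw [Finset.mem_filter]
    refine ⟨toI_mem f hf.1, ?_⟩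
    refine (dual_iff p m f (mem_Mf.1 hf.1).1).2 fun y => ?_
    have := hf.2 y
    rwa [ks_eq] at this
  · intro I hI
    exact toI_toF I (Finset.mem_filter.1 hI).1
  · intro f hf
    rw [Df, Finset.mem_filter] at hf
    exact toF_toI f (mem_Mf.1 hf.1).1

end KBox

open KBox in
/-- TARGET -/
theorem kbox (p m : ℕ) (hm : 1 ≤ m) :
    Good (fun x y : Fin p × Fin (2 * m) => x.1 ≤ y.1 ∧ kle m x.2 y.2) Finset.univ
      (fun x => (Fin.rev x.1, ksig m x.2)) := by
  show chi (rr p (2 * m) m) Finset.univ = _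
  rw [sd_eq, chi_eq]
  obtain ⟨k, rfl⟩ : ∃ k, m = k + 1 := ⟨m - 1, by omega⟩
  rw [D_iter, show 2 * (k + 1) = k + 2 + k by ring, S_high]
  rcases Nat.even_or_odd' k with ⟨i, rfl | rfl⟩
  · rw [final_odd, D_true _ ⟨i, rfl⟩]
  · rw [final_even, D_false]
    rw [Nat.not_odd_iff_even]
    exact ⟨i + 1, by ring⟩

end Pool.Agent.Helper282_TM
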