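import Pool.Agent.Helper282_TM.Cases
import Pool.Agent.Helper282_TM.KBox

/-!
# A component which is a chain times the weight poset of type D (proved by helper735)
-/

set_option autoImplicit false

namespace Pool.Agent.Helper282_TM

open Finset

namespace KC

theorem kle_le' {m a b : ℕ} (h : kle m a b) : a ≤ b := by
  rcases h with h | h
  · exact h.le
  · exact h.1.le

theorem kle_refl (m a : ℕ) : kle m a a := Or.inl rfl

/-- Reversal of `K_m`. -/
theorem kle_rev {m a b : ℕ} (hm : 1 ≤ m) (ha : a < 2 * m) (hb : b < 2 * m) (h : kle m a b) :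
    kle m (2 * m - (b + 1)) (2 * m - (a + 1)) := by
  unfold kle at h ⊢
  omega

/-- The automorphisms of `K_m`, in terms of numbers. -/
theorem rigid (m : ℕ) (hm : 1 ≤ m) (r : ℕ → ℕ) (P1 : ∀ y, y < 2 * m → r y < 2 * m)
    (P2 : ∀ y y', y < 2 * m → y' < 2 * m → y ≠ y' → r y ≠ r y')
    (P3 : ∀ y y', y < y' → y' < 2 * m → ¬ (y + 1 = m ∧ y' = m) → r y < r y') :
    (∀ y, y < 2 * m → y + 1 ≠ m → y ≠ m → r y = y) ∧
      ((r (m - 1) = m - 1 ∧ r m = m) ∨ (r (m - 1) = m ∧ r m = m - 1)) := by
  have up1 : ∀ y, y < m → y ≤ r y := by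
    intro y
    induction y with
    | zero => intro _; exact Nat.zero_le _
    | succ y ih =>
      intro h
      have := P3 y (y + 1) (by omega) (by omega) (by omega)
      have := ih (by omega)
      omega
  have upm : m - 1 ≤ r m := by
    rcases Nat.lt_or_ge m 2 with h | h
    · omega
    · have := P3 (m - 2) m (by omega) (by omega) (by omega)
      have := up1 (m - 2) (by omega)
      omega
  have up2 : ∀ j, m + 1 + j < 2 * m → m + 1 + j ≤ r (m + 1 + j) := by
    intro j
    induction j with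
    | zero =>
      intro h
      have h1 := P3 (m - 1) (m + 1) (by omega) (by omega) (by omega)
      have h2 := P3 m (m + 1) (by omega) (by omega) (by omega)
      have h3 := P2 (m - 1) m (by omega) (by omega) (by omega)
      have h4 := up1 (m - 1) (by omega)
      simp only [add_zero]
      omega
    | succ j ih =>
      intro h
      have h1 := P3 (m + 1 + j) (m + 1 + (j + 1)) (by omega) (by omega) (by omega)
      have h2 := ih (by omega)
      omega
  have down : ∀ j, j < m → r (2 * m - 1 - j) ≤ 2 * m - 1 - j := by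
    intro j
    induction j with
    | zero =>
      intro h
      have := P1 (2 * m - 1 - 0) (by omega)
      omega
    | succ j ih =>
      intro h
      have h1 := P3 (2 * m - 1 - (j + 1)) (2 * m - 1 - j) (by omega) (by omega) (by omega)
      have h2 := ih (by omega)
      omega
  have dm0 : r m ≤ m := by
    have := down (m - 1) (by omega)
    rw [show 2 * m - 1 - (m - 1) = m by omega] at this
    exact this
  have dm : r (m - 1) ≤ m := by
    rcases Nat.lt_or_ge m 2 with h | h
    · have := P1 (m - 1) (by omega)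
      omega
    · have h1 := P3 (m - 1) (m + 1) (by omega) (by omega) (by omega)
      have h2 := down (m - 2) (by omega)
      rw [show 2 * m - 1 - (m - 2) = m + 1 by omega] at h2
      omega
  have d3 : ∀ j, j + 2 ≤ m → r (m - 2 - j) ≤ m - 2 - j := by
    intro j
    induction j with
    | zero =>
      intro h
      have h1 := P3 (m - 2) (m - 1) (by omega) (by omega) (by omega)
      have h2 := P3 (m - 2) m (by omega) (by omega) (by omega)
      have h3 := P2 (m - 1) m (by omega) (by omega) (by omega)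
      simp only [Nat.sub_zero]
      omega
    | succ j ih =>
      intro h
      have h1 := P3 (m - 2 - (j + 1)) (m - 2 - j) (by omega) (by omega) (by omega)
      have h2 := ih (by omega)
      omega
  refine ⟨?_, ?_⟩
  · intro y hy h1 h2
    rcases Nat.lt_or_ge y m with h | h
    · have e1 := up1 y h
      have e2 := d3 (m - 2 - y) (by omega)
      rw [show m - 2 - (m - 2 - y) = y by omega] at e2
      omega
    · have e1 := up2 (y - (m + 1)) (by omega)
      have e2 := down (2 * m - 1 - y) (by omega)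
      rw [show m + 1 + (y - (m + 1)) = y by omega] at e1
      rw [show 2 * m - 1 - (2 * m - 1 - y) = y by omega] at e2
      omega
  · have h3 := P2 (m - 1) m (by omega) (by omega) (by omega)
    have h4 := up1 (m - 1) (by omega)
    omega

theorem sign_rev (m : ℕ) (hm : 1 ≤ m) :
    Equiv.Perm.sign (Fin.revPerm : Equiv.Perm (Fin (2 * m))) = (-1) ^ m := by
  set σ : Equiv.Perm (Fin (2 * m)) := Fin.revPerm with hσ
  have hne : ∀ y : Fin (2 * m), σ y ≠ y := by
    intro y h
    have := congrArg Fin.val h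
    rw [hσ, Fin.revPerm_apply, Fin.val_rev] at this
    have := y.isLt
    omega
  have h2 : σ ^ 2 = 1 := by
    ext y
    rw [pow_two, Equiv.Perm.mul_apply, hσ, Fin.revPerm_apply, Fin.revPerm_apply, Fin.rev_rev]
    rfl
  have h1 : σ ≠ 1 := by
    intro h
    apply hne ⟨0, by omega⟩
    rw [h]; rfl
  have hord : orderOf σ = 2 := orderOf_eq_prime h2 h1
  obtain ⟨k, hk⟩ := Equiv.Perm.cycleType_prime_order (σ := σ) (by rw [hord]; exact Nat.prime_two)
  rw [hord] at hk
  have hsupp : σ.support = Finset.univ := by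
    ext y
    simp only [Equiv.Perm.mem_support, Finset.mem_univ, iff_true]
    exact hne y
  have hsum : σ.cycleType.sum = 2 * m := by
    rw [Equiv.Perm.sum_cycleType, hsupp, Finset.card_univ, Fintype.card_fin]
  have hkm : k + 1 = m := by
    rw [hk, Multiset.sum_replicate, smul_eq_mul] at hsum
    omega
  rw [Equiv.Perm.sign_of_cycleType, hsum, hk, Multiset.card_replicate, hkm, pow_add, pow_mul]
  simp

/-- The automorphisms of `K_m`. -/
theorem tau_eq (m : ℕ) (hm : 1 ≤ m) (τ : Equiv.Perm (Fin (2 * m))) (hs : Equiv.Perm.sign τ = 1)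
    (hτ : ∀ y y' : Fin (2 * m), kle m y y' → kle m (τ y') (τ y)) (y : Fin (2 * m)) :
    τ y = ksig m y := by
  set r : ℕ → ℕ := fun y => if h : y < 2 * m then 2 * m - ((τ ⟨y, h⟩ : ℕ) + 1) else 0 with hr
  have hr' : ∀ (y : ℕ) (h : y < 2 * m), r y = 2 * m - ((τ ⟨y, h⟩ : ℕ) + 1) := by
    intro y h
    rw [hr]; simp only [h, dif_pos]
  have P1 : ∀ y, y < 2 * m → r y < 2 * m := by
    intro y h
    rw [hr' y h]
    omega
  have P2 : ∀ y y', y < 2 * m → y' < 2 * m → y ≠ y' → r y ≠ r y' := by
    intro y y' h h' hne he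
    rw [hr' y h, hr' y' h'] at he
    have l1 := (τ ⟨y, h⟩).isLt
    have l2 := (τ ⟨y', h'⟩).isLt
    have : τ ⟨y, h⟩ = τ ⟨y', h'⟩ := Fin.ext (by omega)
    have := τ.injective this
    rw [Fin.mk.injEq] at this
    exact hne this
  have P3 : ∀ y y', y < y' → y' < 2 * m → ¬ (y + 1 = m ∧ y' = m) → r y < r y' := by
    intro y y' h h' hn
    have h1 : kle m y y' := Or.inr ⟨h, hn⟩
    have h2 := hτ ⟨y, by omega⟩ ⟨y', h'⟩ h1
    have h3 := kle_rev hm (τ ⟨y', h'⟩).isLt (τ ⟨y, by omega⟩).isLt h2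
    have h4 := kle_le' h3
    rw [← hr' y (by omega), ← hr' y' h'] at h4
    have := P2 y y' (by omega) h' (by omega)
    omega
  obtain ⟨g1, g2⟩ := rigid m hm r P1 P2 P3
  have hlast : ∀ y : Fin (2 * m), (τ y : ℕ) = 2 * m - (r y + 1) := by
    intro y
    have l1 := (τ y).isLt
    rw [hr' y y.isLt]
    simp only [Fin.eta]
    omega
  rcases g2 with ⟨e1, e2⟩ | ⟨e1, e2⟩
  · -- `ρ = 1`
    have hall : ∀ y : Fin (2 * m), τ y = Fin.rev y := by
      intro y
      apply Fin.ext
      rw [hlast, Fin.val_rev]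
      have l1 := y.isLt
      by_cases a1 : (y : ℕ) + 1 = m
      · have : (y : ℕ) = m - 1 := by omega
        rw [this, e1]
      · by_cases a2 : (y : ℕ) = m
        · rw [a2, e2]
        · rw [g1 y l1 a1 a2]
    have hτe : τ = Fin.revPerm := by
      ext y
      rw [hall, Fin.revPerm_apply]
    rw [hτe, sign_rev m hm] at hs
    have hev : Even m := by
      rcases Nat.even_or_odd m with h | h
      · exact h
      · exfalso
        rw [h.neg_one_pow] at hs
        exact absurd hs (by decide)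
    rw [hall, ksig, if_neg]
    rintro ⟨ho, -⟩
    exact (Nat.not_odd_iff_even.mpr hev) ho
  · -- `ρ` is a transposition
    have hall : ∀ y : Fin (2 * m), ((y : ℕ) + 1 = m ∨ (y : ℕ) = m) → τ y = y := by
      intro y hy
      apply Fin.ext
      rw [hlast]
      have l1 := y.isLt
      rcases hy with a1 | a1
      · have : (y : ℕ) = m - 1 := by omega
        rw [this, e1]
        omega
      · rw [a1, e2]
        omega
    have hall' : ∀ y : Fin (2 * m), ¬ ((y : ℕ) + 1 = m ∨ (y : ℕ) = m) → τ y = Fin.rev y := by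
      intro y hy
      apply Fin.ext
      rw [hlast, Fin.val_rev, g1 y y.isLt (fun h => hy (Or.inl h)) (fun h => hy (Or.inr h))]
    set s : Equiv.Perm (Fin (2 * m)) := Equiv.swap ⟨m - 1, by omega⟩ ⟨m, by omega⟩ with hsdef
    have hτe : τ = Fin.revPerm * s := by
      ext y
      rw [Equiv.Perm.mul_apply, Fin.revPerm_apply]
      by_cases a1 : (y : ℕ) + 1 = m
      · have : y = ⟨m - 1, by omega⟩ := Fin.ext (by simp only; omega)
        rw [hall y (Or.inl a1)]
        rw [this, hsdef, Equiv.swap_apply_left, Fin.val_rev]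
        simp only
        omega
      · by_cases a2 : (y : ℕ) = m
        · have : y = ⟨m, by omega⟩ := Fin.ext (by simp only; omega)
          rw [hall y (Or.inr a2)]
          rw [this, hsdef, Equiv.swap_apply_right, Fin.val_rev]
          simp only
          omega
        · have h1 : y ≠ ⟨m - 1, by omega⟩ := by
            intro h
            have := congrArg Fin.val h
            simp only at this
            omega
          have h2 : y ≠ ⟨m, by omega⟩ := by
            intro h
            have := congrArg Fin.val h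
            simp only at this
            omega
          rw [hall' y (by omega), hsdef, Equiv.swap_apply_of_ne_of_ne h1 h2]
    have hss : Equiv.Perm.sign s = -1 := by
      rw [hsdef]
      apply Equiv.Perm.sign_swap
      intro h
      have := congrArg Fin.val h
      simp only at this
      omega
    rw [hτe, Equiv.Perm.sign_mul, sign_rev m hm, hss] at hs
    have hod : Odd m := by
      rcases Nat.even_or_odd m with h | h
      · exfalso
        rw [h.neg_one_pow] at hs
        exact absurd hs (by decide)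
      · exact h
    rw [ksig]
    by_cases hy : (y : ℕ) + 1 = m ∨ (y : ℕ) = m
    · rw [if_pos ⟨hod, hy⟩, hall y hy]
    · rw [if_neg (fun h => hy h.2), hall' y hy]

end KC

/-- TARGET -/
theorem kCase {n : ℕ} {A : Matrix (Fin n) (Fin n) ℤ} {S : Set (Fin n)} {a : Fin n}
    (V : ℕ → ℕ → Fin n → ℤ) (xa xb m : ℕ) (hm : 1 ≤ m) (hx : xa ≤ xb)
    (hP : ∀ v, v ∈ PS A S a ↔ ∃ x y, xa ≤ x ∧ x ≤ xb ∧ y < 2 * m ∧ v = V x y)
    (hle : ∀ x y x' y', xa ≤ x → x ≤ xb → y < 2 * m → xa ≤ x' → x' ≤ xb → y' < 2 * m →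
      (V x y ≤ V x' y' ↔ x' ≤ x ∧ kle m y y'))
    (hstep : ∀ i ∈ S, ∃ (π : ℕ → ℕ) (τ : Equiv.Perm (Fin (2 * m))), Equiv.Perm.sign τ = 1 ∧
      (∀ x, xa ≤ x → x ≤ xb → xa ≤ π x ∧ π x ≤ xb) ∧
      ∀ x, xa ≤ x → x ≤ xb → ∀ y : Fin (2 * m), refl A i (V x y) = V (π x) (τ y))
    (w : (Fin n → ℤ) → (Fin n → ℤ)) (hw : Longest A S w) (P : Finset (Fin n → ℤ))
    (hPP : ∀ v, v ∈ P ↔ v ∈ PS A S a) (hd : ∀ i, A i i = 2) : Good (fun x y => x ≤ y) P w := by
  have hm2 : 0 < 2 * m := by omega
  have hinj : ∀ x y x' y', xa ≤ x → x ≤ xb → y < 2 * m → xa ≤ x' → x' ≤ xb → y' < 2 * m →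
      V x y = V x' y' → x = x' ∧ y = y' := by
    intro x y x' y' h1 h2 h3 h4 h5 h6 h
    have e1 := (hle x y x' y' h1 h2 h3 h4 h5 h6).mp h.le
    have e2 := (hle x' y' x y h4 h5 h6 h1 h2 h3).mp h.ge
    have e3 := KC.kle_le' e1.2
    have e4 := KC.kle_le' e2.2
    omega
  -- the action of a word
  have hact : ∀ u : List (Fin n), (∀ i ∈ u, i ∈ S) → ∃ (π : ℕ → ℕ)
      (τ : Equiv.Perm (Fin (2 * m))), Equiv.Perm.sign τ = 1 ∧
      (∀ x, xa ≤ x → x ≤ xb → xa ≤ π x ∧ π x ≤ xb) ∧
      ∀ x, xa ≤ x → x ≤ xb → ∀ y : Fin (2 * m), act A u (V x y) = V (π x) (τ y) := by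
    intro u
    induction u with
    | nil =>
      intro _
      exact ⟨id, 1, map_one _, fun x h1 h2 => ⟨h1, h2⟩, fun x _ _ y => rfl⟩
    | cons i u ih =>
      intro hu
      obtain ⟨π, τ, h0, h1, h3⟩ := ih fun j hj => hu j (List.mem_cons_of_mem _ hj)
      obtain ⟨σ, τ', g0, g1, g3⟩ := hstep i (hu i List.mem_cons_self)
      refine ⟨σ ∘ π, τ' * τ, by rw [Equiv.Perm.sign_mul, g0, h0, mul_one], fun x hx1 hx2 => ?_,
        fun x hx1 hx2 y => ?_⟩
      · exact g1 _ (h1 x hx1 hx2).1 (h1 x hx1 hx2).2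
      · rw [act_cons, h3 x hx1 hx2 y]
        exact g3 _ (h1 x hx1 hx2).1 (h1 x hx1 hx2).2 (τ y)
  obtain ⟨⟨u, hu, hwu⟩, _⟩ := id hw
  obtain ⟨π, τ, hs, h1, h3⟩ := hact u hu
  have hV : ∀ x y, xa ≤ x → x ≤ xb → y < 2 * m → V x y ∈ PS A S a := fun x y a1 a2 a3 =>
    (hP _).mpr ⟨x, y, a1, a2, a3, rfl⟩
  have hact' : ∀ x, xa ≤ x → x ≤ xb → ∀ y : Fin (2 * m), w (V x y) = V (π x) (τ y) := by
    intro x a1 a2 y
    rw [hwu]; exact h3 x a1 a2 y
  have hinjw : Function.Injective w := InW.injective hd hw.1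
  have hπ : ∀ x, xa ≤ x → x ≤ xb → π x = xa + xb - x := by
    intro x b1 b2
    refine rev_of_antitone h1 ?_ b1 b2
    intro x x' a1 a2 a3
    set y0 : Fin (2 * m) := ⟨0, hm2⟩ with hy0
    have hle1 : V x' y0 ≤ V x y0 := (hle _ _ _ _ (by omega) a3 y0.isLt a1 (by omega)
      y0.isLt).mpr ⟨by omega, KC.kle_refl _ _⟩
    have hle2 := PS_antitone hw (hV _ _ (by omega) a3 y0.isLt) (hV _ _ a1 (by omega) y0.isLt)
      hle1
    rw [hact' _ (by omega) a3, hact' _ a1 (by omega)] at hle2
    have p1 := h1 x a1 (by omega)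
    have p2 := h1 x' (by omega) a3
    have := (hle _ _ _ _ p1.1 p1.2 (τ y0).isLt p2.1 p2.2 (τ y0).isLt).mp hle2
    rcases Nat.lt_or_ge (π x') (π x) with h | h
    · exact h
    · exfalso
      have he : π x = π x' := le_antisymm h this.1
      have : w (V x y0) = w (V x' y0) := by
        rw [hact' _ (by omega) (by omega), hact' _ (by omega) a3, he]
      have := hinj _ _ _ _ a1 (by omega) y0.isLt (by omega) a3 y0.isLt (hinjw this)
      omega
  have hτ : ∀ y y' : Fin (2 * m), kle m y y' → kle m (τ y') (τ y) := by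
    intro y y' hyy
    have hle1 : V xa y ≤ V xa y' := (hle _ _ _ _ le_rfl hx y.isLt le_rfl hx y'.isLt).mpr
      ⟨le_rfl, hyy⟩
    have hle2 := PS_antitone hw (hV _ _ le_rfl hx y.isLt) (hV _ _ le_rfl hx y'.isLt) hle1
    rw [hact' _ le_rfl hx, hact' _ le_rfl hx] at hle2
    have q1 := h1 xa le_rfl hx
    exact ((hle _ _ _ _ q1.1 q1.2 (τ y').isLt q1.1 q1.2 (τ y).isLt).mp hle2).2
  have hτe := KC.tau_eq m hm τ hs hτ
  refine (kbox (xb - xa + 1) m hm).transfer (fun z => V (xb - (z.1 : ℕ)) (z.2 : ℕ)) ?_ ?_ ?_ ?_ ?_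
  · ext v
    rw [hPP, hP, Finset.mem_image]
    constructor
    · rintro ⟨x, y, a1, a2, a3, rfl⟩
      refine ⟨(⟨xb - x, by omega⟩, ⟨y, a3⟩), Finset.mem_univ _, ?_⟩
      simp only
      congr 1
      omega
    · rintro ⟨⟨i, j⟩, _, rfl⟩
      have hi := i.isLt
      exact ⟨xb - i, j, by omega, by omega, j.isLt, rfl⟩
  · rintro ⟨i, j⟩ _ ⟨i', j'⟩ _ h
    have hi := i.isLt
    have hj := j.isLt
    have hi' := i'.isLt
    have hj' := j'.isLt
    dsimp only at h
    have := hinj _ _ _ _ (by omega) (by omega) (by omega) (by omega) (by omega) (by omega) h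
    rw [Prod.mk.injEq, Fin.ext_iff, Fin.ext_iff]
    omega
  · rintro ⟨i, j⟩ _ ⟨i', j'⟩ _
    have hi := i.isLt
    have hj := j.isLt
    have hi' := i'.isLt
    have hj' := j'.isLt
    simp only
    rw [hle _ _ _ _ (by omega) (by omega) (by omega) (by omega) (by omega) (by omega),
      Fin.le_def]
    constructor
    · rintro ⟨c1, c2⟩
      exact ⟨by omega, c2⟩
    · rintro ⟨c1, c2⟩
      exact ⟨by omega, c2⟩
  · intro _ _
    exact Finset.mem_univ _
  · rintro ⟨i, j⟩ _
    have hi := i.isLt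
    simp only
    rw [hact' _ (by omega) (by omega), hπ _ (by omega) (by omega), hτe, Fin.val_rev]
    congr 1
    omega

end Pool.Agent.Helper282_TM
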