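import Pool.Agent.Helper282_TM.Gen

/-!
# Letters (weights of the standard representation) for the classical types (MP_1283eb_co)

The letters of `A_n` are `0, …, n`, of `B_n` are `0, …, 2n`, of `C_n`, `D_n` are `0, …, 2n-1`.
`pos y` is `ε_0 - ε_y` in the basis of simple roots, `V x y = pos y - pos x = ε_x - ε_y`.
`perm i` is the action of `s_i` on the letters.
-/

set_option autoImplicit false

namespace Pool.Agent.Helper282_TM

open Finset CartanMatrix

theorem sum_ind {n : ℕ} (g : ℕ → ℤ) (j : ℕ) (c : ℤ) :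
    ∑ k : Fin n, g k * (if (k : ℕ) = j then c else 0) = if j < n then g j * c else 0 := by
  split_ifs with h
  · rw [Finset.sum_eq_single ⟨j, h⟩]
    · simp
    · intro b _ hb
      rw [if_neg, mul_zero]
      intro h'
      exact hb (Fin.ext h')
    · intro h'
      exact absurd (Finset.mem_univ _) h'
  · refine Finset.sum_eq_zero fun k _ => ?_
    rw [if_neg, mul_zero]
    have := k.isLt
    omega

/-! ### Type A -/

def posA (y t : ℕ) : ℤ := if t < y then 1 else 0

def permA (i y : ℕ) : ℕ := if y = i then i + 1 else if y = i + 1 then i else y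

def VA (n x y : ℕ) (t : Fin n) : ℤ := posA y t - posA x t

theorem pairA {n : ℕ} (i : Fin n) (g : ℕ → ℤ) :
    pair (A n) i (fun t => g t) =
      2 * g i + (if 1 ≤ (i : ℕ) then - g (i - 1) else 0) + (if (i : ℕ) + 1 < n then - g (i + 1) else 0) := by
  have h : ∀ k : Fin n, A n k i = (if (k : ℕ) = i then 2 else 0) +
      (if (k : ℕ) = i - 1 then (if 1 ≤ (i : ℕ) then -1 else 0) else 0) +
      (if (k : ℕ) = i + 1 then -1 else 0) := by
    intro k
    simp only [A, Matrix.of_apply, Fin.ext_iff]
    grind
  have hi := i.isLt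
  unfold pair
  simp only [h, mul_add, Finset.sum_add_distrib, sum_ind]
  grind

theorem F1A {n : ℕ} (i : Fin n) (y : ℕ) (hy : y ≤ n) :
    refl (A n) i (fun t => posA y t) =
      fun t : Fin n => posA (permA i y) t - posA (permA i 0) t := by
  funext t
  have hi := i.isLt
  have ht := t.isLt
  by_cases h : t = i
  · subst h
    rw [refl_apply_self, pairA]
    grind (splits := 40) [posA, permA]
  · rw [refl_apply_ne h]
    have h' : (t : ℕ) ≠ i := fun h' => h (Fin.ext h')
    grind (splits := 40) [posA, permA]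

theorem reflVA {n : ℕ} (i : Fin n) (x y : ℕ) (hx : x ≤ n) (hy : y ≤ n) :
    refl (A n) i (VA n x y) = VA n (permA i x) (permA i y) := by
  have h : VA n x y = (fun t : Fin n => posA y t) - (fun t : Fin n => posA x t) := rfl
  rw [h, refl_sub, F1A i y hy, F1A i x hx]
  funext t
  simp only [Pi.sub_apply, VA]
  ring

/-! ### Type B -/

def posB (n y t : ℕ) : ℤ := (if t < y then 1 else 0) + (if 2 * n ≤ t + y then 1 else 0)

def permB (n i y : ℕ) : ℕ :=
  if i + 1 = n then (if y = i then i + 2 else if y = i + 2 then i else y)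
  else if y = i then i + 1 else if y = i + 1 then i else if y + i = 2 * n then y - 1
  else if y + i + 1 = 2 * n then y + 1 else y

def VB (n x y : ℕ) (t : Fin n) : ℤ := posB n y t - posB n x t

theorem pairB {n : ℕ} (i : Fin n) (g : ℕ → ℤ) :
    pair (B n) i (fun t => g t) =
      2 * g i + (if 1 ≤ (i : ℕ) then (if (i : ℕ) + 1 = n then -2 else -1) * g (i - 1) else 0) +
        (if (i : ℕ) + 1 < n then - g (i + 1) else 0) := by
  have h : ∀ k : Fin n, B n k i = (if (k : ℕ) = i then 2 else 0) +
      (if (k : ℕ) = i - 1 then (if 1 ≤ (i : ℕ) then (if (i : ℕ) + 1 = n then -2 else -1) else 0)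
        else 0) +
      (if (k : ℕ) = i + 1 then -1 else 0) := by
    intro k
    simp only [B, Matrix.of_apply, Fin.ext_iff]
    grind
  have hi := i.isLt
  unfold pair
  simp only [h, mul_add, Finset.sum_add_distrib, sum_ind]
  grind

theorem F1B {n : ℕ} (i : Fin n) (y : ℕ) (hy : y ≤ 2 * n) :
    refl (B n) i (fun t => posB n y t) =
      fun t : Fin n => posB n (permB n i y) t - posB n (permB n i 0) t := by
  funext t
  have hi := i.isLt
  have ht := t.isLt
  by_cases h : t = i
  · subst h
    rw [refl_apply_self, pairB]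
    grind (splits := 40) [posB, permB]
  · rw [refl_apply_ne h]
    have h' : (t : ℕ) ≠ i := fun h' => h (Fin.ext h')
    grind (splits := 40) [posB, permB]

theorem reflVB {n : ℕ} (i : Fin n) (x y : ℕ) (hx : x ≤ 2 * n) (hy : y ≤ 2 * n) :
    refl (B n) i (VB n x y) = VB n (permB n i x) (permB n i y) := by
  have h : VB n x y = (fun t : Fin n => posB n y t) - (fun t : Fin n => posB n x t) := rfl
  rw [h, refl_sub, F1B i y hy, F1B i x hx]
  funext t
  simp only [Pi.sub_apply, VB]
  ring

/-! ### Type C -/

def posC (n y t : ℕ) : ℤ :=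
  (if t < y then 1 else 0) + (if t + 1 < n then (if 2 * n ≤ t + y + 1 then 1 else 0) else 0)

def permC (n i y : ℕ) : ℕ :=
  if y = i then i + 1 else if y = i + 1 then i
  else if i + 1 = n then y
  else if y + i + 1 = 2 * n then y - 1 else if y + i + 2 = 2 * n then y + 1 else y

def VC (n x y : ℕ) (t : Fin n) : ℤ := posC n y t - posC n x t

theorem pairC {n : ℕ} (i : Fin n) (g : ℕ → ℤ) :
    pair (C n) i (fun t => g t) =
      2 * g i + (if 1 ≤ (i : ℕ) then - g (i - 1) else 0) +
        (if (i : ℕ) + 1 < n then (if (i : ℕ) + 2 = n then -2 else -1) * g (i + 1) else 0) := by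
  have h : ∀ k : Fin n, C n k i = (if (k : ℕ) = i then 2 else 0) +
      (if (k : ℕ) = i - 1 then (if 1 ≤ (i : ℕ) then -1 else 0) else 0) +
      (if (k : ℕ) = i + 1 then (if (i : ℕ) + 2 = n then -2 else -1) else 0) := by
    intro k
    simp only [C, Matrix.of_apply, Fin.ext_iff]
    grind
  have hi := i.isLt
  unfold pair
  simp only [h, mul_add, Finset.sum_add_distrib, sum_ind]
  grind

theorem F1C {n : ℕ} (i : Fin n) (y : ℕ) (hy : y < 2 * n) :
    refl (C n) i (fun t => posC n y t) =
      fun t : Fin n => posC n (permC n i y) t - posC n (permC n i 0) t := by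
  funext t
  have hi := i.isLt
  have ht := t.isLt
  by_cases h : t = i
  · subst h
    rw [refl_apply_self, pairC]
    grind (splits := 40) [posC, permC]
  · rw [refl_apply_ne h]
    have h' : (t : ℕ) ≠ i := fun h' => h (Fin.ext h')
    grind (splits := 40) [posC, permC]

theorem reflVC {n : ℕ} (i : Fin n) (x y : ℕ) (hx : x < 2 * n) (hy : y < 2 * n) :
    refl (C n) i (VC n x y) = VC n (permC n i x) (permC n i y) := by
  have h : VC n x y = (fun t : Fin n => posC n y t) - (fun t : Fin n => posC n x t) := rfl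
  rw [h, refl_sub, F1C i y hy, F1C i x hx]
  funext t
  simp only [Pi.sub_apply, VC]
  ring

/-! ### Type D -/

def posD (n y t : ℕ) : ℤ :=
  if t + 2 < n then (if t < y then 1 else 0) + (if 2 * n ≤ t + y + 1 then 1 else 0)
  else if t + 2 = n then (if y + 1 = n ∨ n < y then 1 else 0)
  else (if n ≤ y then 1 else 0)

def permD (n i y : ℕ) : ℕ :=
  if i + 1 = n then
    (if y + 2 = n then n else if y = n then n - 2 else if y + 1 = n then n + 1
      else if y = n + 1 then n - 1 else y)
  else if y = i then i + 1 else if y = i + 1 then i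
  else if y + i + 1 = 2 * n then y - 1 else if y + i + 2 = 2 * n then y + 1 else y

def VD (n x y : ℕ) (t : Fin n) : ℤ := posD n y t - posD n x t

theorem pairD {n : ℕ} (hn : 3 ≤ n) (i : Fin n) (g : ℕ → ℤ) :
    pair (D n) i (fun t => g t) =
      2 * g i + (if 1 ≤ (i : ℕ) ∧ (i : ℕ) + 1 < n then - g (i - 1) else 0) +
        (if (i : ℕ) + 1 = n then - g (n - 3) else 0) +
        (if (i : ℕ) + 2 < n then - g (i + 1) else 0) +
        (if (i : ℕ) + 3 = n then - g (n - 1) else 0) := by
  have h : ∀ k : Fin n, D n k i = (if (k : ℕ) = i then 2 else 0) +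
      (if (k : ℕ) = i - 1 then (if 1 ≤ (i : ℕ) ∧ (i : ℕ) + 1 < n then -1 else 0) else 0) +
      (if (k : ℕ) = n - 3 then (if (i : ℕ) + 1 = n then -1 else 0) else 0) +
      (if (k : ℕ) = i + 1 then (if (i : ℕ) + 2 < n then -1 else 0) else 0) +
      (if (k : ℕ) = n - 1 then (if (i : ℕ) + 3 = n then -1 else 0) else 0) := by
    intro k
    have hk := k.isLt
    simp only [D, Matrix.of_apply, Fin.ext_iff]
    grind (splits := 30)
  have hi := i.isLt
  unfold pair
  simp only [h, mul_add, Finset.sum_add_distrib, sum_ind]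
  grind

theorem F1D {n : ℕ} (hn : 3 ≤ n) (i : Fin n) (y : ℕ) (hy : y < 2 * n) :
    refl (D n) i (fun t => posD n y t) =
      fun t : Fin n => posD n (permD n i y) t - posD n (permD n i 0) t := by
  funext t
  have hi := i.isLt
  have ht := t.isLt
  by_cases h : t = i
  · subst h
    rw [refl_apply_self, pairD hn]
    grind (splits := 60) [posD, permD]
  · rw [refl_apply_ne h]
    have h' : (t : ℕ) ≠ i := fun h' => h (Fin.ext h')
    grind (splits := 60) [posD, permD]

theorem reflVD {n : ℕ} (hn : 3 ≤ n) (i : Fin n) (x y : ℕ) (hx : x < 2 * n) (hy : y < 2 * n) :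
    refl (D n) i (VD n x y) = VD n (permD n i x) (permD n i y) := by
  have h : VD n x y = (fun t : Fin n => posD n y t) - (fun t : Fin n => posD n x t) := rfl
  rw [h, refl_sub, F1D hn i y hy, F1D hn i x hx]
  funext t
  simp only [Pi.sub_apply, VD]
  ring

end Pool.Agent.Helper282_TM
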