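import Pool.Agent.Helper282_TM.Defs

/-!
# General lemmas on upper ideals (MP_1283eb_co)
-/

set_option autoImplicit false

namespace Pool.Agent.Helper282_TM

open Finset

section

variable {V V' : Type*} [DecidableEq V] [DecidableEq V']

omit [DecidableEq V] in
theorem mem_ups {r : V → V → Prop} {P I : Finset V} : I ∈ ups r P ↔ Up r P I := by
  classical
  unfold ups
  rw [Finset.mem_filter, Finset.mem_powerset]
  exact ⟨fun h => h.2, fun h => ⟨h.1, h⟩⟩

/-- A fixed point of `w` kills the self-dual upper ideals. -/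
theorem sd_eq_zero {r : V → V → Prop} {P : Finset V} {w : V → V} {x : V} (hx : x ∈ P)
    (hw : w x = x) (hinj : ∀ y ∈ P, w y = x → y = x) : sd r P w = 0 := by
  unfold sd
  rw [Finset.card_eq_zero, Finset.filter_eq_empty_iff]
  intro I hI h
  have hI' := mem_ups.mp hI
  by_cases hxI : x ∈ I
  · have : x ∈ P \ I.image w := by rw [h]; exact hxI
    rw [Finset.mem_sdiff] at this
    exact this.2 (Finset.mem_image.mpr ⟨x, hxI, hw⟩)
  · have : x ∈ P \ I.image w := by
      rw [Finset.mem_sdiff]
      refine ⟨hx, fun hm => ?_⟩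
      obtain ⟨y, hy, hyx⟩ := Finset.mem_image.mp hm
      have := hinj y (hI'.1 hy) hyx
      rw [this] at hy
      exact hxI hy
    rw [h] at this
    exact hxI this

/-- Transport along a bijection. -/
theorem Good.transfer {r' : V' → V' → Prop} {P' : Finset V'} {w' : V' → V'}
    (h : Good r' P' w') {r : V → V → Prop} {P : Finset V} {w : V → V} (f : V' → V)
    (hP : P = P'.image f) (hinj : ∀ x ∈ P', ∀ y ∈ P', f x = f y → x = y)
    (hr : ∀ x ∈ P', ∀ y ∈ P', (r (f x) (f y) ↔ r' x y)) (hw' : ∀ x ∈ P', w' x ∈ P')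
    (hw : ∀ x ∈ P', w (f x) = f (w' x)) : Good r P w := by
  have hinj' : Set.InjOn f (P' : Set V') := fun x hx y hy hxy => hinj x hx y hy hxy
  have hsub : ∀ I ∈ ups r' P', I ⊆ P' := fun I hI => (mem_ups.mp hI).1
  have hups : ups r P = (ups r' P').image fun I => I.image f := by
    ext J
    rw [mem_ups, Finset.mem_image]
    constructor
    · rintro ⟨h1, h2⟩
      refine ⟨P'.filter fun x => f x ∈ J, ?_, ?_⟩
      · rw [mem_ups]
        refine ⟨Finset.filter_subset _ _, fun x hx y hy hxy => ?_⟩
        rw [Finset.mem_filter] at hx ⊢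
        exact ⟨hy, h2 _ hx.2 _ (hP ▸ Finset.mem_image_of_mem f hy) ((hr x hx.1 y hy).mpr hxy)⟩
      · ext v
        rw [Finset.mem_image]
        constructor
        · rintro ⟨x, hx, rfl⟩
          exact (Finset.mem_filter.mp hx).2
        · intro hv
          have := h1 hv
          rw [hP, Finset.mem_image] at this
          obtain ⟨x, hx, rfl⟩ := this
          exact ⟨x, Finset.mem_filter.mpr ⟨hx, hv⟩, rfl⟩
    · rintro ⟨I, hI, rfl⟩
      have hI' := mem_ups.mp hI
      refine ⟨?_, ?_⟩
      · rw [hP]; exact Finset.image_subset_image hI'.1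
      · intro v hv v' hv' hvv
        obtain ⟨x, hx, rfl⟩ := Finset.mem_image.mp hv
        rw [hP] at hv'
        obtain ⟨y, hy, rfl⟩ := Finset.mem_image.mp hv'
        exact Finset.mem_image_of_mem f (hI'.2 x hx y hy ((hr x (hI'.1 hx) y hy).mp hvv))
  have himinj : Set.InjOn (fun I : Finset V' => I.image f) (ups r' P' : Set (Finset V')) := by
    intro I hI J hJ hIJ
    have hI' := hsub I hI
    have hJ' := hsub J hJ
    have hIJ' : I.image f = J.image f := hIJ
    ext x
    constructor
    · intro hx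
      have : f x ∈ J.image f := by rw [← hIJ']; exact Finset.mem_image_of_mem f hx
      obtain ⟨y, hy, hyx⟩ := Finset.mem_image.mp this
      rw [← hinj y (hJ' hy) x (hI' hx) hyx]
      exact hy
    · intro hx
      have : f x ∈ I.image f := by rw [hIJ']; exact Finset.mem_image_of_mem f hx
      obtain ⟨y, hy, hyx⟩ := Finset.mem_image.mp this
      rw [← hinj y (hI' hy) x (hJ' hx) hyx]
      exact hy
  have hchi : chi r P = chi r' P' := by
    unfold chi
    rw [hups, Finset.sum_image himinj]
    refine Finset.sum_congr rfl fun I hI => ?_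
    rw [Finset.card_image_of_injOn (hinj'.mono (Finset.coe_subset.mpr (hsub I hI)))]
  have hsd : sd r P w = sd r' P' w' := by
    unfold sd
    rw [hups, Finset.filter_image, Finset.card_image_of_injOn]
    · congr 1
      refine Finset.filter_congr fun I hI => ?_
      have hI' := hsub I hI
      have e1 : (I.image f).image w = (I.image w').image f := by
        rw [Finset.image_image, Finset.image_image]
        exact Finset.image_congr fun x hx => hw x (hI' hx)
      have e2 : P \ (I.image w').image f = (P' \ I.image w').image f := by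
        ext v
        rw [Finset.mem_sdiff, hP, Finset.mem_image, Finset.mem_image, Finset.mem_image]
        constructor
        · rintro ⟨⟨x, hx, rfl⟩, h2⟩
          refine ⟨x, Finset.mem_sdiff.mpr ⟨hx, fun hx' => h2 ⟨x, hx', rfl⟩⟩, rfl⟩
        · rintro ⟨x, hx, rfl⟩
          rw [Finset.mem_sdiff] at hx
          refine ⟨⟨x, hx.1, rfl⟩, ?_⟩
          rintro ⟨y, hy, hyx⟩
          obtain ⟨z, hz, rfl⟩ := Finset.mem_image.mp hy
          have := hinj _ (hw' z (hI' hz)) x hx.1 hyx
          rw [this] at hy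
          exact hx.2 hy
      rw [e1, e2]
      constructor
      · intro h3
        ext x
        constructor
        · intro hx
          have : f x ∈ I.image f := by rw [← h3]; exact Finset.mem_image_of_mem f hx
          obtain ⟨y, hy, hyx⟩ := Finset.mem_image.mp this
          rw [← hinj y (hI' hy) x (Finset.mem_sdiff.mp hx).1 hyx]
          exact hy
        · intro hx
          have : f x ∈ (P' \ I.image w').image f := by
            rw [h3]; exact Finset.mem_image_of_mem f hx
          obtain ⟨y, hy, hyx⟩ := Finset.mem_image.mp this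
          rw [← hinj y (Finset.mem_sdiff.mp hy).1 x (hI' hx) hyx]
          exact hy
      · intro h3
        rw [h3]
    · exact himinj.mono (by
        intro I hI
        exact Finset.mem_coe.mpr (Finset.mem_filter.mp (Finset.mem_coe.mp hI)).1)
  unfold Good
  rw [hchi, hsd]
  exact h

/-- Disjoint unions. -/
theorem Good.union {r : V → V → Prop} {P₁ P₂ : Finset V} {w : V → V}
    (h₁ : Good r P₁ w) (h₂ : Good r P₂ w) (hd : Disjoint P₁ P₂)
    (h12 : ∀ x ∈ P₁, ∀ y ∈ P₂, ¬ r x y) (h21 : ∀ x ∈ P₂, ∀ y ∈ P₁, ¬ r x y)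
    (hw1 : ∀ x ∈ P₁, w x ∈ P₁) (hw2 : ∀ x ∈ P₂, w x ∈ P₂) : Good r (P₁ ∪ P₂) w := by
  have hI1 : ∀ I₁ I₂ : Finset V, I₁ ⊆ P₁ → I₂ ⊆ P₂ → (I₁ ∪ I₂) ∩ P₁ = I₁ := by
    intro I₁ I₂ hh1 hh2
    rw [Finset.union_inter_distrib_right, Finset.inter_eq_left.mpr hh1,
      Finset.disjoint_iff_inter_eq_empty.mp (hd.symm.mono_left hh2), Finset.union_empty]
  have hI2 : ∀ I₁ I₂ : Finset V, I₁ ⊆ P₁ → I₂ ⊆ P₂ → (I₁ ∪ I₂) ∩ P₂ = I₂ := by
    intro I₁ I₂ hh1 hh2
    rw [Finset.union_inter_distrib_right, Finset.inter_eq_left.mpr hh2,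
      Finset.disjoint_iff_inter_eq_empty.mp (hd.mono_left hh1), Finset.empty_union]
  have hups : ups r (P₁ ∪ P₂) = (ups r P₁ ×ˢ ups r P₂).image fun p => p.1 ∪ p.2 := by
    ext J
    rw [mem_ups, Finset.mem_image]
    constructor
    · rintro ⟨h3, h4⟩
      refine ⟨(J ∩ P₁, J ∩ P₂), ?_, ?_⟩
      · rw [Finset.mem_product, mem_ups, mem_ups]
        refine ⟨⟨Finset.inter_subset_right, ?_⟩, ⟨Finset.inter_subset_right, ?_⟩⟩
        · intro x hx y hy hxy
          rw [Finset.mem_inter] at hx ⊢
          exact ⟨h4 x hx.1 y (Finset.mem_union_left _ hy) hxy, hy⟩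
        · intro x hx y hy hxy
          rw [Finset.mem_inter] at hx ⊢
          exact ⟨h4 x hx.1 y (Finset.mem_union_right _ hy) hxy, hy⟩
      · change J ∩ P₁ ∪ J ∩ P₂ = J
        rw [← Finset.inter_union_distrib_left, Finset.inter_eq_left.mpr h3]
    · rintro ⟨⟨I₁, I₂⟩, hI, rfl⟩
      rw [Finset.mem_product, mem_ups, mem_ups] at hI
      refine ⟨Finset.union_subset_union hI.1.1 hI.2.1, ?_⟩
      intro x hx y hy hxy
      rcases Finset.mem_union.mp hx with hx | hx <;> rcases Finset.mem_union.mp hy with hy | hy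
      · exact Finset.mem_union_left _ (hI.1.2 x hx y hy hxy)
      · exact absurd hxy (h12 x (hI.1.1 hx) y hy)
      · exact absurd hxy (h21 x (hI.2.1 hx) y hy)
      · exact Finset.mem_union_right _ (hI.2.2 x hx y hy hxy)
  have hinj : Set.InjOn (fun p : Finset V × Finset V => p.1 ∪ p.2)
      ((ups r P₁ ×ˢ ups r P₂ : Finset (Finset V × Finset V)) : Set (Finset V × Finset V)) := by
    rintro ⟨I₁, I₂⟩ hI ⟨J₁, J₂⟩ hJ hIJ
    rw [Finset.mem_coe, Finset.mem_product, mem_ups, mem_ups] at hI hJ
    change I₁ ∪ I₂ = J₁ ∪ J₂ at hIJ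
    have e1 : I₁ = J₁ := by
      rw [← hI1 I₁ I₂ hI.1.1 hI.2.1, hIJ, hI1 J₁ J₂ hJ.1.1 hJ.2.1]
    have e2 : I₂ = J₂ := by
      rw [← hI2 I₁ I₂ hI.1.1 hI.2.1, hIJ, hI2 J₁ J₂ hJ.1.1 hJ.2.1]
    rw [e1, e2]
  have hchi : chi r (P₁ ∪ P₂) = chi r P₁ * chi r P₂ := by
    unfold chi
    rw [hups, Finset.sum_image hinj, Finset.sum_mul_sum, ← Finset.sum_product']
    refine Finset.sum_congr rfl fun p hp => ?_
    rw [Finset.mem_product, mem_ups, mem_ups] at hp
    rw [Finset.card_union_of_disjoint (hd.mono hp.1.1 hp.2.1), pow_add]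
  have hsd : sd r (P₁ ∪ P₂) w = sd r P₁ w * sd r P₂ w := by
    unfold sd
    rw [hups, Finset.filter_image, Finset.card_image_of_injOn, ← Finset.card_product]
    · congr 1
      ext ⟨I₁, I₂⟩
      simp only [Finset.mem_filter, Finset.mem_product, mem_ups]
      constructor
      · rintro ⟨⟨hu1, hu2⟩, h⟩
        have hm1 : I₁.image w ⊆ P₁ := by
          intro x hx
          obtain ⟨y, hy, rfl⟩ := Finset.mem_image.mp hx
          exact hw1 y (hu1.1 hy)
        have hm2 : I₂.image w ⊆ P₂ := by
          intro x hx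
          obtain ⟨y, hy, rfl⟩ := Finset.mem_image.mp hx
          exact hw2 y (hu2.1 hy)
        have key : (P₁ ∪ P₂) \ (I₁ ∪ I₂).image w = (P₁ \ I₁.image w) ∪ (P₂ \ I₂.image w) := by
          rw [Finset.image_union]
          ext x
          simp only [Finset.mem_union, Finset.mem_sdiff]
          have hx1 : x ∈ P₁ → x ∉ P₂ := fun h => Finset.disjoint_left.mp hd h
          have hx3 : x ∈ I₁.image w → x ∈ P₁ := fun h => hm1 h
          have hx4 : x ∈ I₂.image w → x ∈ P₂ := fun h => hm2 h
          tauto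
        rw [key] at h
        refine ⟨⟨hu1, ?_⟩, ⟨hu2, ?_⟩⟩
        · rw [← hI1 (P₁ \ I₁.image w) (P₂ \ I₂.image w) Finset.sdiff_subset Finset.sdiff_subset, h,
            hI1 I₁ I₂ hu1.1 hu2.1]
        · rw [← hI2 (P₁ \ I₁.image w) (P₂ \ I₂.image w) Finset.sdiff_subset Finset.sdiff_subset, h,
            hI2 I₁ I₂ hu1.1 hu2.1]
      · rintro ⟨⟨hu1, h1⟩, ⟨hu2, h2⟩⟩
        have hm1 : I₁.image w ⊆ P₁ := by
          intro x hx
          obtain ⟨y, hy, rfl⟩ := Finset.mem_image.mp hx
          exact hw1 y (hu1.1 hy)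
        have hm2 : I₂.image w ⊆ P₂ := by
          intro x hx
          obtain ⟨y, hy, rfl⟩ := Finset.mem_image.mp hx
          exact hw2 y (hu2.1 hy)
        have key : (P₁ ∪ P₂) \ (I₁ ∪ I₂).image w = (P₁ \ I₁.image w) ∪ (P₂ \ I₂.image w) := by
          rw [Finset.image_union]
          ext x
          simp only [Finset.mem_union, Finset.mem_sdiff]
          have hx1 : x ∈ P₁ → x ∉ P₂ := fun h => Finset.disjoint_left.mp hd h
          have hx3 : x ∈ I₁.image w → x ∈ P₁ := fun h => hm1 h
          have hx4 : x ∈ I₂.image w → x ∈ P₂ := fun h => hm2 h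
          tauto
        refine ⟨⟨hu1, hu2⟩, ?_⟩
        rw [key, h1, h2]
    · exact hinj.mono (by
        intro I hI
        exact Finset.mem_coe.mpr (Finset.mem_filter.mp (Finset.mem_coe.mp hI)).1)
  unfold Good
  rw [hchi, hsd, h₁, h₂]
  push_cast
  ring

/-- The empty poset. -/
theorem Good.empty (r : V → V → Prop) (w : V → V) : Good r ∅ w := by
  have h : ups r (∅ : Finset V) = {∅} := by
    ext I
    rw [mem_ups, Finset.mem_singleton]
    constructor
    · intro h
      exact Finset.subset_empty.mp h.1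
    · rintro rfl
      exact ⟨Finset.Subset.refl _, fun x hx => absurd hx (Finset.notMem_empty x)⟩
  have h2 : ({∅} : Finset (Finset V)).filter (fun I => ∅ \ I.image w = I) = {∅} := by
    rw [Finset.filter_singleton, if_pos (by simp)]
  unfold Good chi sd
  rw [h, h2]
  simp

/-- A finite disjoint union, indexed by a finite set of labels. -/
theorem Good.labels {ι : Type*} [DecidableEq ι] {r : V → V → Prop} {w : V → V} (c : V → ι)
    (P : Finset V) (hr : ∀ x ∈ P, ∀ y ∈ P, r x y → c x = c y)
    (hw : ∀ x ∈ P, w x ∈ P ∧ c (w x) = c x) (T : Finset ι)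
    (h : ∀ i ∈ T, Good r (P.filter fun x => c x = i) w) :
    Good r (P.filter fun x => c x ∈ T) w := by
  induction T using Finset.induction_on with
  | empty => simpa using Good.empty r w
  | insert i T hi ih =>
    have e : (P.filter fun x => c x ∈ insert i T) =
        (P.filter fun x => c x = i) ∪ (P.filter fun x => c x ∈ T) := by
      ext x
      simp only [Finset.mem_filter, Finset.mem_union, Finset.mem_insert]
      tauto
    rw [e]
    refine Good.union (h i (Finset.mem_insert_self i T))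
      (ih fun j hj => h j (Finset.mem_insert_of_mem hj)) ?_ ?_ ?_ ?_ ?_
    · rw [Finset.disjoint_left]
      intro x hx hx'
      rw [Finset.mem_filter] at hx hx'
      rw [hx.2] at hx'
      exact hi hx'.2
    · intro x hx y hy hxy
      rw [Finset.mem_filter] at hx hy
      have := hr x hx.1 y hy.1 hxy
      rw [hx.2] at this
      rw [← this] at hy
      exact hi hy.2
    · intro x hx y hy hxy
      rw [Finset.mem_filter] at hx hy
      have := hr x hx.1 y hy.1 hxy
      rw [hy.2] at this
      rw [this] at hx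
      exact hi hx.2
    · intro x hx
      rw [Finset.mem_filter] at hx ⊢
      exact ⟨(hw x hx.1).1, by rw [(hw x hx.1).2, hx.2]⟩
    · intro x hx
      rw [Finset.mem_filter] at hx ⊢
      exact ⟨(hw x hx.1).1, by rw [(hw x hx.1).2]; exact hx.2⟩

end

end Pool.Agent.Helper282_TM
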