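import Pool.Agent.Helper282_TM.Letters
import Pool.Agent.Helper282_TM.Cases
import Pool.Agent.Helper282_TM.Box

/-!
# Type A (MP_1283eb_co)
-/

set_option autoImplicit false

namespace Pool.Agent.Helper282_TM

open Finset CartanMatrix

theorem exists_left (p : ℕ → Prop) (a : ℕ) :
    ∃ x, x ≤ a ∧ (∀ t, x ≤ t → t < a → p t) ∧ (x = 0 ∨ ¬ p (x - 1)) := by
  induction a with
  | zero => exact ⟨0, le_rfl, fun t _ h => absurd h (Nat.not_lt_zero t), Or.inl rfl⟩
  | succ a ih =>
    by_cases h : p a
    · obtain ⟨x, h1, h2, h3⟩ := ih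
      refine ⟨x, by omega, fun t ht1 ht2 => ?_, h3⟩
      rcases Nat.lt_or_ge t a with h4 | h4
      · exact h2 t ht1 h4
      · rw [show t = a by omega]; exact h
    · exact ⟨a + 1, le_rfl, fun t h1 h2 => absurd h2 (by omega), Or.inr h⟩

theorem exists_right (p : ℕ → Prop) (a b : ℕ) (hab : a < b) :
    ∃ y, a < y ∧ y ≤ b ∧ (∀ t, a < t → t < y → p t) ∧ (y = b ∨ ¬ p y) := by
  induction b with
  | zero => omega
  | succ b ih =>
    rcases Nat.lt_or_ge a b with h | h
    · obtain ⟨y, h1, h2, h3, h4⟩ := ih h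
      by_cases h5 : y = b ∧ p b
      · refine ⟨b + 1, by omega, le_rfl, fun t ht1 ht2 => ?_, Or.inl rfl⟩
        rcases Nat.lt_or_ge t b with h6 | h6
        · exact h3 t ht1 (by omega)
        · rw [show t = b by omega]; exact h5.2
      · refine ⟨y, h1, by omega, h3, Or.inr fun hy => ?_⟩
        rcases h4 with h6 | h6
        · exact h5 ⟨h6, h6 ▸ hy⟩
        · exact h6 hy
    · exact ⟨b + 1, by omega, le_rfl, fun t h1 h2 => absurd h2 (by omega), Or.inl rfl⟩

/-- membership of the node `t` in `S`, for a natural number `t` -/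
def nodeIn {n : ℕ} (S : Set (Fin n)) (t : ℕ) : Prop := ∃ h : t < n, (⟨t, h⟩ : Fin n) ∈ S

theorem mem_of_nodeIn {n : ℕ} {S : Set (Fin n)} {i : Fin n} (h : nodeIn S i) : i ∈ S := by
  obtain ⟨_, h⟩ := h
  exact h

theorem nodeIn_of_mem {n : ℕ} {S : Set (Fin n)} {i : Fin n} (h : i ∈ S) : nodeIn S i :=
  ⟨i.isLt, h⟩

theorem single_VA {n : ℕ} (i : Fin n) : (Pi.single i 1 : Fin n → ℤ) = VA n i (i + 1) := by
  funext t
  by_cases h : t = i
  · subst h
    simp [VA, posA]
  · have h' : (t : ℕ) ≠ i := fun h' => h (Fin.ext h')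
    rw [Pi.single_eq_of_ne h]
    grind [VA, posA]

theorem rootsA {n : ℕ} {v : Fin n → ℤ} (hv : IsRoot (A n) v) :
    ∃ x y, x ≤ n ∧ y ≤ n ∧ x ≠ y ∧ v = VA n x y := by
  induction hv with
  | simple i => exact ⟨i, i + 1, by omega, by omega, by omega, single_VA i⟩
  | refl i v _ ih =>
    obtain ⟨x, y, hx, hy, hxy, rfl⟩ := ih
    have hi := i.isLt
    refine ⟨permA i x, permA i y, ?_, ?_, ?_, reflVA i x y hx hy⟩ <;> grind [permA]

theorem isRootA {n : ℕ} (x y : ℕ) (hxy : x < y) (hy : y ≤ n) : IsRoot (A n) (VA n x y) := by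
  induction y with
  | zero => omega
  | succ y ih =>
    rcases Nat.lt_or_ge x y with h | h
    · have e : VA n x (y + 1) = refl (A n) ⟨y, by omega⟩ (VA n x y) := by
        rw [reflVA _ _ _ (by omega) (by omega)]
        have e1 : permA y x = x := by grind [permA]
        have e2 : permA y y = y + 1 := by grind [permA]
        simp only [e1, e2]
      rw [e]
      exact IsRoot.refl _ _ (ih h (by omega))
    · have hx : x = y := by omega
      subst hx
      have := IsRoot.simple (A := A n) ⟨x, by omega⟩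
      rwa [single_VA] at this

theorem fineA (n : ℕ) : Fine (A n) where
  diag := fun i => by simp [A]
  fin := by
    refine (Set.finite_range fun p : Fin (n + 1) × Fin (n + 1) => VA n p.1 p.2).subset ?_
    intro v hv
    obtain ⟨x, y, hx, hy, _, rfl⟩ := rootsA hv
    exact ⟨(⟨x, by omega⟩, ⟨y, by omega⟩), rfl⟩
  sign := by
    intro v hv
    obtain ⟨x, y, hx, hy, hxy, rfl⟩ := rootsA hv
    rcases Nat.lt_or_ge x y with h | h
    · left; intro t; simp only [VA, posA, Pi.zero_apply]; grind
    · right; intro t; simp only [VA, posA, Pi.zero_apply]; grind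
  mult := by
    intro v i hv h0
    obtain ⟨x, y, hx, hy, hxy, rfl⟩ := rootsA hv
    have hi := i.isLt
    have key : ∀ t, t < n → t ≠ i → posA y t = posA x t := by
      intro t ht hti
      have := h0 ⟨t, ht⟩ (fun h => hti (by rw [← h]))
      simp only [VA] at this
      omega
    simp only [VA]
    have k1 := key x
    have k2 := key y
    simp only [posA] at k1 k2 ⊢
    grind

theorem holdsA (n : ℕ) : Holds (A n) := by
  intro S a ha w hw P hPP
  obtain ⟨xa, hxa1, hxa2, hxa3⟩ := exists_left (nodeIn S) a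
  obtain ⟨yb, hyb1, hyb2, hyb3, hyb4⟩ := exists_right (nodeIn S) a n a.isLt
  have han := a.isLt
  have hyb4' : yb = n ∨ ∃ h : yb < n, (⟨yb, h⟩ : Fin n) ∉ S := by
    rcases Nat.lt_or_ge yb n with h | h
    · right
      refine ⟨h, fun hS => ?_⟩
      rcases hyb4 with h1 | h1
      · omega
      · exact h1 ⟨h, hS⟩
    · left; omega
  have hxa3' : xa = 0 ∨ ∃ h : xa - 1 < n, 1 ≤ xa ∧ (⟨xa - 1, h⟩ : Fin n) ∉ S := by
    rcases Nat.eq_zero_or_pos xa with h | h
    · exact Or.inl h
    · right
      refine ⟨by omega, h, fun hS => ?_⟩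
      rcases hxa3 with h1 | h1
      · omega
      · exact h1 ⟨by omega, hS⟩
  refine boxCase box (VA n) xa a (a + 1) yb hxa1 hyb1 ?_ ?_ ?_ w hw P hPP (fineA n).diag
  · intro v
    constructor
    · rintro ⟨h1, h2, h3⟩
      obtain ⟨x, y, hx, hy, hxy, rfl⟩ := rootsA h1
      have hxa : x ≤ a ∧ (a : ℕ) < y := by
        simp only [VA, posA] at h2; grind
      refine ⟨x, y, ?_, hxa.1, hxa.2, ?_, rfl⟩
      · rcases hxa3' with h | ⟨h, h4, h5⟩
        · omega
        · have := h3 _ h5 (fun h6 => by rw [← h6] at hxa1; simp only at hxa1; omega)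
          simp only [VA, posA] at this
          grind
      · rcases hyb4' with h | ⟨h, h5⟩
        · omega
        · have := h3 _ h5 (fun h6 => by rw [← h6] at hyb1; simp only at hyb1; omega)
          simp only [VA, posA] at this
          grind
    · rintro ⟨x, y, h1, h2, h3, h4, rfl⟩
      refine ⟨isRootA x y (by omega) (by omega), ?_, ?_⟩
      · simp only [VA, posA]; grind
      · intro i hi hia
        have hia' : (i : ℕ) ≠ a := fun h => hia (Fin.ext h)
        by_contra hne
        apply hi
        apply mem_of_nodeIn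
        simp only [VA, posA] at hne
        rcases Nat.lt_or_ge i a with h | h
        · exact hxa2 i (by grind) h
        · exact hyb3 i (by omega) (by grind)
  · intro x y x' y' h1 h2 h3 h4 h5 h6 h7 h8
    constructor
    · intro h
      by_contra hcon
      rcases Nat.lt_or_ge x x' with h9 | h9
      · have := h ⟨x, by omega⟩
        simp only [VA, posA] at this
        grind
      · have := h ⟨y', by omega⟩
        simp only [VA, posA] at this
        grind
    · intro h t
      simp only [VA, posA]
      grind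
  · intro i hi
    have hin := i.isLt
    have hia : (i : ℕ) ≠ a := fun h => ha (by rwa [← Fin.ext h])
    have hix : (i : ℕ) + 1 ≠ xa := by
      intro h
      rcases hxa3' with h1 | ⟨h1, h2, h3⟩
      · omega
      · apply h3
        have : (⟨xa - 1, h1⟩ : Fin n) = i := Fin.ext (by simp only; omega)
        rwa [this]
    have hiy : (i : ℕ) ≠ yb := by
      intro h
      rcases hyb4' with h1 | ⟨h1, h3⟩
      · omega
      · apply h3
        have : (⟨yb, h1⟩ : Fin n) = i := Fin.ext (by simp only; omega)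
        rwa [this]
    refine ⟨permA i, ?_, ?_, ?_⟩
    · intro x h1 h2; grind [permA]
    · intro y h1 h2; grind [permA]
    · intro x y _ h2 _ h4
      exact reflVA i x y (by omega) (by omega)

end Pool.Agent.Helper282_TM
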