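import Pool.Agent.Helper282_TM.TypeA

/-!
# Type B (proved by helper514)
-/

set_option autoImplicit false

namespace Pool.Agent.Helper282_TM

open Finset CartanMatrix

namespace TB

theorem single_VB {n : ℕ} (i : Fin n) : (Pi.single i 1 : Fin n → ℤ) = VB n i (i + 1) := by
  have hi := i.isLt
  funext t
  have ht := t.isLt
  by_cases h : t = i
  · subst h
    rw [Pi.single_eq_same]
    simp only [VB, posB]
    grind
  · have h' : (t : ℕ) ≠ i := fun h' => h (Fin.ext h')
    rw [Pi.single_eq_of_ne h]
    simp only [VB, posB]
    grind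

theorem mirror {n : ℕ} (x y : ℕ) (hx : x ≤ 2 * n) (hy : y ≤ 2 * n) :
    VB n x y = VB n (2 * n - y) (2 * n - x) := by
  funext t
  have ht := t.isLt
  simp only [VB, posB]
  grind

theorem rootsB {n : ℕ} {v : Fin n → ℤ} (hv : IsRoot (B n) v) :
    ∃ x y, x ≤ 2 * n ∧ y ≤ 2 * n ∧ x ≠ y ∧ x + y ≠ 2 * n ∧ v = VB n x y := by
  induction hv with
  | simple i => exact ⟨i, i + 1, by omega, by omega, by omega, by omega, single_VB i⟩
  | refl i v _ ih =>
    obtain ⟨x, y, hx, hy, hxy, hxy2, rfl⟩ := ih
    have hi := i.isLt
    refine ⟨permB n i x, permB n i y, ?_, ?_, ?_, ?_, reflVB i x y hx hy⟩ <;>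
      grind (splits := 40) [permB]

/-- roots up to sign, in normal form -/
theorem rootsB' {n : ℕ} {v : Fin n → ℤ} (hv : IsRoot (B n) v) :
    ∃ x y, x < y ∧ x + y < 2 * n ∧ (v = VB n x y ∨ v = VB n y x) := by
  obtain ⟨x, y, hx, hy, hxy, hxy2, rfl⟩ := rootsB hv
  rcases Nat.lt_or_ge x y with h1 | h1 <;> rcases Nat.lt_or_ge (x + y) (2 * n) with h2 | h2
  · exact ⟨x, y, h1, h2, Or.inl rfl⟩
  · exact ⟨2 * n - y, 2 * n - x, by omega, by omega, Or.inl (mirror x y hx hy)⟩
  · exact ⟨y, x, by omega, by omega, Or.inr rfl⟩
  · exact ⟨2 * n - x, 2 * n - y, by omega, by omega, Or.inr (mirror x y hx hy)⟩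

theorem isRootB_n {n : ℕ} (j x : ℕ) (hx : x + j + 1 = n) : IsRoot (B n) (VB n x n) := by
  induction j generalizing x with
  | zero =>
    have := IsRoot.simple (A := B n) ⟨x, by omega⟩
    rw [single_VB] at this
    have e : x + 1 = n := by omega
    simpa only [e] using this
  | succ j ih =>
    have e : VB n x n = refl (B n) ⟨x, by omega⟩ (VB n (x + 1) n) := by
      rw [reflVB _ _ _ (by omega) (by omega)]
      have e1 : permB n x (x + 1) = x := by grind [permB]
      have e2 : permB n x n = n := by grind [permB]
      simp only [e1, e2]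
    rw [e]
    exact IsRoot.refl _ _ (ih (x + 1) (by omega))

theorem isRootB_lt {n : ℕ} (x y : ℕ) (hxy : x < y) (hy : y < n) : IsRoot (B n) (VB n x y) := by
  induction y with
  | zero => omega
  | succ y ih =>
    rcases Nat.lt_or_ge x y with h | h
    · have e : VB n x (y + 1) = refl (B n) ⟨y, by omega⟩ (VB n x y) := by
        rw [reflVB _ _ _ (by omega) (by omega)]
        have e1 : permB n y x = x := by grind [permB]
        have e2 : permB n y y = y + 1 := by grind [permB]
        simp only [e1, e2]
      rw [e]
      exact IsRoot.refl _ _ (ih h (by omega))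
    · have hx : x = y := by omega
      subst hx
      have := IsRoot.simple (A := B n) ⟨x, by omega⟩
      rwa [single_VB] at this

theorem isRootB {n : ℕ} (x y : ℕ) (hxy : x < y) (hy : x + y < 2 * n) :
    IsRoot (B n) (VB n x y) := by
  induction y with
  | zero => omega
  | succ y ih =>
    rcases Nat.lt_trichotomy (y + 1) n with h | h | h
    · exact isRootB_lt x (y + 1) hxy h
    · rw [h]
      exact isRootB_n (n - 1 - x) x (by omega)
    · rcases Nat.lt_or_ge n y with h1 | h1
      · have e : VB n x (y + 1) = refl (B n) ⟨2 * n - 1 - y, by omega⟩ (VB n x y) := by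
          rw [reflVB _ _ _ (by omega) (by omega)]
          have e1 : permB n (2 * n - 1 - y) x = x := by grind (splits := 40) [permB]
          have e2 : permB n (2 * n - 1 - y) y = y + 1 := by grind (splits := 40) [permB]
          simp only [e1, e2]
        rw [e]
        exact IsRoot.refl _ _ (ih (by omega) (by omega))
      · have hy1 : y = n := by omega
        subst hy1
        have e : VB y x (y + 1) = refl (B y) ⟨y - 1, by omega⟩ (VB y x (y - 1)) := by
          rw [reflVB _ _ _ (by omega) (by omega)]
          have e1 : permB y (y - 1) x = x := by grind (splits := 40) [permB]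
          have e2 : permB y (y - 1) (y - 1) = y + 1 := by grind (splits := 40) [permB]
          simp only [e1, e2]
        rw [e]
        exact IsRoot.refl _ _ (isRootB_lt x (y - 1) (by omega) (by omega))

theorem fineB (n : ℕ) : Fine (B n) where
  diag := fun i => by simp [B]
  fin := by
    refine (Set.finite_range fun p : Fin (2 * n + 1) × Fin (2 * n + 1) => VB n p.1 p.2).subset ?_
    intro v hv
    obtain ⟨x, y, hx, hy, _, _, rfl⟩ := rootsB hv
    exact ⟨(⟨x, by omega⟩, ⟨y, by omega⟩), rfl⟩
  sign := by
    intro v hv
    obtain ⟨x, y, hxy, hxy2, h | h⟩ := rootsB' hv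
    · left; intro t; subst h; simp only [VB, posB, Pi.zero_apply]; grind
    · right; intro t; subst h; simp only [VB, posB, Pi.zero_apply]; grind
  mult := by
    intro v i hv h0
    have hi := i.isLt
    obtain ⟨x, y, hxy, hxy2, h | h⟩ := rootsB' hv
    · subst h
      have hx : x = i := by
        by_contra hne
        have := h0 ⟨x, by omega⟩ (fun h => hne (by rw [← h]))
        simp only [VB, posB] at this
        grind
      left
      subst hx
      simp only [VB, posB]
      grind
    · subst h
      have hx : x = i := by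
        by_contra hne
        have := h0 ⟨x, by omega⟩ (fun h => hne (by rw [← h]))
        simp only [VB, posB] at this
        grind
      right
      subst hx
      simp only [VB, posB]
      grind

theorem holdsB (n : ℕ) : Holds (B n) := by
  intro S a ha w hw P hPP
  obtain ⟨xa, hxa1, hxa2, hxa3⟩ := exists_left (nodeIn S) a
  obtain ⟨yb, hyb1, hyb2, hyb3, hyb4⟩ := exists_right (nodeIn S) a n a.isLt
  have han := a.isLt
  have hyb4' : yb = n ∨ ∃ h : yb < n, (⟨yb, h⟩ : Fin n) ∉ S := by
    rcases Nat.lt_or_ge yb n with h | h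
    · right
      refine ⟨h, fun hS => ?_⟩
      rcases hyb4 with h1 | h1
      · omega
      · exact h1 ⟨h, hS⟩
    · left; omega
  have hxa3' : xa = 0 ∨ ∃ h : xa - 1 < n, 1 ≤ xa ∧ (⟨xa - 1, h⟩ : Fin n) ∉ S := by
    rcases Nat.eq_zero_or_pos xa with h | h
    · exact Or.inl h
    · right
      refine ⟨by omega, h, fun hS => ?_⟩
      rcases hxa3 with h1 | h1
      · omega
      · exact h1 ⟨by omega, hS⟩
  obtain ⟨Yb, hYb⟩ : ∃ Yb, (yb < n ∧ Yb = yb) ∨ (yb = n ∧ Yb = 2 * n - 1 - a) := by
    rcases Nat.lt_or_ge yb n with h | h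
    · exact ⟨yb, Or.inl ⟨h, rfl⟩⟩
    · exact ⟨_, Or.inr ⟨by omega, rfl⟩⟩
  refine boxCase box (VB n) xa a (a + 1) Yb hxa1 (by omega) ?_ ?_ ?_ w hw P hPP (fineB n).diag
  · intro v
    constructor
    · rintro ⟨h1, h2, h3⟩
      obtain ⟨x, y, hxy, hxy2, h | h⟩ := rootsB' h1
      · subst h
        have hxa : x ≤ a ∧ (a : ℕ) < y ∧ y + a < 2 * n := by
          simp only [VB, posB] at h2; grind
        refine ⟨x, y, ?_, hxa.1, hxa.2.1, ?_, rfl⟩
        · rcases hxa3' with h | ⟨h, h4, h5⟩
          · omega
          · have := h3 _ h5 (fun h6 => by rw [← h6] at hxa1; simp only at hxa1; omega)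
            simp only [VB, posB] at this
            grind
        · rcases hyb4' with h | ⟨h, h5⟩
          · omega
          · have := h3 _ h5 (fun h6 => by rw [← h6] at hyb1; simp only at hyb1; omega)
            simp only [VB, posB] at this
            grind
      · exfalso
        subst h
        simp only [VB, posB] at h2
        grind
    · rintro ⟨x, y, h1, h2, h3, h4, rfl⟩
      refine ⟨isRootB x y (by omega) (by omega), ?_, ?_⟩
      · simp only [VB, posB]; grind
      · intro i hi hia
        have hia' : (i : ℕ) ≠ a := fun h => hia (Fin.ext h)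
        have hin := i.isLt
        by_contra hne
        apply hi
        apply mem_of_nodeIn
        simp only [VB, posB] at hne
        rcases Nat.lt_or_ge i a with h | h
        · exact hxa2 i (by grind) h
        · exact hyb3 i (by omega) (by grind)
  · intro x y x' y' h1 h2 h3 h4 h5 h6 h7 h8
    constructor
    · intro h
      by_contra hcon
      rcases Nat.lt_or_ge x x' with h9 | h9
      · have := h ⟨x, by omega⟩
        simp only [VB, posB] at this
        grind
      · rcases Nat.lt_or_ge y' n with h10 | h10
        · have := h ⟨y', by omega⟩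
          simp only [VB, posB] at this
          grind
        · have := h ⟨2 * n - 1 - y', by omega⟩
          simp only [VB, posB] at this
          grind
    · intro h t
      have ht := t.isLt
      simp only [VB, posB]
      grind
  · intro i hi
    have hin := i.isLt
    have hia : (i : ℕ) ≠ a := fun h => ha (by rwa [← Fin.ext h])
    have hix : (i : ℕ) + 1 ≠ xa := by
      intro h
      rcases hxa3' with h1 | ⟨h1, h2, h3⟩
      · omega
      · apply h3
        have : (⟨xa - 1, h1⟩ : Fin n) = i := Fin.ext (by simp only; omega)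
        rwa [this]
    have hiy : (i : ℕ) ≠ yb := by
      intro h
      rcases hyb4' with h1 | ⟨h1, h3⟩
      · omega
      · apply h3
        have : (⟨yb, h1⟩ : Fin n) = i := Fin.ext (by simp only; omega)
        rwa [this]
    refine ⟨permB n i, ?_, ?_, ?_⟩
    · intro x h1 h2; grind (splits := 40) [permB]
    · intro y h1 h2; grind (splits := 40) [permB]
    · intro x y _ h2 _ h4
      exact reflVB i x y (by omega) (by omega)

end TB

/-- TARGET -/
theorem typeB (n : ℕ) : Fine (B n) ∧ Holds (B n) :=
  ⟨TB.fineB n, TB.holdsB n⟩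

end Pool.Agent.Helper282_TM
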