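import Pool.Agent.Helper282_TM.TypeA

/-!
# Type C (proved by helper447)
-/

set_option autoImplicit false

namespace Pool.Agent.Helper282_TM

open Finset CartanMatrix

namespace TC

theorem VC_symm {n : ℕ} (x y : ℕ) (hx : x < 2 * n) (hy : y < 2 * n) :
    VC n x y = VC n (2 * n - 1 - y) (2 * n - 1 - x) := by
  funext t
  have ht := t.isLt
  simp only [VC, posC]
  grind (splits := 40)

theorem VC_neg {n : ℕ} (x y : ℕ) : VC n x y = - VC n y x := by
  funext t
  simp only [VC, Pi.neg_apply]
  ring

theorem single_VC {n : ℕ} (i : Fin n) : (Pi.single i 1 : Fin n → ℤ) = VC n i (i + 1) := by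
  funext t
  have hi := i.isLt
  have ht := t.isLt
  by_cases h : t = i
  · subst h
    rw [Pi.single_eq_same]
    grind [VC, posC]
  · have h' : (t : ℕ) ≠ i := fun h' => h (Fin.ext h')
    rw [Pi.single_eq_of_ne h]
    grind [VC, posC]

theorem permC_lt {n i y : ℕ} (hi : i < n) (hy : y < 2 * n) : permC n i y < 2 * n := by
  grind [permC]

theorem permC_inj {n i x y : ℕ} (hi : i < n) (hx : x < 2 * n) (hy : y < 2 * n) (hxy : x ≠ y) :
    permC n i x ≠ permC n i y := by
  grind (splits := 40) [permC]

theorem permC_rev {n i y : ℕ} (hi : i < n) (hy : y < 2 * n) :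
    permC n i (2 * n - 1 - y) = 2 * n - 1 - permC n i y := by
  grind (splits := 40) [permC]

theorem rootsC {n : ℕ} {v : Fin n → ℤ} (hv : IsRoot (C n) v) :
    ∃ x y, x < 2 * n ∧ y < 2 * n ∧ x ≠ y ∧ v = VC n x y := by
  induction hv with
  | simple i => exact ⟨i, i + 1, by omega, by omega, by omega, single_VC i⟩
  | refl i v _ ih =>
    obtain ⟨x, y, hx, hy, hxy, rfl⟩ := ih
    exact ⟨permC n i x, permC n i y, permC_lt i.isLt hx, permC_lt i.isLt hy,
      permC_inj i.isLt hx hy hxy, reflVC i x y hx hy⟩

/-- `VC x y` is a root for `x < y ≤ n`. -/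
theorem isRootC1 {n : ℕ} (x y : ℕ) (hxy : x < y) (hy : y ≤ n) : IsRoot (C n) (VC n x y) := by
  induction y with
  | zero => omega
  | succ y ih =>
    rcases Nat.lt_or_ge x y with h | h
    · have e : VC n x (y + 1) = refl (C n) ⟨y, by omega⟩ (VC n x y) := by
        rw [reflVC _ _ _ (by omega) (by omega)]
        have e1 : permC n y x = x := by grind [permC]
        have e2 : permC n y y = y + 1 := by grind [permC]
        simp only [e1, e2]
      rw [e]
      exact IsRoot.refl _ _ (ih h (by omega))
    · have hx : x = y := by omega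
      subst hx
      have := IsRoot.simple (A := C n) ⟨x, by omega⟩
      rwa [single_VC] at this

/-- `VC x y` is a root for `x < y`, `n ≤ y`, `x + y + 1 < 2n`. -/
theorem isRootC2 {n : ℕ} (x k : ℕ) (hxy : x + (n + k) + 1 < 2 * n) :
    IsRoot (C n) (VC n x (n + k)) := by
  induction k with
  | zero => exact isRootC1 x n (by omega) le_rfl
  | succ k ih =>
    have e : VC n x (n + (k + 1)) = refl (C n) ⟨n - 2 - k, by omega⟩ (VC n x (n + k)) := by
      rw [reflVC _ _ _ (by omega) (by omega)]
      have e1 : permC n (n - 2 - k) x = x := by grind [permC]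
      have e2 : permC n (n - 2 - k) (n + k) = n + (k + 1) := by grind [permC]
      simp only [e1, e2]
    rw [e]
    exact IsRoot.refl _ _ (ih (by omega))

/-- The long roots. -/
theorem isRootC3 {n : ℕ} (k : ℕ) (hk : k < n) : IsRoot (C n) (VC n (n - 1 - k) (n + k)) := by
  induction k with
  | zero =>
    have := isRootC1 (n := n) (n - 1) n (by omega) le_rfl
    simpa using this
  | succ k ih =>
    have e : VC n (n - 1 - (k + 1)) (n + (k + 1)) =
        refl (C n) ⟨n - 1 - (k + 1), by omega⟩ (VC n (n - 1 - k) (n + k)) := by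
      rw [reflVC _ _ _ (by omega) (by omega)]
      have e1 : permC n (n - 1 - (k + 1)) (n - 1 - k) = n - 1 - (k + 1) := by grind [permC]
      have e2 : permC n (n - 1 - (k + 1)) (n + k) = n + (k + 1) := by grind [permC]
      simp only [e1, e2]
    rw [e]
    exact IsRoot.refl _ _ (ih (by omega))

theorem isRootC4 {n : ℕ} (x y : ℕ) (hxy : x < y) (h : x + y + 1 ≤ 2 * n) :
    IsRoot (C n) (VC n x y) := by
  rcases Nat.lt_or_ge n y with h1 | h1
  · rcases Nat.lt_or_ge (x + y + 1) (2 * n) with h2 | h2
    · have := isRootC2 (n := n) x (y - n) (by omega)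
      rwa [show n + (y - n) = y by omega] at this
    · have := isRootC3 (n := n) (y - n) (by omega)
      rwa [show n + (y - n) = y by omega, show n - 1 - (y - n) = x by omega] at this
  · exact isRootC1 x y hxy h1

theorem isRootC {n : ℕ} (x y : ℕ) (hxy : x < y) (hy : y < 2 * n) : IsRoot (C n) (VC n x y) := by
  rcases Nat.lt_or_ge (2 * n) (x + y + 1) with h | h
  · rw [VC_symm x y (by omega) hy]
    exact isRootC4 _ _ (by omega) (by omega)
  · exact isRootC4 x y hxy h

/-- normal form of the letters of a root with `x < y` -/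
theorem normal {n : ℕ} {x y : ℕ} (hx : x < 2 * n) (hy : y < 2 * n) (hxy : x < y) :
    ∃ x' y', x' < y' ∧ x' + y' + 1 ≤ 2 * n ∧ VC n x y = VC n x' y' := by
  rcases Nat.lt_or_ge (2 * n) (x + y + 1) with h | h
  · exact ⟨2 * n - 1 - y, 2 * n - 1 - x, by omega, by omega, VC_symm x y hx hy⟩
  · exact ⟨x, y, hxy, h, rfl⟩

/-- the coordinates of a root in normal form -/
theorem VC_apply {n : ℕ} {x y : ℕ} (hxy : x < y) (h : x + y + 1 ≤ 2 * n) (t : Fin n) :
    VC n x y t = (if x ≤ t ∧ (t : ℕ) < y then 1 else 0) +
      (if (t : ℕ) + 1 < n ∧ 2 * n ≤ t + y + 1 then 1 else 0) := by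
  have ht := t.isLt
  simp only [VC, posC]
  grind (splits := 40)

theorem nonneg_VC {n : ℕ} {x y : ℕ} (hxy : x < y) (h : x + y + 1 ≤ 2 * n) : 0 ≤ VC n x y := by
  intro t
  rw [VC_apply hxy h, Pi.zero_apply]
  grind

theorem fineC (n : ℕ) : Fine (C n) where
  diag := fun i => by simp [C]
  fin := by
    refine (Set.finite_range fun p : Fin (2 * n) × Fin (2 * n) => VC n p.1 p.2).subset ?_
    intro v hv
    obtain ⟨x, y, hx, hy, _, rfl⟩ := rootsC hv
    exact ⟨(⟨x, hx⟩, ⟨y, hy⟩), rfl⟩
  sign := by
    intro v hv
    obtain ⟨x, y, hx, hy, hxy, rfl⟩ := rootsC hv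
    rcases Nat.lt_or_ge x y with h | h
    · left
      obtain ⟨x', y', h1, h2, h3⟩ := normal hx hy h
      rw [h3]
      exact nonneg_VC h1 h2
    · right
      obtain ⟨x', y', h1, h2, h3⟩ := normal hy hx (by omega)
      rw [VC_neg, h3]
      exact neg_nonpos.mpr (nonneg_VC h1 h2)
  mult := by
    have key : ∀ (x y : ℕ) (i : Fin n), x < y → x + y + 1 ≤ 2 * n →
        (∀ j, j ≠ i → VC n x y j = 0) → VC n x y i = 1 := by
      intro x y i h1 h2 h0
      have hi := i.isLt
      have key : ∀ t, (ht : t < n) → t ≠ i → (if x ≤ t ∧ t < y then (1 : ℤ) else 0) +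
          (if t + 1 < n ∧ 2 * n ≤ t + y + 1 then 1 else 0) = 0 := by
        intro t ht hti
        have := h0 ⟨t, ht⟩ (fun h => hti (by rw [← h]))
        rwa [VC_apply h1 h2] at this
      rw [VC_apply h1 h2]
      have k1 := key x (by omega)
      have k2 := key (n - 1) (by omega)
      grind
    intro v i hv h0
    obtain ⟨x, y, hx, hy, hxy, rfl⟩ := rootsC hv
    rcases Nat.lt_or_ge x y with h | h
    · left
      obtain ⟨x', y', h1, h2, h3⟩ := normal hx hy h
      rw [h3] at h0 ⊢
      exact key x' y' i h1 h2 h0
    · right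
      obtain ⟨x', y', h1, h2, h3⟩ := normal hy hx (by omega)
      have e : VC n x y = - VC n x' y' := by rw [VC_neg, h3]
      rw [e] at h0 ⊢
      rw [Pi.neg_apply, key x' y' i h1 h2 fun j hj => by
        have := h0 j hj
        rw [Pi.neg_apply] at this
        omega]

theorem holdsC (n : ℕ) : Holds (C n) := by
  intro S a ha w hw P hPP
  obtain ⟨xa, hxa1, hxa2, hxa3⟩ := exists_left (nodeIn S) a
  have han := a.isLt
  have hxa3' : xa = 0 ∨ ∃ h : xa - 1 < n, 1 ≤ xa ∧ (⟨xa - 1, h⟩ : Fin n) ∉ S := by
    rcases Nat.eq_zero_or_pos xa with h | h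
    · exact Or.inl h
    · right
      refine ⟨by omega, h, fun hS => ?_⟩
      rcases hxa3 with h1 | h1
      · omega
      · exact h1 ⟨by omega, hS⟩
  rcases Nat.lt_or_ge (a + 1) n with hcase | hcase
  · obtain ⟨yb, hyb1, hyb2, hyb3, hyb4⟩ := exists_right (nodeIn S) a n a.isLt
    have hyb4' : yb = n ∨ ∃ h : yb < n, (⟨yb, h⟩ : Fin n) ∉ S := by
      rcases Nat.lt_or_ge yb n with h | h
      · right
        refine ⟨h, fun hS => ?_⟩
        rcases hyb4 with h1 | h1
        · omega
        · exact h1 ⟨h, hS⟩
      · left; omega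
    obtain ⟨Y, hY⟩ : ∃ Y, (yb < n ∧ Y = yb) ∨ (yb = n ∧ Y = 2 * n - 2 - a) := by
      rcases Nat.lt_or_ge yb n with h | h
      · exact ⟨yb, Or.inl ⟨h, rfl⟩⟩
      · exact ⟨2 * n - 2 - a, Or.inr ⟨by omega, rfl⟩⟩
    have hYa : (a : ℕ) + 1 ≤ Y := by omega
    have hYa' : Y + a + 2 ≤ 2 * n := by omega
    refine boxCase box (VC n) xa a (a + 1) Y hxa1 hYa ?_ ?_ ?_ w hw P hPP (fineC n).diag
    · intro v
      constructor
      · rintro ⟨h1, h2, h3⟩
        obtain ⟨x, y, hx, hy, hxy, rfl⟩ := rootsC h1
        have hlt : x < y := by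
          by_contra hge
          obtain ⟨x', y', g1, g2, g3⟩ := normal hy hx (by omega)
          have e : VC n x y = - VC n x' y' := by rw [VC_neg, g3]
          have := nonneg_VC g1 g2 a
          rw [e, Pi.neg_apply] at h2
          simp only [Pi.zero_apply] at this
          omega
        obtain ⟨x', y', g1, g2, g3⟩ := normal hx hy hlt
        rw [g3] at h2 h3 ⊢
        clear g3 h1 hlt hxy hx hy
        rw [VC_apply g1 g2] at h2
        have hxa : x' ≤ a ∧ (a : ℕ) < y' ∧ y' + a + 2 ≤ 2 * n := by grind
        refine ⟨x', y', ?_, hxa.1, hxa.2.1, ?_, rfl⟩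
        · rcases hxa3' with h | ⟨h, h4, h5⟩
          · omega
          · have := h3 _ h5 (fun h6 => by rw [← h6] at hxa1; simp only at hxa1; omega)
            rw [VC_apply g1 g2] at this
            grind
        · rcases hyb4' with h | ⟨h, h5⟩
          · omega
          · have := h3 _ h5 (fun h6 => by rw [← h6] at hyb1; simp only at hyb1; omega)
            rw [VC_apply g1 g2] at this
            grind
      · rintro ⟨x, y, h1, h2, h3, h4, rfl⟩
        refine ⟨isRootC4 x y (by omega) (by omega), ?_, ?_⟩
        · rw [VC_apply (by omega) (by omega)]; grind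
        · intro i hi hia
          have hin := i.isLt
          have hia' : (i : ℕ) ≠ a := fun h => hia (Fin.ext h)
          by_contra hne
          apply hi
          apply mem_of_nodeIn
          rw [VC_apply (by omega) (by omega)] at hne
          rcases Nat.lt_or_ge i a with h | h
          · exact hxa2 i (by grind) h
          · exact hyb3 i (by omega) (by grind)
    · intro x y x' y' h1 h2 h3 h4 h5 h6 h7 h8
      constructor
      · intro h
        by_contra hcon
        rcases Nat.lt_or_ge x x' with h9 | h9
        · have := h ⟨x, by omega⟩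
          rw [VC_apply (by omega) (by omega), VC_apply (by omega) (by omega)] at this
          grind
        · rcases Nat.lt_or_ge n y with h10 | h10
          · have := h ⟨2 * n - 1 - y, by omega⟩
            rw [VC_apply (by omega) (by omega), VC_apply (by omega) (by omega)] at this
            grind
          · have := h ⟨y', by omega⟩
            rw [VC_apply (by omega) (by omega), VC_apply (by omega) (by omega)] at this
            grind
      · intro h t
        have ht := t.isLt
        rw [VC_apply (by omega) (by omega), VC_apply (by omega) (by omega)]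
        grind
    · intro i hi
      have hin := i.isLt
      have hia : (i : ℕ) ≠ a := fun h => ha (by rwa [← Fin.ext h])
      have hix : (i : ℕ) + 1 ≠ xa := by
        intro h
        rcases hxa3' with h1 | ⟨h1, h2, h3⟩
        · omega
        · apply h3
          have : (⟨xa - 1, h1⟩ : Fin n) = i := Fin.ext (by simp only; omega)
          rwa [this]
      have hiy : (i : ℕ) ≠ yb := by
        intro h
        rcases hyb4' with h1 | ⟨h1, h3⟩
        · omega
        · apply h3
          have : (⟨yb, h1⟩ : Fin n) = i := Fin.ext (by simp only; omega)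
          rwa [this]
      refine ⟨permC n i, ?_, ?_, ?_⟩
      · intro x h1 h2; grind (splits := 40) [permC]
      · intro y h1 h2; grind (splits := 40) [permC]
      · intro x y _ h2 _ h4
        exact reflVC i x y (by omega) (by omega)
  · have han' : (a : ℕ) + 1 = n := by omega
    have hV : ∀ x y : ℕ, x ≤ a → y ≤ a → ∀ t : Fin n, VC n x (2 * n - 1 - y) t =
        (if x ≤ t then 1 else 0) + (if (t : ℕ) + 1 < n ∧ y ≤ t then 1 else 0) := by
      intro x y hx hy t
      have ht := t.isLt
      simp only [VC, posC]
      grind (splits := 40)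
    refine stairCase ha (fun x y => VC n x (2 * n - 1 - y)) 0 xa a (by omega) (by omega) ?_ ?_ ?_ ?_
      w hw P hPP
    · intro v
      constructor
      · rintro ⟨h1, h2, h3⟩
        obtain ⟨x, y, hx, hy, hxy, rfl⟩ := rootsC h1
        have hlt : x < y := by
          by_contra hge
          obtain ⟨x', y', g1, g2, g3⟩ := normal hy hx (by omega)
          have e : VC n x y = - VC n x' y' := by rw [VC_neg, g3]
          have := nonneg_VC g1 g2 a
          rw [e, Pi.neg_apply] at h2
          simp only [Pi.zero_apply] at this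
          omega
        obtain ⟨x', y', g1, g2, g3⟩ := normal hx hy hlt
        rw [g3] at h2 h3 ⊢
        clear g3 h1 hlt hxy hx hy
        rw [VC_apply g1 g2] at h2
        have hxa : x' ≤ a ∧ (a : ℕ) < y' := by grind
        refine ⟨x', 2 * n - 1 - y', ?_, by omega, by omega, ?_⟩
        · rcases hxa3' with h | ⟨h, h4, h5⟩
          · omega
          · have := h3 _ h5 (fun h6 => by rw [← h6] at hxa1; simp only at hxa1; omega)
            rw [VC_apply g1 g2] at this
            grind
        · congr 1
          omega
      · rintro ⟨x, y, h1, h2, h3, rfl⟩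
        refine ⟨isRootC _ _ (by omega) (by omega), ?_, ?_⟩
        · rw [hV x y (by omega) (by omega)]; grind
        · intro i hi hia
          have hin := i.isLt
          have hia' : (i : ℕ) ≠ a := fun h => hia (Fin.ext h)
          by_contra hne
          apply hi
          apply mem_of_nodeIn
          rw [hV x y (by omega) (by omega)] at hne
          exact hxa2 i (by grind) (by omega)
    · intro x y h1 h2 h3 h4
      funext t
      have ht := t.isLt
      rw [hV x y h2 h4, hV y x h4 h2]
      grind
    · intro x y x' y' h1 h2 h3 h4 h5 h6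
      constructor
      · intro h
        by_contra hcon
        rcases Nat.lt_or_ge x x' with h9 | h9
        · have := h ⟨x, by omega⟩
          simp only at this
          rw [hV x y (by omega) (by omega), hV x' y' (by omega) (by omega)] at this
          grind
        · have := h ⟨y, by omega⟩
          simp only at this
          rw [hV x y (by omega) (by omega), hV x' y' (by omega) (by omega)] at this
          grind
      · intro h t
        simp only
        rw [hV x y (by omega) (by omega), hV x' y' (by omega) (by omega)]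
        grind
    · intro i hi
      have hin := i.isLt
      have hia : (i : ℕ) ≠ a := fun h => ha (by rwa [← Fin.ext h])
      have hix : (i : ℕ) + 1 ≠ xa := by
        intro h
        rcases hxa3' with h1 | ⟨h1, h2, h3⟩
        · omega
        · apply h3
          have : (⟨xa - 1, h1⟩ : Fin n) = i := Fin.ext (by simp only; omega)
          rwa [this]
      refine ⟨permC n i, ?_, ?_, ?_⟩
      · intro x h1 h2; grind (splits := 40) [permC]
      · intro x y h1 h2 h3
        exact permC_inj i.isLt (by omega) (by omega) (by omega)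
      · intro x y h1 h2 h3
        rw [reflVC i x _ (by omega) (by omega), permC_rev i.isLt (by omega)]

end TC

/-- TARGET -/
theorem typeC (n : ℕ) : Fine (C n) ∧ Holds (C n) := ⟨TC.fineC n, TC.holdsC n⟩

end Pool.Agent.Helper282_TM
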