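import Pool.Agent.Helper282_TM.TypeD1
import Pool.Agent.Helper282_TM.KCase

/-!
# Chain times K components of type D (proved by helper464)
-/

set_option autoImplicit false

namespace Pool.Agent.Helper282_TM

open Finset CartanMatrix

namespace DK

theorem mirror {n : ℕ} (x y : ℕ) (hx : x < 2 * n) (hy : y < 2 * n) :
    VD n x y = VD n (2 * n - 1 - y) (2 * n - 1 - x) := by
  funext t
  have ht := t.isLt
  simp only [VD, posD]
  grind

/-- the letters of the chain -/
theorem low {n a x t : ℕ} (ha : a + 3 ≤ n) (hx : x ≤ a) :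
    posD n x t = if t < x then 1 else 0 := by
  simp only [posD]
  grind

/-- the letters of the poset `K_m` at the coordinates up to `a` -/
theorem mid {n a y t : ℕ} (ha : a + 3 ≤ n) (hy : y < 2 * (n - 1 - a)) (ht : t ≤ a) :
    posD n (a + 1 + y) t = 1 := by
  simp only [posD]
  grind

theorem le_imp {n : ℕ} {a x y x' y' : ℕ} (ha : a + 3 ≤ n) (hx : x ≤ a)
    (hy : y < 2 * (n - 1 - a)) (hx' : x' ≤ a) (hy' : y' < 2 * (n - 1 - a))
    (h : VD n x (a + 1 + y) ≤ VD n x' (a + 1 + y')) : x' ≤ x ∧ kle (n - 1 - a) y y' := by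
  have key : ∀ t, t < n → posD n (a + 1 + y) t - posD n x t ≤
      posD n (a + 1 + y') t - posD n x' t := fun t ht => h ⟨t, ht⟩
  have hxx : x' ≤ x := by
    by_contra hcon
    have h1 := key x (by omega)
    rw [mid ha hy hx, mid ha hy' hx, low ha hx, low ha hx'] at h1
    rw [if_neg (lt_irrefl x), if_pos (by omega)] at h1
    omega
  refine ⟨hxx, ?_⟩
  have key2 : ∀ t, t < n → a < t → posD n (a + 1 + y) t ≤ posD n (a + 1 + y') t := by
    intro t ht hat
    have h1 := key t ht
    rw [low ha hx, low ha hx', if_neg (by omega), if_neg (by omega)] at h1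
    omega
  by_contra hk
  unfold kle at hk
  generalize hY : a + 1 + y = Y at key2
  generalize hY' : a + 1 + y' = Y' at key2
  have hk' : Y' < Y ∨ (Y + 1 = n ∧ Y' = n) := by omega
  clear key h hk
  rcases Nat.lt_or_ge Y' (n - 2) with c1 | c1
  · have k1 := key2 Y' (by omega) (by omega)
    simp only [posD] at k1
    grind
  · rcases Nat.lt_or_ge (n + 1) Y with c2 | c2
    · have k4 := key2 (2 * n - 1 - Y) (by omega) (by omega)
      simp only [posD] at k4
      grind
    · have k2 := key2 (n - 1) (by omega) (by omega)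
      have k3 := key2 (n - 2) (by omega) (by omega)
      simp only [posD] at k2 k3
      clear key2
      grind

theorem imp_le {n : ℕ} {a x y x' y' : ℕ} (ha : a + 3 ≤ n) (hx : x ≤ a)
    (hy : y < 2 * (n - 1 - a)) (hx' : x' ≤ a) (hy' : y' < 2 * (n - 1 - a))
    (h : x' ≤ x ∧ kle (n - 1 - a) y y') : VD n x (a + 1 + y) ≤ VD n x' (a + 1 + y') := by
  intro t
  have ht := t.isLt
  obtain ⟨h1, h2⟩ := h
  unfold kle at h2
  simp only [VD]
  rw [low ha hx, low ha hx']
  rcases Nat.lt_or_ge a t with c | c
  · rw [if_neg (by omega), if_neg (by omega)]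
    simp only [posD]
    grind
  · rw [mid ha hy c, mid ha hy' c]
    grind

end DK

/-- TARGET -/
theorem dK {n : ℕ} (S : Set (Fin n)) (a : Fin n) (ha : a ∉ S)
    (ha1 : (a : ℕ) + 3 ≤ n) (hS : ∀ t, (a : ℕ) < t → t < n → nodeIn S t) :
    HoldsAt (D n) S a := by
  intro w hw P hPP
  have hn : 3 ≤ n := by omega
  obtain ⟨xa, hxa1, hxa2, hxa3⟩ := exists_left (nodeIn S) a
  have hxa3' : xa = 0 ∨ ∃ h : xa - 1 < n, 1 ≤ xa ∧ (⟨xa - 1, h⟩ : Fin n) ∉ S := by
    rcases Nat.eq_zero_or_pos xa with h | h
    · exact Or.inl h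
    · right
      refine ⟨by omega, h, fun hS' => ?_⟩
      rcases hxa3 with h1 | h1
      · omega
      · exact h1 ⟨by omega, hS'⟩
  refine kCase (fun x y => VD n x (a + 1 + y)) xa a (n - 1 - a) (by omega) hxa1 ?_ ?_ ?_ w hw P
    hPP (fineD n hn).diag
  · intro v
    constructor
    · rintro ⟨h1, h2, h3⟩
      obtain ⟨x, y, hx, hy, hxy, hs, rfl⟩ := rootsD hn h1
      -- a lemma for the two cases
      have main : ∀ x y : ℕ, x ≤ a → (a : ℕ) < y → y ≤ 2 * n - 2 - a →
          (∀ i, i ∉ S → i ≠ a → VD n x y i = 0) →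
          ∃ x' y', xa ≤ x' ∧ x' ≤ a ∧ y' < 2 * (n - 1 - a) ∧
            VD n x y = VD n x' (a + 1 + y') := by
        intro x y c1 c2 c3 c4
        refine ⟨x, y - (a + 1), ?_, c1, by omega, by congr 1; omega⟩
        rcases hxa3' with h | ⟨h, h4, h5⟩
        · omega
        · have h6 := c4 _ h5 (fun h6 => by rw [← h6] at hxa1; simp only at hxa1; omega)
          simp only [VD] at h6
          rw [DK.low ha1 c1, show y = a + 1 + (y - (a + 1)) by omega,
            DK.mid ha1 (by omega) (by omega)] at h6
          split_ifs at h6 with h7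
          · omega
          · omega
      simp only [VD, posD] at h2
      have hcase : (x ≤ a ∧ (a : ℕ) < y ∧ y ≤ 2 * n - 2 - a) ∨
          ((a : ℕ) < x ∧ x ≤ 2 * n - 2 - a ∧ 2 * n - 1 - a ≤ y) := by
        grind
      rcases hcase with ⟨c1, c2, c3⟩ | ⟨c1, c2, c3⟩
      · exact main x y c1 c2 c3 h3
      · rw [DK.mirror x y hx hy] at h3 ⊢
        exact main _ _ (by omega) (by omega) (by omega) h3
    · rintro ⟨x, y, h1, h2, h3, rfl⟩
      refine ⟨isRootD hn x _ (by omega) (by omega) (by omega) (by omega), ?_, ?_⟩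
      · simp only [VD]
        rw [DK.low ha1 h2, DK.mid ha1 h3 le_rfl, if_neg (by omega)]
        rfl
      · intro i hi hia
        have hia' : (i : ℕ) ≠ a := fun h => hia (Fin.ext h)
        have hin := i.isLt
        by_contra hne
        apply hi
        apply mem_of_nodeIn
        rcases Nat.lt_or_ge i a with h | h
        · refine hxa2 i ?_ h
          by_contra hlt
          apply hne
          simp only [VD]
          rw [DK.low ha1 h2, DK.mid ha1 h3 (by omega), if_pos (by omega)]
          rfl
        · exact hS i (by omega) hin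
  · intro x y x' y' h1 h2 h3 h4 h5 h6
    exact ⟨DK.le_imp ha1 h2 h3 h5 h6, DK.imp_le ha1 h2 h3 h5 h6⟩
  · intro i hi
    have hin := i.isLt
    have hia : (i : ℕ) ≠ a := fun h => ha (by rwa [← Fin.ext h])
    have hix : (i : ℕ) + 1 ≠ xa := by
      intro h
      rcases hxa3' with h1 | ⟨h1, h2, h3⟩
      · omega
      · apply h3
        have : (⟨xa - 1, h1⟩ : Fin n) = i := Fin.ext (by simp only; omega)
        rwa [this]
    rcases Nat.lt_or_ge i a with hlt | hge
    · refine ⟨permD n i, 1, map_one _, ?_, ?_⟩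
      · intro x h1 h2
        simp only [permD]
        grind
      · intro x h1 h2 y
        have hy := y.isLt
        simp only [Equiv.Perm.coe_one, id]
        rw [reflVD hn i _ _ (by omega) (by omega)]
        congr 1
        simp only [permD]
        grind
    · rcases Nat.lt_or_ge ((i : ℕ) + 1) n with hi1 | hi1
      · refine ⟨id, Equiv.swap ⟨i - a - 1, by omega⟩ ⟨i - a, by omega⟩ *
          Equiv.swap ⟨2 * n - 2 - i - a, by omega⟩ ⟨2 * n - 3 - i - a, by omega⟩, ?_, ?_, ?_⟩
        · rw [Equiv.Perm.sign_mul, Equiv.Perm.sign_swap, Equiv.Perm.sign_swap]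
          · rfl
          · rw [Ne, Fin.mk.injEq]; omega
          · rw [Ne, Fin.mk.injEq]; omega
        · intro x h1 h2
          exact ⟨h1, h2⟩
        · intro x h1 h2 y
          have hy := y.isLt
          simp only [id]
          rw [reflVD hn i _ _ (by omega) (by omega)]
          congr 1
          · simp only [permD]
            grind
          · simp only [Equiv.Perm.mul_apply, Equiv.swap_apply_def, permD]
            grind
      · refine ⟨id, Equiv.swap ⟨n - 3 - a, by omega⟩ ⟨n - 1 - a, by omega⟩ *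
          Equiv.swap ⟨n - 2 - a, by omega⟩ ⟨n - a, by omega⟩, ?_, ?_, ?_⟩
        · rw [Equiv.Perm.sign_mul, Equiv.Perm.sign_swap, Equiv.Perm.sign_swap]
          · rfl
          · rw [Ne, Fin.mk.injEq]; omega
          · rw [Ne, Fin.mk.injEq]; omega
        · intro x h1 h2
          exact ⟨h1, h2⟩
        · intro x h1 h2 y
          have hy := y.isLt
          simp only [id]
          rw [reflVD hn i _ _ (by omega) (by omega)]
          congr 1
          · simp only [permD]
            grind
          · simp only [Equiv.Perm.mul_apply, Equiv.swap_apply_def, permD]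
            grind

end Pool.Agent.Helper282_TM
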