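import Pool.Agent.Helper282_TM.TypeD1

/-!
# Staircase components of type D (proved by helper566)
-/

set_option autoImplicit false

namespace Pool.Agent.Helper282_TM

open Finset CartanMatrix

namespace DS

/-- the coordinates of `ε_x + ε_y`, `x, y ≤ n - 1` -/
theorem coord1 {n : ℕ} (hn : 3 ≤ n) (x y t : ℕ) (hx : x < n) (hy : y < n) (_hxy : x ≠ y)
    (ht : t + 2 < n) :
    posD n (2 * n - 1 - y) t - posD n x t =
      (if x ≤ t then 1 else 0) + (if y ≤ t then 1 else 0) := by
  simp only [posD]
  grind

theorem coord2 {n : ℕ} (hn : 3 ≤ n) (x y t : ℕ) (_hx : x < n) (hy : y < n) (hxy : x < y)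
    (ht : t + 2 = n) :
    posD n (2 * n - 1 - y) t - posD n x t = (if y ≤ t then 1 else 0) := by
  simp only [posD]
  grind

theorem coord3 {n : ℕ} (_hn : 3 ≤ n) (x y t : ℕ) (hx : x < n) (hy : y < n) (_hxy : x ≠ y)
    (ht : t + 1 = n) :
    posD n (2 * n - 1 - y) t - posD n x t = 1 := by
  simp only [posD]
  grind

theorem symm {n : ℕ} (hn : 3 ≤ n) (x y : ℕ) (hx : x < n) (hy : y < n) :
    VD n x (2 * n - 1 - y) = VD n y (2 * n - 1 - x) := by
  funext t
  have ht := t.isLt
  simp only [VD, posD]
  grind (splits := 40)

theorem perm_low {n i y : ℕ} (hi : i + 1 < n) (hy : y < n) :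
    permD n i y = if y = i then i + 1 else if y = i + 1 then i else y := by
  unfold permD
  rw [if_neg (by omega)]
  split_ifs <;> omega

theorem perm_high {n i y : ℕ} (hi : i + 1 < n) (hy : y < n) :
    permD n i (2 * n - 1 - y) =
      2 * n - 1 - (if y = i then i + 1 else if y = i + 1 then i else y) := by
  unfold permD
  rw [if_neg (by omega), if_neg (by omega), if_neg (by omega)]
  split_ifs <;> omega

end DS

/-- TARGET -/
theorem dST {n : ℕ} (hn : 3 ≤ n) (S : Set (Fin n)) (a : Fin n) (ha : a ∉ S)
    (ha1 : (a : ℕ) + 1 = n) (hS : nodeIn S (n - 2)) : HoldsAt (D n) S a := by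
  intro w hw P hPP
  obtain ⟨z0, hz1, hz2, hz3⟩ := exists_left (nodeIn S) (n - 1)
  have hz0 : z0 ≤ n - 2 := by
    by_contra h
    rcases hz3 with h1 | h1
    · omega
    · apply h1
      rw [show z0 - 1 = n - 2 by omega]
      exact hS
  have hz3' : z0 = 0 ∨ ∃ h : z0 - 1 < n, 1 ≤ z0 ∧ (⟨z0 - 1, h⟩ : Fin n) ∉ S := by
    rcases Nat.eq_zero_or_pos z0 with h | h
    · exact Or.inl h
    · right
      refine ⟨by omega, h, fun hS => ?_⟩
      rcases hz3 with h1 | h1
      · omega
      · exact h1 ⟨by omega, hS⟩
  refine stairCase ha (fun x y => VD n x (2 * n - 1 - y)) 1 z0 (n - 1) le_rfl (by omega)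
    ?_ ?_ ?_ ?_ w hw P hPP
  · intro v
    constructor
    · rintro ⟨h1, h2, h3⟩
      obtain ⟨x, y, hx, hy, hxy, hs, rfl⟩ := rootsD hn h1
      have hc : x < n ∧ n ≤ y := by
        simp only [VD, posD] at h2
        grind
      -- the pair of letters
      have key : ∀ x' y', x' < y' → y' < n → VD n x y = VD n x' (2 * n - 1 - y') → z0 ≤ x' := by
        intro x' y' k1 k2 k3
        rcases hz3' with h | ⟨h, h4, h5⟩
        · omega
        · by_contra hcon
          have := h3 _ h5 (fun h6 => by rw [← h6] at ha1; simp only at ha1; omega)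
          rw [k3] at this
          simp only [VD] at this
          rw [DS.coord1 hn x' y' _ (by omega) k2 (by omega) (by omega)] at this
          grind
      rcases Nat.lt_or_ge x (2 * n - 1 - y) with h | h
      · have e : VD n x y = VD n x (2 * n - 1 - (2 * n - 1 - y)) := by
          congr 1
          omega
        exact ⟨x, 2 * n - 1 - y, key _ _ h (by omega) e, by omega, by omega, e⟩
      · have e : VD n x y = VD n (2 * n - 1 - y) (2 * n - 1 - x) := by
          rw [← DS.symm hn x (2 * n - 1 - y) (by omega) (by omega)]
          congr 1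
          omega
        exact ⟨2 * n - 1 - y, x, key _ _ (by omega) (by omega) e, by omega, by omega, e⟩
    · rintro ⟨x, y, h1, h2, h3, rfl⟩
      refine ⟨isRootD hn x _ (by omega) (by omega) (by omega) (by omega), ?_, ?_⟩
      · simp only [VD]
        exact DS.coord3 hn x y _ (by omega) (by omega) (by omega) ha1
      · intro i hi hia
        have hia' : (i : ℕ) ≠ a := fun h => hia (Fin.ext h)
        have hin := i.isLt
        by_contra hne
        apply hi
        apply mem_of_nodeIn
        simp only [VD] at hne
        apply hz2 i _ (by omega)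
        rcases Nat.lt_or_ge (i + 2) n with h | h
        · rw [DS.coord1 hn x y _ (by omega) (by omega) (by omega) h] at hne
          grind
        · omega
  · intro x y h1 h2 h3 h4
    exact DS.symm hn x y (by omega) (by omega)
  · intro x y x' y' h1 h2 h3 h4 h5 h6
    constructor
    · intro h
      have g1 := h ⟨x, by omega⟩
      have g2 := h ⟨y, by omega⟩
      simp only [VD] at g1 g2
      by_contra hcon
      rcases Nat.lt_or_ge (x + 2) n with h9 | h9
      · rw [DS.coord1 hn x y _ (by omega) (by omega) (by omega) h9,
          DS.coord1 hn x' y' _ (by omega) (by omega) (by omega) h9] at g1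
        rcases Nat.lt_or_ge (y + 2) n with h8 | h8
        · rw [DS.coord1 hn x y _ (by omega) (by omega) (by omega) h8,
            DS.coord1 hn x' y' _ (by omega) (by omega) (by omega) h8] at g2
          grind
        · rcases Nat.lt_or_ge (y + 1) n with h7 | h7
          · rw [DS.coord2 hn x y _ (by omega) (by omega) (by omega) (by omega),
              DS.coord2 hn x' y' _ (by omega) (by omega) (by omega) (by omega)] at g2
            grind
          · grind
      · rw [DS.coord2 hn x y _ (by omega) (by omega) (by omega) (by omega),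
          DS.coord2 hn x' y' _ (by omega) (by omega) (by omega) (by omega)] at g1
        grind
    · intro h t
      simp only [VD]
      have ht := t.isLt
      rcases Nat.lt_or_ge (t + 2) n with h9 | h9
      · rw [DS.coord1 hn x y _ (by omega) (by omega) (by omega) h9,
          DS.coord1 hn x' y' _ (by omega) (by omega) (by omega) h9]
        grind
      · rcases Nat.lt_or_ge (t + 1) n with h7 | h7
        · rw [DS.coord2 hn x y _ (by omega) (by omega) (by omega) (by omega),
            DS.coord2 hn x' y' _ (by omega) (by omega) (by omega) (by omega)]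
          grind
        · rw [DS.coord3 hn x y _ (by omega) (by omega) (by omega) (by omega),
            DS.coord3 hn x' y' _ (by omega) (by omega) (by omega) (by omega)]
  · intro i hi
    have hin := i.isLt
    have hia : (i : ℕ) ≠ a := fun h => ha (by rwa [← Fin.ext h])
    have hix : (i : ℕ) + 1 ≠ z0 := by
      intro h
      rcases hz3' with h1 | ⟨h1, h2, h3⟩
      · omega
      · apply h3
        have : (⟨z0 - 1, h1⟩ : Fin n) = i := Fin.ext (by simp only; omega)
        rwa [this]
    refine ⟨permD n i, ?_, ?_, ?_⟩
    · intro x h1 h2; grind [permD]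
    · intro x y h1 h2 h3 h
      simp only [permD] at h
      split_ifs at h <;> omega
    · intro x y h1 h2 h3
      rw [reflVD hn i x _ (by omega) (by omega)]
      have e : permD n i (2 * n - 1 - y) = 2 * n - 1 - permD n i y := by
        rw [DS.perm_high (by omega) (by omega), DS.perm_low (by omega) (by omega)]
      rw [e]

end Pool.Agent.Helper282_TM
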