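import Pool.Agent.Helper282_TM.TypeD2
import Pool.Agent.Helper282_TM.TypeD3
import Pool.Agent.Helper282_TM.TypeD4

/-!
# Type D (proved by helper636)
-/

set_option autoImplicit false

namespace Pool.Agent.Helper282_TM

open Finset CartanMatrix

namespace DA

/-- the diagram automorphism on natural numbers -/
def th (n t : ℕ) : ℕ := if t + 2 = n then n - 1 else if t + 1 = n then n - 2 else t

theorem th_lt {n : ℕ} (hn : 3 ≤ n) {t : ℕ} (ht : t < n) : th n t < n := by grind [th]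

theorem th_th {n : ℕ} (hn : 3 ≤ n) {t : ℕ} (ht : t < n) : th n (th n t) = t := by grind [th]

variable {n : ℕ} (hn : 3 ≤ n)

/-- the diagram automorphism -/
def θ (hn : 3 ≤ n) (i : Fin n) : Fin n := ⟨th n i, th_lt hn i.isLt⟩

theorem θ_θ (i : Fin n) : θ hn (θ hn i) = i := Fin.ext (th_th hn i.isLt)

theorem θ_inj {i j : Fin n} (h : θ hn i = θ hn j) : i = j := by
  rw [← θ_θ hn i, h, θ_θ]

theorem θ_eq_iff {i j : Fin n} : θ hn i = j ↔ i = θ hn j := by
  constructor
  · rintro rfl; rw [θ_θ]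
  · rintro rfl; rw [θ_θ]

/-- the diagram automorphism as a permutation -/
def θe (hn : 3 ≤ n) : Fin n ≃ Fin n := ⟨θ hn, θ hn, θ_θ hn, θ_θ hn⟩

theorem D_θ (i j : Fin n) : D n (θ hn i) (θ hn j) = D n i j := by
  have hi := i.isLt
  have hj := j.isLt
  simp only [D, Matrix.of_apply, Fin.ext_iff, θ, th]
  grind (splits := 40)

/-- the action on vectors -/
def T (hn : 3 ≤ n) (v : Fin n → ℤ) : Fin n → ℤ := fun i => v (θ hn i)

theorem T_T (v : Fin n → ℤ) : T hn (T hn v) = v := by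
  funext i
  simp only [T, θ_θ]

theorem T_inj {v v' : Fin n → ℤ} (h : T hn v = T hn v') : v = v' := by
  rw [← T_T hn v, h, T_T]

theorem T_single (i : Fin n) : T hn (Pi.single i 1) = Pi.single (θ hn i) 1 := by
  funext t
  simp only [T, Pi.single_apply, θ_eq_iff]

theorem refl_T (i : Fin n) (v : Fin n → ℤ) :
    refl (D n) (θ hn i) (T hn v) = T hn (refl (D n) i v) := by
  have h1 : ∑ k, T hn v k * D n k (θ hn i) = ∑ k, v k * D n k i := by
    rw [← Equiv.sum_comp (θe hn)]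
    refine Finset.sum_congr rfl fun k _ => ?_
    change v (θ hn (θ hn k)) * D n (θ hn k) (θ hn i) = _
    rw [θ_θ, D_θ]
  unfold refl
  rw [h1, ← T_single]
  rfl

theorem isRoot_T {v : Fin n → ℤ} (hv : IsRoot (D n) v) : IsRoot (D n) (T hn v) := by
  induction hv with
  | simple i => rw [T_single]; exact IsRoot.simple _
  | refl i v _ ih => rw [← refl_T]; exact IsRoot.refl _ _ ih

theorem act_T (u : List (Fin n)) (v : Fin n → ℤ) :
    act (D n) (u.map (θ hn)) (T hn v) = T hn (act (D n) u v) := by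
  induction u with
  | nil => rfl
  | cons i u ih =>
    rw [List.map_cons]
    change refl (D n) (θ hn i) (act (D n) (u.map (θ hn)) (T hn v)) = _
    rw [ih, refl_T]
    rfl

theorem mem_PS_T {S : Set (Fin n)} {a : Fin n} {v : Fin n → ℤ} (hv : v ∈ PS (D n) S a) :
    T hn v ∈ PS (D n) (θ hn ⁻¹' S) (θ hn a) := by
  refine ⟨isRoot_T hn hv.1, ?_, fun i hi hia => ?_⟩
  · simp only [T, θ_θ]; exact hv.2.1
  · exact hv.2.2 _ hi fun h => hia ((θ_eq_iff hn).1 h)

theorem longest_T {S : Set (Fin n)} {w : (Fin n → ℤ) → (Fin n → ℤ)} (hw : Longest (D n) S w) :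
    Longest (D n) (θ hn ⁻¹' S) (fun v => T hn (w (T hn v))) := by
  obtain ⟨⟨u, hu, hwu⟩, h⟩ := hw
  refine ⟨⟨u.map (θ hn), ?_, ?_⟩, ?_⟩
  · intro i hi
    obtain ⟨j, hj, rfl⟩ := List.mem_map.1 hi
    rw [Set.mem_preimage, θ_θ]
    exact hu j hj
  · funext v
    rw [hwu, ← act_T, T_T]
  · intro v hv h0 hS
    have h1 := h (T hn v) (isRoot_T hn hv) (fun i => h0 _) (fun i hi => hS _ (by
      rw [Set.mem_preimage, θ_θ]; exact hi))
    exact fun i => h1 _

theorem preimage_preimage (S : Set (Fin n)) : θ hn ⁻¹' (θ hn ⁻¹' S) = S := by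
  ext i
  rw [Set.mem_preimage, Set.mem_preimage, θ_θ]

theorem holdsAt_of {S : Set (Fin n)} {a : Fin n} (ha : a ∉ S)
    (h : HoldsAt (D n) (θ hn ⁻¹' S) (θ hn a)) : HoldsAt (D n) S a := by
  intro w hw P hP
  have hback : ∀ v, v ∈ PS (D n) (θ hn ⁻¹' S) (θ hn a) → T hn v ∈ PS (D n) S a := by
    intro v hv
    have := mem_PS_T hn hv
    rwa [preimage_preimage, θ_θ] at this
  have h1 := h _ (longest_T hn hw) (P.image (T hn)) (fun v => by
    rw [Finset.mem_image]
    constructor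
    · rintro ⟨x, hx, rfl⟩
      exact mem_PS_T hn ((hP x).1 hx)
    · intro hv
      exact ⟨T hn v, (hP _).2 (hback v hv), T_T hn v⟩)
  refine h1.transfer (T hn) ?_ ?_ ?_ ?_ ?_
  · rw [Finset.image_image]
    ext v
    rw [Finset.mem_image]
    constructor
    · intro hv
      exact ⟨v, hv, T_T hn v⟩
    · rintro ⟨x, hx, rfl⟩
      rw [Function.comp_apply, T_T]
      exact hx
  · intro x _ y _ hxy
    exact T_inj hn hxy
  · intro x _ y _
    constructor
    · intro hle i
      have := hle (θ hn i)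
      simp only [T, θ_θ] at this
      exact this
    · intro hle i
      exact hle _
  · intro x hx
    obtain ⟨y, hy, rfl⟩ := Finset.mem_image.1 hx
    rw [T_T]
    exact Finset.mem_image_of_mem _ ((hP _).2 (hw.1.mem_PS ha ((hP _).1 hy)))
  · intro x _
    rw [T_T]

end DA

/-- TARGET -/
theorem holdsD (n : ℕ) (hn : 3 ≤ n) : Holds (D n) := by
  have hval : ∀ {S : Set (Fin n)} {t : ℕ} (ht : t < n), nodeIn S t ↔ (⟨t, ht⟩ : Fin n) ∈ S :=
    fun ht => ⟨fun ⟨_, h⟩ => h, fun h => ⟨ht, h⟩⟩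
  have case1 : ∀ (S : Set (Fin n)) (a : Fin n), a ∉ S → ¬ nodeIn S (n - 1) → (a : ℕ) ≠ n - 1 →
      HoldsAt (D n) S a := by
    intro S a ha h1 h2
    have han := a.isLt
    obtain ⟨b, hb1, hb2, hb3, hb4⟩ := exists_right (nodeIn S) a (n - 1) (by omega)
    have hbS : ¬ nodeIn S b := by
      rcases hb4 with h | h
      · rw [h]; exact h1
      · exact h
    refine dBox hn S a ha (by omega) b hb1 (by omega) hb3 hbS fun h => ?_
    rw [show b + 1 = n - 1 by omega]
    exact h1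
  have hθ : ∀ (S : Set (Fin n)) (t : ℕ), t < n →
      (nodeIn (DA.θ hn ⁻¹' S) t ↔ nodeIn S (DA.th n t)) := by
    intro S t ht
    rw [hval ht, hval (DA.th_lt hn ht)]
    rfl
  have hθ1 : ∀ (S : Set (Fin n)), (nodeIn (DA.θ hn ⁻¹' S) (n - 1) ↔ nodeIn S (n - 2)) := by
    intro S
    rw [hθ S _ (by omega)]
    have : DA.th n (n - 1) = n - 2 := by grind [DA.th]
    rw [this]
  have hθ2 : ∀ (S : Set (Fin n)), (nodeIn (DA.θ hn ⁻¹' S) (n - 2) ↔ nodeIn S (n - 1)) := by
    intro S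
    rw [hθ S _ (by omega)]
    have : DA.th n (n - 2) = n - 1 := by grind [DA.th]
    rw [this]
  have hθa : ∀ (S : Set (Fin n)) (a : Fin n), a ∉ S → DA.θ hn a ∉ DA.θ hn ⁻¹' S := by
    intro S a ha
    rw [Set.mem_preimage, DA.θ_θ]
    exact ha
  intro S a ha
  change HoldsAt (D n) S a
  have han := a.isLt
  have haN : ¬ nodeIn S a := fun h => ha (mem_of_nodeIn h)
  by_cases c1 : ¬ nodeIn S (n - 1) ∧ (a : ℕ) ≠ n - 1
  · exact case1 S a ha c1.1 c1.2
  by_cases c2 : ¬ nodeIn S (n - 2) ∧ (a : ℕ) ≠ n - 2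
  · apply DA.holdsAt_of hn ha
    refine case1 _ _ (hθa S a ha) ?_ ?_
    · rw [hθ1]; exact c2.1
    · change DA.th n a ≠ n - 1
      have := c2.2
      grind [DA.th]
  by_cases e1 : (a : ℕ) = n - 1
  · have h2 : nodeIn S (n - 2) := by
      by_contra h
      exact c2 ⟨h, by omega⟩
    exact dST hn S a ha (by omega) h2
  have h1 : nodeIn S (n - 1) := by
    by_contra h
    exact c1 ⟨h, e1⟩
  by_cases e2 : (a : ℕ) = n - 2
  · apply DA.holdsAt_of hn ha
    refine dST hn _ _ (hθa S a ha) ?_ ?_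
    · change DA.th n a + 1 = n
      grind [DA.th]
    · rw [hθ2]; exact h1
  have h2 : nodeIn S (n - 2) := by
    by_contra h
    exact c2 ⟨h, e2⟩
  obtain ⟨b, hb1, hb2, hb3, hb4⟩ := exists_right (nodeIn S) a n han
  rcases Nat.lt_or_ge b n with hbn | hbn
  · have hbS : ¬ nodeIn S b := by
      rcases hb4 with h | h
      · omega
      · exact h
    have hbne : b ≠ n - 2 := by
      rintro rfl
      exact hbS h2
    exact dBox hn S a ha (by omega) b hb1 hbn hb3 hbS fun h => absurd (by omega) hbne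
  · refine dK S a ha (by omega) fun t ht1 ht2 => hb3 t ht1 (by omega)

end Pool.Agent.Helper282_TM
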