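import Pool.Agent.Helper282_TM.TypeA

/-!
# Roots of type D (proved by helper795)
-/

set_option autoImplicit false

namespace Pool.Agent.Helper282_TM

open Finset CartanMatrix

/-- `Holds` at one pair `(S, a)` -/
def HoldsAt {n : ℕ} (A : Matrix (Fin n) (Fin n) ℤ) (S : Set (Fin n)) (a : Fin n) : Prop :=
  ∀ w, Longest A S w → ∀ P : Finset (Fin n → ℤ), (∀ v, v ∈ P ↔ v ∈ PS A S a) →
    Good (fun x y => x ≤ y) P w

namespace DF

theorem posD_mirror {n : ℕ} (hn : 3 ≤ n) (y t : ℕ) (hy : y < 2 * n) (ht : t < n) :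
    posD n y t + posD n (2 * n - 1 - y) t = posD n (2 * n - 1) t := by
  unfold posD
  grind (splits := 40)

theorem VD_mirror {n : ℕ} (hn : 3 ≤ n) (x y : ℕ) (hx : x < 2 * n) (hy : y < 2 * n) :
    VD n x y = VD n (2 * n - 1 - y) (2 * n - 1 - x) := by
  funext t
  have h1 := posD_mirror hn y t hy t.isLt
  have h2 := posD_mirror hn x t hx t.isLt
  simp only [VD]
  linarith

theorem VD_neg (n x y : ℕ) : VD n x y = - VD n y x := by
  funext t
  simp only [VD, Pi.neg_apply]
  ring

theorem single_VD {n : ℕ} (hn : 3 ≤ n) (i : Fin n) (hi : (i : ℕ) + 1 < n) :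
    (Pi.single i 1 : Fin n → ℤ) = VD n i (i + 1) := by
  funext t
  have ht := t.isLt
  by_cases h : t = i
  · subst h
    simp only [Pi.single_eq_same, VD, posD]
    grind (splits := 40)
  · have h' : (t : ℕ) ≠ i := fun h' => h (Fin.ext h')
    rw [Pi.single_eq_of_ne h]
    simp only [VD, posD]
    grind (splits := 40)

theorem single_VD' {n : ℕ} (hn : 3 ≤ n) (i : Fin n) (hi : (i : ℕ) + 1 = n) :
    (Pi.single i 1 : Fin n → ℤ) = VD n (n - 2) n := by
  funext t
  have ht := t.isLt
  by_cases h : t = i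
  · subst h
    simp only [Pi.single_eq_same, VD, posD]
    grind (splits := 40)
  · have h' : (t : ℕ) ≠ i := fun h' => h (Fin.ext h')
    rw [Pi.single_eq_of_ne h]
    simp only [VD, posD]
    grind (splits := 40)

theorem perm_lt {n i x : ℕ} (hn : 3 ≤ n) (hi : i < n) (hx : x < 2 * n) : permD n i x < 2 * n := by
  unfold permD
  grind (splits := 40)

theorem perm_ne {n i x y : ℕ} (hn : 3 ≤ n) (hi : i < n) (hx : x < 2 * n) (hy : y < 2 * n)
    (hxy : x ≠ y) : permD n i x ≠ permD n i y := by
  unfold permD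
  grind (splits := 60)

theorem perm_sum {n i x y : ℕ} (hn : 3 ≤ n) (hi : i < n) (hx : x < 2 * n) (hy : y < 2 * n)
    (hxy : x + y + 1 ≠ 2 * n) : permD n i x + permD n i y + 1 ≠ 2 * n := by
  unfold permD
  grind (splits := 60)

/-- the positive roots -/
theorem isRoot_pos {n : ℕ} (hn : 3 ≤ n) (y : ℕ) : ∀ x, x < y → x + y + 1 < 2 * n →
    IsRoot (D n) (VD n x y) := by
  induction y using Nat.strong_induction_on with
  | _ z ih =>
    intro x hxz hs
    obtain ⟨y, rfl⟩ : ∃ y, z = y + 1 := ⟨z - 1, by omega⟩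
    by_cases h1 : x = y
    · subst h1
      have := IsRoot.simple (A := D n) ⟨x, by omega⟩
      rwa [single_VD hn _ (by simp only; omega)] at this
    by_cases h2 : y + 2 ≤ n
    · have e : VD n x (y + 1) = refl (D n) ⟨y, by omega⟩ (VD n x y) := by
        rw [reflVD hn _ _ _ (by omega) (by omega)]
        have e1 : permD n y x = x := by grind [permD]
        have e2 : permD n y y = y + 1 := by grind [permD]
        simp only [e1, e2]
      rw [e]
      exact IsRoot.refl _ _ (ih y (by omega) x (by omega) (by omega))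
    by_cases h3 : y + 1 = n
    · by_cases h4 : x + 2 = n
      · have := IsRoot.simple (A := D n) ⟨n - 1, by omega⟩
        rw [single_VD' hn _ (by simp only; omega)] at this
        rwa [show x = n - 2 by omega, h3]
      · have e : VD n x (y + 1) = refl (D n) ⟨n - 1, by omega⟩ (VD n x (n - 2)) := by
          rw [reflVD hn _ _ _ (by omega) (by omega)]
          have e1 : permD n (n - 1) x = x := by grind [permD]
          have e2 : permD n (n - 1) (n - 2) = y + 1 := by grind [permD]
          simp only [e1, e2]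
        rw [e]
        exact IsRoot.refl _ _ (ih (n - 2) (by omega) x (by omega) (by omega))
    by_cases h4 : y = n
    · have e : VD n x (y + 1) = refl (D n) ⟨n - 1, by omega⟩ (VD n x (n - 1)) := by
        rw [reflVD hn _ _ _ (by omega) (by omega)]
        have e1 : permD n (n - 1) x = x := by grind [permD]
        have e2 : permD n (n - 1) (n - 1) = y + 1 := by grind [permD]
        simp only [e1, e2]
      rw [e]
      exact IsRoot.refl _ _ (ih (n - 1) (by omega) x (by omega) (by omega))
    · have e : VD n x (y + 1) = refl (D n) ⟨2 * n - 2 - y, by omega⟩ (VD n x y) := by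
        rw [reflVD hn _ _ _ (by omega) (by omega)]
        have e1 : permD n (2 * n - 2 - y) x = x := by grind [permD]
        have e2 : permD n (2 * n - 2 - y) y = y + 1 := by grind [permD]
        simp only [e1, e2]
      rw [e]
      exact IsRoot.refl _ _ (ih y (by omega) x (by omega) (by omega))

theorem isRoot_lt {n : ℕ} (hn : 3 ≤ n) (x y : ℕ) (hxy : x < y) (hy : y < 2 * n)
    (hs : x + y + 1 ≠ 2 * n) : IsRoot (D n) (VD n x y) := by
  rcases Nat.lt_or_gt_of_ne hs with h | h
  · exact isRoot_pos hn y x hxy h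
  · rw [VD_mirror hn x y (by omega) hy]
    exact isRoot_pos hn _ _ (by omega) (by omega)

theorem diagD (n : ℕ) (i : Fin n) : D n i i = 2 := by
  simp [D]

end DF

open DF

/-- TARGET 1 -/
theorem rootsD {n : ℕ} (hn : 3 ≤ n) {v : Fin n → ℤ} (hv : IsRoot (D n) v) :
    ∃ x y, x < 2 * n ∧ y < 2 * n ∧ x ≠ y ∧ x + y + 1 ≠ 2 * n ∧ v = VD n x y := by
  induction hv with
  | simple i =>
    have hi := i.isLt
    by_cases h : (i : ℕ) + 1 = n
    · exact ⟨n - 2, n, by omega, by omega, by omega, by omega, single_VD' hn i h⟩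
    · exact ⟨i, i + 1, by omega, by omega, by omega, by omega, single_VD hn i (by omega)⟩
  | refl i v _ ih =>
    obtain ⟨x, y, hx, hy, hxy, hs, rfl⟩ := ih
    have hi := i.isLt
    exact ⟨permD n i x, permD n i y, perm_lt hn hi hx, perm_lt hn hi hy, perm_ne hn hi hx hy hxy,
      perm_sum hn hi hx hy hs, reflVD hn i x y hx hy⟩

/-- TARGET 2 -/
theorem isRootD {n : ℕ} (hn : 3 ≤ n) (x y : ℕ) (hx : x < 2 * n) (hy : y < 2 * n) (hxy : x ≠ y)
    (hs : x + y + 1 ≠ 2 * n) : IsRoot (D n) (VD n x y) := by
  rcases Nat.lt_or_gt_of_ne hxy with h | h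
  · exact isRoot_lt hn x y h hy hs
  · rw [VD_neg]
    exact isRoot_neg (diagD n) (isRoot_lt hn y x h hx (by omega))

/-- TARGET 3 -/
theorem fineD (n : ℕ) (hn : 3 ≤ n) : Fine (D n) where
  diag := diagD n
  fin := by
    refine (Set.finite_range fun p : Fin (2 * n) × Fin (2 * n) => VD n p.1 p.2).subset ?_
    intro v hv
    obtain ⟨x, y, hx, hy, _, _, rfl⟩ := rootsD hn hv
    exact ⟨(⟨x, hx⟩, ⟨y, hy⟩), rfl⟩
  sign := by
    intro v hv
    obtain ⟨x, y, hx, hy, hxy, hs, rfl⟩ := rootsD hn hv
    rcases Nat.lt_or_ge x y with h | h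
    · left; intro t
      have ht := t.isLt
      simp only [VD, posD, Pi.zero_apply]; grind (splits := 60)
    · right; intro t
      have ht := t.isLt
      simp only [VD, posD, Pi.zero_apply]; grind (splits := 60)
  mult := by
    intro v i hv h0
    obtain ⟨x, y, hx, hy, hxy, hs, rfl⟩ := rootsD hn hv
    have hi := i.isLt
    have key : ∀ t, t < n → t ≠ i → posD n y t = posD n x t := by
      intro t ht hti
      have := h0 ⟨t, ht⟩ (fun h => hti (by rw [← h]))
      simp only [VD] at this
      omega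
    simp only [VD]
    have k1 := key x
    have k2 := key y
    have k3 := key (n - 1)
    have k4 := key (n - 2)
    have k5 := key (2 * n - 1 - x)
    have k6 := key (2 * n - 1 - y)
    simp only [posD] at k1 k2 k3 k4 k5 k6 ⊢
    grind (splits := 100)

end Pool.Agent.Helper282_TM
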