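import Pool.Agent.Helper282_TM.TypeD1

/-!
# Box components of type D (proved by helper202)
-/

set_option autoImplicit false

namespace Pool.Agent.Helper282_TM

open Finset CartanMatrix

namespace DB

/-- the roots are symmetric -/
theorem VD_symm {n : ℕ} (hn : 3 ≤ n) (x y : ℕ) (hx : x < 2 * n) (hy : y < 2 * n) :
    VD n x y = VD n (2 * n - 1 - y) (2 * n - 1 - x) := by
  funext t
  have ht := t.isLt
  simp only [VD]
  have key : ∀ y, y < 2 * n → posD n y t + posD n (2 * n - 1 - y) t = posD n (2 * n - 1) t := by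
    intro y hy
    simp only [posD]
    grind
  have h1 := key x hx
  have h2 := key y hy
  omega

theorem cases1 {n : ℕ} (hn : 3 ≤ n) (a b xa x y : ℕ) (hx : x < 2 * n) (hy : y < 2 * n)
    (hxy : x ≠ y) (hs : x + y + 1 ≠ 2 * n) (ha1 : a + 1 < n) (hab : a < b) (hb : b < n)
    (hxa : xa ≤ a) (h1 : posD n y a - posD n x a = 1) (h2 : posD n y b - posD n x b = 0)
    (h3 : b + 2 = n → posD n y (b + 1) - posD n x (b + 1) = 0)
    (h4 : 1 ≤ xa → posD n y (xa - 1) - posD n x (xa - 1) = 0) :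
    (xa ≤ x ∧ x ≤ a ∧ a + 1 ≤ y ∧ y ≤ b) ∨
      (xa ≤ 2 * n - 1 - y ∧ 2 * n - 1 - y ≤ a ∧ a + 1 ≤ 2 * n - 1 - x ∧ 2 * n - 1 - x ≤ b) := by
  simp only [posD] at h1 h2 h3 h4
  grind (splits := 60)

theorem supp1 {n : ℕ} (hn : 3 ≤ n) (a b xa x y t : ℕ) (ht : t < n) (ha1 : a + 1 < n) (hab : a < b)
    (hb : b < n) (hx1 : xa ≤ x) (hx2 : x ≤ a) (hy1 : a + 1 ≤ y) (hy2 : y ≤ b)
    (hne : posD n y t - posD n x t ≠ 0) (hta : t ≠ a) :
    (xa ≤ t ∧ t < a) ∨ (a < t ∧ t < b) := by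
  simp only [posD] at hne
  grind (splits := 60)

theorem le1 {n : ℕ} (hn : 3 ≤ n) (a b xa x y x' y' : ℕ) (ha1 : a + 1 < n) (hab : a < b)
    (hb : b < n) (hx1 : xa ≤ x) (hx2 : x ≤ a) (hy1 : a + 1 ≤ y) (hy2 : y ≤ b)
    (hx1' : xa ≤ x') (hx2' : x' ≤ a) (hy1' : a + 1 ≤ y') (hy2' : y' ≤ b) :
    VD n x y ≤ VD n x' y' ↔ x' ≤ x ∧ y ≤ y' := by
  constructor
  · intro h
    by_contra hcon
    rcases Nat.lt_or_ge x x' with h9 | h9
    · have := h ⟨x, by omega⟩
      simp only [VD, posD] at this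
      grind (splits := 60)
    · have := h ⟨y', by omega⟩
      simp only [VD, posD] at this
      grind (splits := 60)
  · intro h t
    have ht := t.isLt
    simp only [VD, posD]
    grind (splits := 60)

end DB

/-- TARGET -/
theorem dBox {n : ℕ} (hn : 3 ≤ n) (S : Set (Fin n)) (a : Fin n) (ha : a ∉ S)
    (ha1 : (a : ℕ) + 1 < n) (b : ℕ) (hab : (a : ℕ) < b) (hb : b < n)
    (hS : ∀ t, (a : ℕ) < t → t < b → nodeIn S t) (hbS : ¬ nodeIn S b)
    (hb2 : b + 2 = n → ¬ nodeIn S (b + 1)) : HoldsAt (D n) S a := by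
  intro w hw P hPP
  obtain ⟨xa, hxa1, hxa2, hxa3⟩ := exists_left (nodeIn S) a
  have han := a.isLt
  have hbS' : (⟨b, hb⟩ : Fin n) ∉ S := fun h => hbS ⟨hb, h⟩
  have hxa3' : xa = 0 ∨ ∃ h : xa - 1 < n, 1 ≤ xa ∧ (⟨xa - 1, h⟩ : Fin n) ∉ S := by
    rcases Nat.eq_zero_or_pos xa with h | h
    · exact Or.inl h
    · right
      refine ⟨by omega, h, fun hS => ?_⟩
      rcases hxa3 with h1 | h1
      · omega
      · exact h1 ⟨by omega, hS⟩
  refine boxCase box (VD n) xa a (a + 1) b hxa1 hab ?_ ?_ ?_ w hw P hPP (fineD n hn).diag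
  · intro v
    constructor
    · rintro ⟨h1, h2, h3⟩
      obtain ⟨x, y, hx, hy, hxy, hs, rfl⟩ := rootsD hn h1
      have h2' : posD n y a - posD n x a = 1 := h2
      have h4 : posD n y b - posD n x b = 0 :=
        h3 ⟨b, hb⟩ hbS' (fun h6 => by rw [← h6] at hab; simp only at hab; omega)
      have h5 : b + 2 = n → posD n y (b + 1) - posD n x (b + 1) = 0 := by
        intro h
        exact h3 ⟨b + 1, by omega⟩ (fun h6 => hb2 h ⟨by omega, h6⟩)
          (fun h6 => by rw [← h6] at hab; simp only at hab; omega)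
      have h6 : 1 ≤ xa → posD n y (xa - 1) - posD n x (xa - 1) = 0 := by
        intro h
        rcases hxa3' with h7 | ⟨h7, h8, h9⟩
        · omega
        · exact h3 ⟨xa - 1, h7⟩ h9 (fun h6 => by rw [← h6] at hxa1; simp only at hxa1; omega)
      rcases DB.cases1 hn a b xa x y hx hy hxy hs ha1 hab hb hxa1 h2' h4 h5 h6 with h | h
      · exact ⟨x, y, h.1, h.2.1, h.2.2.1, h.2.2.2, rfl⟩
      · exact ⟨2 * n - 1 - y, 2 * n - 1 - x, h.1, h.2.1, h.2.2.1, h.2.2.2,
          DB.VD_symm hn x y hx hy⟩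
    · rintro ⟨x, y, h1, h2, h3, h4, rfl⟩
      refine ⟨isRootD hn x y (by omega) (by omega) (by omega) (by omega), ?_, ?_⟩
      · simp only [VD, posD]; grind (splits := 60)
      · intro i hi hia
        have hia' : (i : ℕ) ≠ a := fun h => hia (Fin.ext h)
        by_contra hne
        apply hi
        apply mem_of_nodeIn
        rcases DB.supp1 hn a b xa x y i i.isLt ha1 hab hb h1 h2 h3 h4 hne hia' with h | h
        · exact hxa2 i h.1 h.2
        · exact hS i h.1 h.2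
  · intro x y x' y' h1 h2 h3 h4 h5 h6 h7 h8
    exact DB.le1 hn a b xa x y x' y' ha1 hab hb h1 h2 h3 h4 h5 h6 h7 h8
  · intro i hi
    have hin := i.isLt
    have hia : (i : ℕ) ≠ a := fun h => ha (by rwa [← Fin.ext h])
    have hix : (i : ℕ) + 1 ≠ xa := by
      intro h
      rcases hxa3' with h1 | ⟨h1, h2, h3⟩
      · omega
      · apply h3
        have : (⟨xa - 1, h1⟩ : Fin n) = i := Fin.ext (by simp only; omega)
        rwa [this]
    have hiy : (i : ℕ) ≠ b := by
      intro h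
      apply hbS'
      have : (⟨b, hb⟩ : Fin n) = i := Fin.ext (by simp only; omega)
      rwa [this]
    have hiy2 : b + 2 = n → (i : ℕ) ≠ b + 1 := by
      intro h h'
      apply hb2 h
      rw [← h']
      exact nodeIn_of_mem hi
    refine ⟨permD n i, ?_, ?_, ?_⟩
    · intro x h1 h2; grind (splits := 60) [permD]
    · intro y h1 h2; grind (splits := 60) [permD]
    · intro x y _ h2 _ h4
      exact reflVD hn i x y (by omega) (by omega)

end Pool.Agent.Helper282_TM
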