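import Pool.Agent.Helper282_TM.ExcSound

/-!
# Type E7 (MP_1283eb_co)

`R` lists the positive roots by decreasing height (support, code, coordinates), `cols` the columns of
the Cartan matrix.
-/

set_option autoImplicit false

namespace Pool.Agent.Helper282_TM

open Finset CartanMatrix

def RE7 : List (ℕ × ℤ × List ℤ) := [(127, 19088162, [2,2,3,4,3,2,1]),
  (127, 19088161, [1,2,3,4,3,2,1]),
  (127, 19087905, [1,2,2,4,3,2,1]),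
  (127, 19083809, [1,2,2,3,3,2,1]),
  (127, 19018273, [1,2,2,3,2,2,1]),
  (127, 19083793, [1,1,2,3,3,2,1]),
  (127, 17969697, [1,2,2,3,2,1,1]),
  (127, 19018257, [1,1,2,3,2,2,1]),
  (63, 1192481, [1,2,2,3,2,1,0]),
  (127, 17969681, [1,1,2,3,2,1,1]),
  (127, 19014161, [1,1,2,2,2,2,1]),
  (63, 1192465, [1,1,2,3,2,1,0]),
  (127, 17965585, [1,1,2,2,2,1,1]),
  (127, 19013905, [1,1,1,2,2,2,1]),
  (63, 1188369, [1,1,2,2,2,1,0]),
  (127, 17900049, [1,1,2,2,1,1,1]),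
  (127, 17965329, [1,1,1,2,2,1,1]),
  (126, 19013904, [0,1,1,2,2,2,1]),
  (63, 1122833, [1,1,2,2,1,1,0]),
  (63, 1188113, [1,1,1,2,2,1,0]),
  (127, 17899793, [1,1,1,2,1,1,1]),
  (126, 17965328, [0,1,1,2,2,1,1]),
  (31, 74257, [1,1,2,2,1,0,0]),
  (63, 1122577, [1,1,1,2,1,1,0]),
  (127, 17895697, [1,1,1,1,1,1,1]),
  (62, 1188112, [0,1,1,2,2,1,0]),
  (126, 17899792, [0,1,1,2,1,1,1]),
  (31, 74001, [1,1,1,2,1,0,0]),
  (63, 1118481, [1,1,1,1,1,1,0]),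
  (125, 17895681, [1,0,1,1,1,1,1]),
  (62, 1122576, [0,1,1,2,1,1,0]),
  (126, 17895696, [0,1,1,1,1,1,1]),
  (31, 69905, [1,1,1,1,1,0,0]),
  (61, 1118465, [1,0,1,1,1,1,0]),
  (30, 74000, [0,1,1,2,1,0,0]),
  (62, 1118480, [0,1,1,1,1,1,0]),
  (122, 17895440, [0,1,0,1,1,1,1]),
  (124, 17895680, [0,0,1,1,1,1,1]),
  (15, 4369, [1,1,1,1,0,0,0]),
  (29, 69889, [1,0,1,1,1,0,0]),
  (30, 69904, [0,1,1,1,1,0,0]),
  (58, 1118224, [0,1,0,1,1,1,0]),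
  (60, 1118464, [0,0,1,1,1,1,0]),
  (120, 17895424, [0,0,0,1,1,1,1]),
  (13, 4353, [1,0,1,1,0,0,0]),
  (14, 4368, [0,1,1,1,0,0,0]),
  (26, 69648, [0,1,0,1,1,0,0]),
  (28, 69888, [0,0,1,1,1,0,0]),
  (56, 1118208, [0,0,0,1,1,1,0]),
  (112, 17891328, [0,0,0,0,1,1,1]),
  (5, 257, [1,0,1,0,0,0,0]),
  (10, 4112, [0,1,0,1,0,0,0]),
  (12, 4352, [0,0,1,1,0,0,0]),
  (24, 69632, [0,0,0,1,1,0,0]),
  (48, 1114112, [0,0,0,0,1,1,0]),
  (96, 17825792, [0,0,0,0,0,1,1]),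
  (1, 1, [1,0,0,0,0,0,0]),
  (2, 16, [0,1,0,0,0,0,0]),
  (4, 256, [0,0,1,0,0,0,0]),
  (8, 4096, [0,0,0,1,0,0,0]),
  (16, 65536, [0,0,0,0,1,0,0]),
  (32, 1048576, [0,0,0,0,0,1,0]),
  (64, 16777216, [0,0,0,0,0,0,1])]

def colsE7 : List (List ℤ) := [[2,0,-1,0,0,0,0], [0,2,0,-1,0,0,0], [-1,0,2,-1,0,0,0], [0,-1,-1,2,-1,0,0], [0,0,0,-1,2,-1,0], [0,0,0,0,-1,2,-1], [0,0,0,0,0,-1,2]]

theorem colsOKE7 : ColsOK 7 E₇ colsE7 where
  len := by decide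
  len' := by decide
  ent := by decide

theorem diagE7 : ∀ i, E₇ i i = 2 := by decide

set_option maxRecDepth 1000000 in
theorem chkRE7 : chkR 7 colsE7 RE7 = true := by decide +kernel

set_option maxRecDepth 1000000 in
theorem chkCE7 : (List.range 128).all (chkC 7 colsE7 RE7) = true := by decide +kernel

theorem typeE7 : Fine E₇ ∧ Holds E₇ := by
  refine holds_of_chk colsOKE7 diagE7 chkRE7 fun c hc => ?_
  exact List.all_eq_true.mp chkCE7 c (List.mem_range.mpr hc)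

end Pool.Agent.Helper282_TM
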