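import Pool.Agent.Helper282_TM.ExcSound

/-!
# Type E8 (MP_1283eb_co)

`R` lists the positive roots by decreasing height (support, code, coordinates), `cols` the columns of
the Cartan matrix.
-/

set_option autoImplicit false

namespace Pool.Agent.Helper282_TM

open Finset CartanMatrix

def RE8 : List (ℕ × ℤ × List ℤ) := [(255, 591750194, [2,3,4,6,5,4,3,2]),
  (255, 323314738, [2,3,4,6,5,4,3,1]),
  (255, 306537522, [2,3,4,6,5,4,2,1]),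
  (255, 305488946, [2,3,4,6,5,3,2,1]),
  (255, 305423410, [2,3,4,6,4,3,2,1]),
  (255, 305419314, [2,3,4,5,4,3,2,1]),
  (255, 305419058, [2,3,3,5,4,3,2,1]),
  (255, 305419298, [2,2,4,5,4,3,2,1]),
  (255, 305419042, [2,2,3,5,4,3,2,1]),
  (255, 305419057, [1,3,3,5,4,3,2,1]),
  (255, 305414946, [2,2,3,4,4,3,2,1]),
  (255, 305419041, [1,2,3,5,4,3,2,1]),
  (255, 305349410, [2,2,3,4,3,3,2,1]),
  (255, 305414945, [1,2,3,4,4,3,2,1]),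
  (255, 304300834, [2,2,3,4,3,2,2,1]),
  (255, 305349409, [1,2,3,4,3,3,2,1]),
  (255, 305414689, [1,2,2,4,4,3,2,1]),
  (255, 287523618, [2,2,3,4,3,2,1,1]),
  (255, 304300833, [1,2,3,4,3,2,2,1]),
  (255, 305349153, [1,2,2,4,3,3,2,1]),
  (127, 19088162, [2,2,3,4,3,2,1,0]),
  (255, 287523617, [1,2,3,4,3,2,1,1]),
  (255, 304300577, [1,2,2,4,3,2,2,1]),
  (255, 305345057, [1,2,2,3,3,3,2,1]),
  (127, 19088161, [1,2,3,4,3,2,1,0]),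
  (255, 287523361, [1,2,2,4,3,2,1,1]),
  (255, 304296481, [1,2,2,3,3,2,2,1]),
  (255, 305345041, [1,1,2,3,3,3,2,1]),
  (127, 19087905, [1,2,2,4,3,2,1,0]),
  (255, 287519265, [1,2,2,3,3,2,1,1]),
  (255, 304230945, [1,2,2,3,2,2,2,1]),
  (255, 304296465, [1,1,2,3,3,2,2,1]),
  (127, 19083809, [1,2,2,3,3,2,1,0]),
  (255, 287453729, [1,2,2,3,2,2,1,1]),
  (255, 287519249, [1,1,2,3,3,2,1,1]),
  (255, 304230929, [1,1,2,3,2,2,2,1]),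
  (127, 19018273, [1,2,2,3,2,2,1,0]),
  (255, 286405153, [1,2,2,3,2,1,1,1]),
  (127, 19083793, [1,1,2,3,3,2,1,0]),
  (255, 287453713, [1,1,2,3,2,2,1,1]),
  (255, 304226833, [1,1,2,2,2,2,2,1]),
  (127, 17969697, [1,2,2,3,2,1,1,0]),
  (127, 19018257, [1,1,2,3,2,2,1,0]),
  (255, 286405137, [1,1,2,3,2,1,1,1]),
  (255, 287449617, [1,1,2,2,2,2,1,1]),
  (255, 304226577, [1,1,1,2,2,2,2,1]),
  (63, 1192481, [1,2,2,3,2,1,0,0]),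
  (127, 17969681, [1,1,2,3,2,1,1,0]),
  (127, 19014161, [1,1,2,2,2,2,1,0]),
  (255, 286401041, [1,1,2,2,2,1,1,1]),
  (255, 287449361, [1,1,1,2,2,2,1,1]),
  (254, 304226576, [0,1,1,2,2,2,2,1]),
  (63, 1192465, [1,1,2,3,2,1,0,0]),
  (127, 17965585, [1,1,2,2,2,1,1,0]),
  (255, 286335505, [1,1,2,2,1,1,1,1]),
  (127, 19013905, [1,1,1,2,2,2,1,0]),
  (255, 286400785, [1,1,1,2,2,1,1,1]),
  (254, 287449360, [0,1,1,2,2,2,1,1]),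
  (63, 1188369, [1,1,2,2,2,1,0,0]),
  (127, 17900049, [1,1,2,2,1,1,1,0]),
  (127, 17965329, [1,1,1,2,2,1,1,0]),
  (255, 286335249, [1,1,1,2,1,1,1,1]),
  (126, 19013904, [0,1,1,2,2,2,1,0]),
  (254, 286400784, [0,1,1,2,2,1,1,1]),
  (63, 1122833, [1,1,2,2,1,1,0,0]),
  (63, 1188113, [1,1,1,2,2,1,0,0]),
  (127, 17899793, [1,1,1,2,1,1,1,0]),
  (255, 286331153, [1,1,1,1,1,1,1,1]),
  (126, 17965328, [0,1,1,2,2,1,1,0]),
  (254, 286335248, [0,1,1,2,1,1,1,1]),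
  (31, 74257, [1,1,2,2,1,0,0,0]),
  (63, 1122577, [1,1,1,2,1,1,0,0]),
  (127, 17895697, [1,1,1,1,1,1,1,0]),
  (253, 286331137, [1,0,1,1,1,1,1,1]),
  (62, 1188112, [0,1,1,2,2,1,0,0]),
  (126, 17899792, [0,1,1,2,1,1,1,0]),
  (254, 286331152, [0,1,1,1,1,1,1,1]),
  (31, 74001, [1,1,1,2,1,0,0,0]),
  (63, 1118481, [1,1,1,1,1,1,0,0]),
  (125, 17895681, [1,0,1,1,1,1,1,0]),
  (62, 1122576, [0,1,1,2,1,1,0,0]),
  (126, 17895696, [0,1,1,1,1,1,1,0]),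
  (250, 286330896, [0,1,0,1,1,1,1,1]),
  (252, 286331136, [0,0,1,1,1,1,1,1]),
  (31, 69905, [1,1,1,1,1,0,0,0]),
  (61, 1118465, [1,0,1,1,1,1,0,0]),
  (30, 74000, [0,1,1,2,1,0,0,0]),
  (62, 1118480, [0,1,1,1,1,1,0,0]),
  (122, 17895440, [0,1,0,1,1,1,1,0]),
  (124, 17895680, [0,0,1,1,1,1,1,0]),
  (248, 286330880, [0,0,0,1,1,1,1,1]),
  (15, 4369, [1,1,1,1,0,0,0,0]),
  (29, 69889, [1,0,1,1,1,0,0,0]),
  (30, 69904, [0,1,1,1,1,0,0,0]),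
  (58, 1118224, [0,1,0,1,1,1,0,0]),
  (60, 1118464, [0,0,1,1,1,1,0,0]),
  (120, 17895424, [0,0,0,1,1,1,1,0]),
  (240, 286326784, [0,0,0,0,1,1,1,1]),
  (13, 4353, [1,0,1,1,0,0,0,0]),
  (14, 4368, [0,1,1,1,0,0,0,0]),
  (26, 69648, [0,1,0,1,1,0,0,0]),
  (28, 69888, [0,0,1,1,1,0,0,0]),
  (56, 1118208, [0,0,0,1,1,1,0,0]),
  (112, 17891328, [0,0,0,0,1,1,1,0]),
  (224, 286261248, [0,0,0,0,0,1,1,1]),
  (5, 257, [1,0,1,0,0,0,0,0]),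
  (10, 4112, [0,1,0,1,0,0,0,0]),
  (12, 4352, [0,0,1,1,0,0,0,0]),
  (24, 69632, [0,0,0,1,1,0,0,0]),
  (48, 1114112, [0,0,0,0,1,1,0,0]),
  (96, 17825792, [0,0,0,0,0,1,1,0]),
  (192, 285212672, [0,0,0,0,0,0,1,1]),
  (1, 1, [1,0,0,0,0,0,0,0]),
  (2, 16, [0,1,0,0,0,0,0,0]),
  (4, 256, [0,0,1,0,0,0,0,0]),
  (8, 4096, [0,0,0,1,0,0,0,0]),
  (16, 65536, [0,0,0,0,1,0,0,0]),
  (32, 1048576, [0,0,0,0,0,1,0,0]),
  (64, 16777216, [0,0,0,0,0,0,1,0]),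
  (128, 268435456, [0,0,0,0,0,0,0,1])]

def colsE8 : List (List ℤ) := [[2,0,-1,0,0,0,0,0], [0,2,0,-1,0,0,0,0], [-1,0,2,-1,0,0,0,0], [0,-1,-1,2,-1,0,0,0], [0,0,0,-1,2,-1,0,0], [0,0,0,0,-1,2,-1,0], [0,0,0,0,0,-1,2,-1], [0,0,0,0,0,0,-1,2]]

theorem colsOKE8 : ColsOK 8 E₈ colsE8 where
  len := by decide
  len' := by decide
  ent := by decide

theorem diagE8 : ∀ i, E₈ i i = 2 := by decide

set_option maxRecDepth 1000000 in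
theorem chkRE8 : chkR 8 colsE8 RE8 = true := by decide +kernel

set_option maxRecDepth 1000000 in
theorem chkCE8 : (List.range 256).all (chkC 8 colsE8 RE8) = true := by decide +kernel

theorem typeE8 : Fine E₈ ∧ Holds E₈ := by
  refine holds_of_chk colsOKE8 diagE8 chkRE8 fun c hc => ?_
  exact List.all_eq_true.mp chkCE8 c (List.mem_range.mpr hc)

end Pool.Agent.Helper282_TM
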