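import Pool.Agent.Helper282_TM.ExcSound

/-!
# Types E6, F4, G2 (MP_1283eb_co)

`R` lists the positive roots by decreasing height (support, code, coordinates), `cols` the columns of
the Cartan matrix.
-/

set_option autoImplicit false

namespace Pool.Agent.Helper282_TM

open Finset CartanMatrix

def RE6 : List (ℕ × ℤ × List ℤ) := [(63, 1192481, [1,2,2,3,2,1]),
  (63, 1192465, [1,1,2,3,2,1]),
  (63, 1188369, [1,1,2,2,2,1]),
  (63, 1122833, [1,1,2,2,1,1]),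
  (63, 1188113, [1,1,1,2,2,1]),
  (31, 74257, [1,1,2,2,1,0]),
  (63, 1122577, [1,1,1,2,1,1]),
  (62, 1188112, [0,1,1,2,2,1]),
  (31, 74001, [1,1,1,2,1,0]),
  (63, 1118481, [1,1,1,1,1,1]),
  (62, 1122576, [0,1,1,2,1,1]),
  (31, 69905, [1,1,1,1,1,0]),
  (61, 1118465, [1,0,1,1,1,1]),
  (30, 74000, [0,1,1,2,1,0]),
  (62, 1118480, [0,1,1,1,1,1]),
  (15, 4369, [1,1,1,1,0,0]),
  (29, 69889, [1,0,1,1,1,0]),
  (30, 69904, [0,1,1,1,1,0]),
  (58, 1118224, [0,1,0,1,1,1]),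
  (60, 1118464, [0,0,1,1,1,1]),
  (13, 4353, [1,0,1,1,0,0]),
  (14, 4368, [0,1,1,1,0,0]),
  (26, 69648, [0,1,0,1,1,0]),
  (28, 69888, [0,0,1,1,1,0]),
  (56, 1118208, [0,0,0,1,1,1]),
  (5, 257, [1,0,1,0,0,0]),
  (10, 4112, [0,1,0,1,0,0]),
  (12, 4352, [0,0,1,1,0,0]),
  (24, 69632, [0,0,0,1,1,0]),
  (48, 1114112, [0,0,0,0,1,1]),
  (1, 1, [1,0,0,0,0,0]),
  (2, 16, [0,1,0,0,0,0]),
  (4, 256, [0,0,1,0,0,0]),
  (8, 4096, [0,0,0,1,0,0]),
  (16, 65536, [0,0,0,0,1,0]),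
  (32, 1048576, [0,0,0,0,0,1])]

def colsE6 : List (List ℤ) := [[2,0,-1,0,0,0], [0,2,0,-1,0,0], [-1,0,2,-1,0,0], [0,-1,-1,2,-1,0], [0,0,0,-1,2,-1], [0,0,0,0,-1,2]]

theorem colsOKE6 : ColsOK 6 E₆ colsE6 where
  len := by decide
  len' := by decide
  ent := by decide

theorem diagE6 : ∀ i, E₆ i i = 2 := by decide

set_option maxRecDepth 1000000 in
theorem chkRE6 : chkR 6 colsE6 RE6 = true := by decide +kernel

set_option maxRecDepth 1000000 in
theorem chkCE6 : (List.range 64).all (chkC 6 colsE6 RE6) = true := by decide +kernel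

theorem typeE6 : Fine E₆ ∧ Holds E₆ := by
  refine holds_of_chk colsOKE6 diagE6 chkRE6 fun c hc => ?_
  exact List.all_eq_true.mp chkCE6 c (List.mem_range.mpr hc)

def RF4 : List (ℕ × ℤ × List ℤ) := [(15, 9266, [2,3,4,2]),
  (15, 9265, [1,3,4,2]),
  (15, 9249, [1,2,4,2]),
  (15, 8993, [1,2,3,2]),
  (15, 4897, [1,2,3,1]),
  (15, 8737, [1,2,2,2]),
  (15, 4641, [1,2,2,1]),
  (15, 8721, [1,1,2,2]),
  (7, 545, [1,2,2,0]),
  (15, 4625, [1,1,2,1]),
  (14, 8720, [0,1,2,2]),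
  (7, 529, [1,1,2,0]),
  (15, 4369, [1,1,1,1]),
  (14, 4624, [0,1,2,1]),
  (7, 273, [1,1,1,0]),
  (6, 528, [0,1,2,0]),
  (14, 4368, [0,1,1,1]),
  (3, 17, [1,1,0,0]),
  (6, 272, [0,1,1,0]),
  (12, 4352, [0,0,1,1]),
  (1, 1, [1,0,0,0]),
  (2, 16, [0,1,0,0]),
  (4, 256, [0,0,1,0]),
  (8, 4096, [0,0,0,1])]

def colsF4 : List (List ℤ) := [[2,-1,0,0], [-1,2,-1,0], [0,-2,2,-1], [0,0,-1,2]]

theorem colsOKF4 : ColsOK 4 F₄ colsF4 where
  len := by decide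
  len' := by decide
  ent := by decide

theorem diagF4 : ∀ i, F₄ i i = 2 := by decide

set_option maxRecDepth 1000000 in
theorem chkRF4 : chkR 4 colsF4 RF4 = true := by decide +kernel

set_option maxRecDepth 1000000 in
theorem chkCF4 : (List.range 16).all (chkC 4 colsF4 RF4) = true := by decide +kernel

theorem typeF4 : Fine F₄ ∧ Holds F₄ := by
  refine holds_of_chk colsOKF4 diagF4 chkRF4 fun c hc => ?_
  exact List.all_eq_true.mp chkCF4 c (List.mem_range.mpr hc)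

def RG2 : List (ℕ × ℤ × List ℤ) := [(3, 50, [2,3]),
  (3, 49, [1,3]),
  (3, 33, [1,2]),
  (3, 17, [1,1]),
  (1, 1, [1,0]),
  (2, 16, [0,1])]

def colsG2 : List (List ℤ) := [[2,-1], [-3,2]]

theorem colsOKG2 : ColsOK 2 G₂ colsG2 where
  len := by decide
  len' := by decide
  ent := by decide

theorem diagG2 : ∀ i, G₂ i i = 2 := by decide

set_option maxRecDepth 1000000 in
theorem chkRG2 : chkR 2 colsG2 RG2 = true := by decide +kernel

set_option maxRecDepth 1000000 in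
theorem chkCG2 : (List.range 4).all (chkC 2 colsG2 RG2) = true := by decide +kernel

theorem typeG2 : Fine G₂ ∧ Holds G₂ := by
  refine holds_of_chk colsOKG2 diagG2 chkRG2 fun c hc => ?_
  exact List.all_eq_true.mp chkCG2 c (List.mem_range.mpr hc)

end Pool.Agent.Helper282_TM
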